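import Pool.Agent.MP_249dba_lc.Defs
import Pool.Agent.MP_e34318_lc.Cc.PDefs

namespace Pool.Agent.MP_249dba_lc

open Cardinal Set Pool.Agent.MP_e34318_lc

/-- `K` has order type omega one. -/
def W1 (K : Type) [LinearOrder K] : Prop := (∀ a : K, (Iio a).Countable) ∧ Uncountable K

def Lad {K : Type} [LinearOrder K] (lad : K → ℕ → K) : Prop :=
  ∀ d, (∃ a, a < d) → Monotone (lad d) ∧ (∀ n, lad d n < d) ∧ ∀ a < d, ∃ n, a ≤ lad d n

def Comb (K Z : Type) [LinearOrder K] : Prop :=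
  ∃ (Y : Type) (ι : K → Y) (ζ : Z → Y) (dec : Y → Set Z) (col : K → Set Z → Bool),
    Function.Injective ι ∧ Function.Injective ζ ∧ (∀ y, #(dec y) < #Z) ∧
    ∀ F : List Y → Y, ∃ d : K, ∀ b : Bool, ∃ X : Set Y, X.Countable ∧ Closed F X ∧
      (∀ a, ι a ∈ X ↔ a < d) ∧
      ∀ x : Set Z, (∀ z ∈ x, ζ z ∈ X) → (∀ y ∈ X, ¬ x ⊆ dec y) → col d x = b

def HULL0_st : Prop := ∀ (Y : Type) (μ : Cardinal.{0}) (G : List Y → Set Y), ℵ₀ ≤ μ →
  (∀ l, #(G l) ≤ μ) → ∃ X : Set Y, #X ≤ μ ∧ (∀ l, (∀ x ∈ l, x ∈ X) → G l ⊆ X) ∧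
    ∀ M : Set Y, (∀ l, (∀ x ∈ l, x ∈ M) → G l ⊆ M) → X ⊆ M

def HULL1_st : Prop := ∀ (K : Type) [LinearOrder K] [WellFoundedLT K], W1 K →
  ∀ (Y : Type) (μ : Cardinal.{0}) (G : Set Y → Set Y), #K ≤ μ → μ ^ ℵ₀ ≤ μ →
  (∀ b : Set Y, b.Countable → #(G b) ≤ μ) →
  ∃ N : Set Y, #N ≤ μ ∧ ∀ b ⊆ N, b.Countable → G b ⊆ N

def LAD_st : Prop := ∀ (K : Type) [LinearOrder K], W1 K → ∃ lad : K → ℕ → K, Lad lad

def REC_st : Prop := ∀ (J V : Type) [Nonempty V] (r : J → J → Prop), WellFounded r →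
  ∀ (ok : J → V → Prop) (R : J → V → J → V → Prop),
  (∀ (j : J) (f : J → V), (∀ i, r i j → ok i (f i)) → ∃ v, ok j v ∧ ∀ i, r i j → R j v i (f i)) →
  ∃ f : J → V, (∀ j, ok j (f j)) ∧ ∀ i j, r i j → R j (f j) i (f i)

def GAME_st : Prop := ∀ (Pos Mv : Type) [Nonempty Mv] (Ok : Pos → Mv → Prop)
  (Leg : Pos → Mv → Pos → Prop), ∃ (W : Set Pos) (σ : Pos → Mv),
  (∀ x ∈ W, ∀ m, Ok x m → ∃ y ∈ W, Leg x m y) ∧
  (∀ x, x ∉ W → Ok x (σ x) ∧ ∀ y, Leg x (σ x) y → y ∉ W) ∧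
  ∀ s : ℕ → Pos, s 0 ∉ W → ¬ ∀ n, Leg (s n) (σ (s n)) (s (n + 1))

def BE_st : Prop := ∀ (Ω Pat Br : Type) (B : Pat → Br → Set Ω) (c : Cardinal.{0}), ℵ₀ ≤ c →
  c < #Br → #Pat ≤ #Br → (∀ π A, #(B π A) ≤ c) →
  (∀ π A A', A ≠ A' → Disjoint (B π A) (B π A')) →
  ∃ col : Ω → Bool, ∀ π b, ∃ A, ∀ x ∈ B π A, col x = b

def TREE_st : Prop := ∀ (Y T : Type) (V : ℕ → Set T) (par : ℕ → T → T) (m : ℕ → Cardinal.{0})
  (W : ℕ → Set Y → Prop) (R : ℕ → Set Y → Set Y → Prop),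
  (∀ n, ∀ t ∈ V (n + 1), par n t ∈ V n) → (∀ n, ℵ₀ ≤ m n ∧ #(V (n + 1)) ≤ m n) →
  (∃ b, W 0 b) → (∀ n b, W n b → b.Countable) →
  (∀ n b, W n b → ∀ U : Set Y, #U ≤ m n →
    ∃ b', W (n + 1) b' ∧ R n b b' ∧ b ⊆ b' ∧ b' ∩ U ⊆ b) →
  ∃ a : ℕ → T → Set Y, (∀ n, ∀ t ∈ V n, W n (a n t)) ∧
    (∀ n, ∀ t ∈ V (n + 1), R n (a n (par n t)) (a (n + 1) t) ∧ a n (par n t) ⊆ a (n + 1) t) ∧
    ∀ u v : ℕ → T, (∀ n, u n ∈ V n ∧ v n ∈ V n ∧ par n (u (n + 1)) = u n ∧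
      par n (v (n + 1)) = v n) → u ≠ v →
      ∃ n, (⋃ k, a k (u k)) ∩ (⋃ k, a k (v k)) ⊆ a n (u n)

def WIN_st : Prop := ∀ (K : Type) [LinearOrder K] [WellFoundedLT K], W1 K →
  ∀ lad : K → ℕ → K, Lad lad → ∀ (Y : Type) (ι : K → Y) (cd : Set Y → Y) (μ : K → Cardinal.{0})
  (j : K → K) (G : List Y → Set Y), Function.Injective ι → Monotone μ →
  (∀ i, #K ≤ μ i ∧ μ i ^ ℵ₀ ≤ μ i) → (∀ l, (G l).Countable) →
  ∃ (d : K) (W : ℕ → Set Y → Prop), (∃ a, a < d) ∧ (∀ a < d, j a < d) ∧ (∃ b, W 0 b) ∧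
    ∀ n b, W n b → (b.Countable ∧ (∀ l, (∀ x ∈ l, x ∈ b) → G l ⊆ b) ∧ ∀ a, ι a ∈ b ↔ a < d) ∧
      ∀ U : Set Y, #U ≤ μ (lad d n) → ∃ b', W (n + 1) b' ∧
        (∃ N : Set Y, b ⊆ N ∧ #N ≤ μ (lad d n) ∧ cd N ∈ b') ∧ b ⊆ b' ∧ b' ∩ U ⊆ b

def COL_st : Prop := ∀ (Z : Type) (L : ℕ → Set Z), Monotone L → 𝔠 ≤ #(⋃ n, L n) →
  (∀ n, 2 ^ #(L n) ≤ #(⋃ n, L n)) → ∃ col : Set Z → Bool, ∀ π : ℕ → Set Z → Set Z,
  (∀ n, ∀ A ⊆ L n, (π n A).Countable ∧ π n A ⊆ ⋃ n, L n) →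
  (∀ A ⊆ ⋃ n, L n, ∀ A' ⊆ ⋃ n, L n, A ≠ A' →
    ∃ n, (⋃ k, π k (A ∩ L k)) ∩ (⋃ k, π k (A' ∩ L k)) ⊆ π n (A ∩ L n)) →
  ∀ b, ∃ A ⊆ ⋃ n, L n, ∀ x ⊆ ⋃ k, π k (A ∩ L k), (∀ n, ¬ x ⊆ π n (A ∩ L n)) → col x = b

def SING_st : Prop := ∀ (K : Type) [LinearOrder K] [WellFoundedLT K], W1 K →
  ∀ (Z : Type) (L : K → Set Z), Monotone L → (∀ z, ∃ i, z ∈ L i) → (∀ i, #(L i) < #Z) →
  IsStrongLimit #Z → #K < #Z → Comb K Z

def R1_st : Prop := ∀ (Z : Type) [LinearOrder Z] [WellFoundedLT Z], (#Z).IsRegular → ℵ₀ < #Z →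
  (∀ z : Z, #(Iio z) < #Z) → ∃ c : Z → Bool, ∀ (f : Z → Z) (b : Bool), ∃ γ, c γ = b ∧
    (∀ z < γ, f z < γ) ∧ ∃ e : ℕ → Z, (∀ n, e n < γ) ∧ ∀ z < γ, ∃ n, z ≤ e n

def REG_st : Prop := ∀ (K : Type) [LinearOrder K] [WellFoundedLT K], W1 K →
  ∀ (Z : Type) [LinearOrder Z] [WellFoundedLT Z], (#Z).IsRegular → #K < #Z →
  (∀ z : Z, #(Iio z) < #Z) → Comb K Z

def T_st : Prop := ∀ (P : Type) [Preorder P] (A Z W : Type), Dist P A W →
  ∀ (D : P → A → Z → Prop) (p : P) (N : Set Z), #N ≤ #W → FN D p →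
  (∀ q ≤ p, ∀ a, ∃ r ≤ q, ∃ z ∈ N, D r a z) →
  ∃ q ≤ p, ∃ f : A → Z, ∀ a, ∀ r ≤ q, ∃ s ≤ r, D s a (f a)

def PW_st : Prop := ∀ (P : Type) [Preorder P] (A W : Type) [Infinite A], Dist P A W →
  Dist P A (A → W) ∧ Dist P ℕ W

def DB_st : Prop := ∀ (P : Type) [Preorder P] (A : Type), Dist P A Bool →
  ∀ Q : P → A → Prop, (∀ q r a, r ≤ q → Q q a → Q r a) →
  ∀ p, ∃ q ≤ p, ∀ a, (∀ r ≤ q, ∃ s ≤ r, Q s a) ∨ ∀ r ≤ q, ¬ Q r a

def PR_st : Prop := ∀ (P : Type) [Preorder P], Proper P →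
  ∀ (Y : Type) (D : P → List Y → Y → Prop) (p : P), FN D p → ∃ F : List Y → Y,
  ∀ X : Set Y, X.Countable → Closed F X →
    ∃ q ≤ p, ∀ l, (∀ x ∈ l, x ∈ X) → ∀ r ≤ q, ∃ s ≤ r, ∃ z ∈ X, D s l z

def OM_st : Prop := ∀ (P : Type) [Preorder P], Proper P →
  ∀ (Y : Type) (D : P → ℕ → Y → Prop) (p : P), FN D p →
  ∃ q ≤ p, ∃ X : Set Y, X.Countable ∧ ∀ n, ∀ r ≤ q, ∃ s ≤ r, ∃ y ∈ X, D s n y

def LEAST_st : Prop := ∀ (P : Type) [Preorder P] (A V : Type) [LinearOrder V] [WellFoundedLT V],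
  Dist P A V → ∀ Q : P → A → V → Prop, (∀ q r a v, r ≤ q → Q q a v → Q r a v) →
  ∀ p, (∀ q ≤ p, ∀ a, ∃ r ≤ q, ∃ v, Q r a v) → ∃ q ≤ p, ∃ f : A → V, ∀ a,
    (∀ r ≤ q, ∃ s ≤ r, Q s a (f a)) ∧ ∀ v < f a, ∀ r ≤ q, ¬ Q r a v

def SEL_st : Prop := ∀ (P : Type) [Preorder P] (V : Type), Dist P ℕ V →
  ∀ (St : P → ℕ → V → Prop) (Rel : V → V → Prop), (∀ q r n v, r ≤ q → St q n v → St r n v) →
  ∀ p v₀, St p 0 v₀ → (∀ q ≤ p, ∀ n v, St q n v → ∃ r ≤ q, ∃ v', St r (n + 1) v' ∧ Rel v v') →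
  ∃ q ≤ p, ∃ x : ℕ → V, ∀ n, Rel (x n) (x (n + 1)) ∧ ∀ r ≤ q, ∃ s ≤ r, St s n (x n)

def FIN_st : Prop := ∀ (P : Type) [Preorder P] (K : Type) [LinearOrder K] [WellFoundedLT K]
  [Nonempty K] (Z : Type), Proper P → Dist P K Bool → Dist P K ℕ → Comb K Z →
  ∀ (D : P → K → Z → Prop) (p : P), FN D p →
  ¬ ∀ N : Set Z, #N < #Z → ∀ q ≤ p, ∃ r ≤ q, ∃ a z, D r a z ∧ z ∉ N

def SMALL_st : Prop := ∀ (P : Type) [Preorder P] (K : Type) [Uncountable K]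
  (Z : Type) [LinearOrder Z], Proper P → (∀ W : Type, #W < #Z → Dist P K W) → #K < #Z →
  (∀ z : Z, #(Iic z) < #Z) → Order.cof Z < #Z → (Order.cof Z ≤ ℵ₀ ∨ #K < Order.cof Z) →
  ∀ (D : P → K → Z → Prop) (p : P), FN D p →
  ¬ ∀ N : Set Z, #N < #Z → ∀ q ≤ p, ∃ r ≤ q, ∃ a z, D r a z ∧ z ∉ N

def MAIN_st : Prop := ∀ (P : Type) [Preorder P] (K : Type) [LinearOrder K] [WellFoundedLT K],
  W1 K → Proper P → Dist P K Bool →
  (∀ κ ≤ #P, κ.ord.cof = #K → (∀ ρ < κ, ρ ^ #K < κ) → κ.IsStrongLimit) → ∀ Z : Type, Dist P K Z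

def ND_st : Prop := ∀ (K L T : Type) [LinearOrder L] [WellFoundedLT L] (F : Filter K),
  Precipitous F → ∀ (B : T → Set K) (f : T → K → L) (σ₀ : T), (B σ₀)ᶜ ∉ F →
  ¬ ∀ σ, ∀ S ⊆ B σ, Sᶜ ∉ F → ∃ τ, B τ ⊆ S ∧ (B τ)ᶜ ∉ F ∧ ∀ j ∈ B τ, f τ j < f σ j

def PB_st : Prop := ∀ (P : Type) [Preorder P] (K : Type) [Infinite K] (F : Filter K),
  (∀ V : Type, Dist P K V) → Precipitous F →
  ∀ (W : P → ℕ → Set K → Prop) (p : P) (S : Set K), Sᶜ ∉ F →
  (∀ q r n X, r ≤ q → W q n X → W r n X) →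
  (∀ q ≤ p, ∀ n X, W q n X → X ⊆ S) →
  (∀ q ≤ p, ∀ n X Y, W q n X → W q n Y → X ≠ Y → (X ∩ Y)ᶜ ∈ F) →
  (∀ q ≤ p, ∀ n, ∀ Y ⊆ S, Yᶜ ∉ F → ∃ r ≤ q, ∃ X, W r n X ∧ (X ∩ Y)ᶜ ∉ F) →
  (∀ q ≤ p, ∀ n X, W q (n + 1) X → ∃ r ≤ q, ∃ Y, W r n Y ∧ X ⊆ Y) →
  ∃ q ≤ p, ∃ (X : ℕ → Set K) (α : K), ∀ n, α ∈ X n ∧ X (n + 1) ⊆ X n ∧
    ∀ r ≤ q, ∃ s ≤ r, W s n (X n)

section


open Cardinal Set Pool.Agent.MP_e34318_lc

theorem step_Hull0 {Y : Type} {μ : Cardinal.{0}} {G : List Y → Set Y} (h0 : ℵ₀ ≤ μ)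
    (hG : ∀ l, #(G l) ≤ μ) {S : Set Y} (hS : #S ≤ μ) :
    #{y | ∃ l, (∀ x ∈ l, x ∈ S) ∧ y ∈ G l} ≤ μ := by
  have h : {y | ∃ l, (∀ x ∈ l, x ∈ S) ∧ y ∈ G l} ⊆ ⋃ l : List S, G (l.map Subtype.val) := by
    rintro y ⟨l, hl, hy⟩
    refine mem_iUnion.2 ⟨l.attachWith _ hl, ?_⟩
    rwa [List.attachWith_map_subtype_val]
  refine (mk_le_mk_of_subset h).trans ((mk_iUnion_le _).trans ?_)
  exact mul_le_of_le h0 ((mk_list_le_max S).trans (max_le h0 hS)) (ciSup_le' fun l => hG _)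

theorem hull0 : HULL0_st := by
  intro Y μ G h0 hG
  obtain ⟨X, hX0, hX⟩ : ∃ X : ℕ → Set Y, X 0 = ∅ ∧
      ∀ n, X (n + 1) = {y | ∃ l, (∀ x ∈ l, x ∈ X n) ∧ y ∈ G l} :=
    ⟨fun n => Nat.rec ∅ (fun _ S => {y | ∃ l, (∀ x ∈ l, x ∈ S) ∧ y ∈ G l}) n, rfl, fun _ => rfl⟩
  have hm : Monotone X := by
    refine monotone_nat_of_le_succ fun n => ?_
    induction n with
    | zero =>
      rw [hX0]
      exact empty_subset _
    | succ n ih =>
      rw [hX (n + 1)]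
      intro y hy
      rw [hX n] at hy
      obtain ⟨l, hl, hy⟩ := hy
      exact ⟨l, fun x hx => ih (hl x hx), hy⟩
  have hc : ∀ n, #(X n) ≤ μ := by
    intro n
    induction n with
    | zero => simp [hX0]
    | succ n ih =>
      rw [hX]
      exact step_Hull0 h0 hG ih
  have hl : ∀ l : List Y, (∀ x ∈ l, x ∈ ⋃ n, X n) → ∃ n, ∀ x ∈ l, x ∈ X n := by
    intro l
    induction l with
    | nil => exact fun _ => ⟨0, fun _ h => absurd h List.not_mem_nil⟩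
    | cons a l ih =>
      intro h
      obtain ⟨n, hn⟩ := ih fun x hx => h x (List.mem_cons_of_mem _ hx)
      obtain ⟨k, hk⟩ := mem_iUnion.1 (h a List.mem_cons_self)
      refine ⟨max n k, fun x hx => ?_⟩
      rcases List.mem_cons.1 hx with rfl | hx
      · exact hm (le_max_right n k) hk
      · exact hm (le_max_left n k) (hn x hx)
  refine ⟨⋃ n, X n, (mk_iUnion_le _).trans (mul_le_of_le h0 (mk_nat.le.trans h0) (ciSup_le' hc)),
    fun l h y hy => ?_, fun M hM => iUnion_subset fun n => ?_⟩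
  · obtain ⟨n, hn⟩ := hl l h
    refine mem_iUnion.2 ⟨n + 1, ?_⟩
    rw [hX]
    exact ⟨l, hn, hy⟩
  · induction n with
    | zero =>
      rw [hX0]
      exact empty_subset _
    | succ n ih =>
      rw [hX]
      rintro y ⟨l, hl, hy⟩
      exact hM l (fun x hx => ih (hl x hx)) hy

theorem pr : PR_st := by
  intro P _ hP Y D p hD
  by_contra hn
  obtain ⟨q, hq, X, hX, h⟩ := hP Y {X | X.Countable ∧
      ¬ ∃ q ≤ p, ∀ l, (∀ x ∈ l, x ∈ X) → ∀ r ≤ q, ∃ s ≤ r, ∃ z ∈ X, D s l z}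
    (fun _ h => h.1) (fun F => by
      by_contra h
      refine hn ⟨F, fun X h1 h2 => ?_⟩
      by_contra h3
      exact h ⟨X, ⟨h1, h3⟩, h2⟩) D p hD
  exact hX.2 ⟨q, hq, h⟩

theorem om (h : HULL0_st) : OM_st := by
  intro P _ hP Y D p hD
  obtain ⟨q, hq, X, hX, h1⟩ := hP Y {X | X.Countable} (fun _ h => h) (fun F => by
      obtain ⟨X, a, b, -⟩ := h Y ℵ₀ (fun l => {F l}) le_rfl fun l => by simp
      exact ⟨X, le_aleph0_iff_set_countable.1 a, fun l hl => b l hl rfl⟩)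
    (fun q l y => D q l.length y) p ⟨fun q r a z => hD.mono q r _ z,
      fun q a z z' => hD.func q _ z z', fun q hq a => hD.tot q hq _⟩
  obtain ⟨-, -, z, hz, -⟩ := h1 [] (fun _ h => absurd h List.not_mem_nil) q le_rfl
  refine ⟨q, hq, X, hX, fun n r hr => ?_⟩
  have := h1 (List.replicate n z) (fun x hx => (List.eq_of_mem_replicate hx).symm ▸ hz) r hr
  rwa [List.length_replicate] at this

end

section


open Cardinal Set Pool.Agent.MP_e34318_lc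

theorem ub_Hull1 {K : Type} [LinearOrder K] (h : W1 K) {S : Set K} (hS : S.Countable) :
    ∃ i, ∀ j ∈ S, j < i := by
  by_contra hc
  push Not at hc
  have h1 : (⋃ j ∈ S, Iic j).Countable := hS.biUnion fun j _ => by
    rw [← Iio_insert]
    exact (h.1 j).insert j
  have h2 : (univ : Set K) ⊆ ⋃ j ∈ S, Iic j := fun i _ => by
    obtain ⟨j, hj, hi⟩ := hc i
    exact mem_biUnion hj hi
  have := h.2
  exact Set.not_countable_univ (h1.mono h2)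

theorem step_Hull1 {Y : Type} {μ : Cardinal.{0}} {G : Set Y → Set Y} (h0 : ℵ₀ ≤ μ)
    (hp : μ ^ ℵ₀ ≤ μ) (hG : ∀ b : Set Y, b.Countable → #(G b) ≤ μ) {U : Set Y} (hU : #U ≤ μ) :
    #(⋃ b ∈ {b : Set Y | b ⊆ U ∧ #b ≤ ℵ₀}, G b) ≤ μ := by
  have h1 : #{b : Set Y | b ⊆ U ∧ #b ≤ ℵ₀} ≤ μ :=
    (mk_bounded_subset_le U ℵ₀).trans
      ((power_le_power_right (max_le hU h0)).trans hp)
  refine (mk_biUnion_le _ _).trans ((mul_le_mul' h1 (ciSup_le' fun b => hG _ ?_)).trans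
    (mul_eq_self h0).le)
  exact le_aleph0_iff_set_countable.1 b.2.2

theorem hull1 : HULL1_st := by
  intro K _ _ hK Y μ G hμ hp hG
  have := hK.2
  have h0 : ℵ₀ ≤ μ := (aleph0_le_mk K).trans hμ
  let A : K → Set Y := (wellFounded_lt (α := K)).fix fun i f =>
    ⋃ b ∈ {b : Set Y | b ⊆ (⋃ j : Iio i, f j j.2) ∧ #b ≤ ℵ₀}, G b
  have hA : ∀ i, A i = ⋃ b ∈ {b : Set Y | b ⊆ (⋃ j : Iio i, A j) ∧ #b ≤ ℵ₀}, G b := fun i =>
    WellFounded.fix_eq _ _ i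
  have hc : ∀ i, #(A i) ≤ μ := fun i => by
    induction i using WellFoundedLT.induction with
    | ind i ih =>
      rw [hA]
      refine step_Hull1 h0 hp hG ((mk_iUnion_le _).trans ((mul_le_mul' ((mk_set_le _).trans hμ)
        (ciSup_le' fun j : Iio i => ih j j.2)).trans (mul_eq_self h0).le))
  refine ⟨⋃ i, A i, (mk_iUnion_le _).trans ((mul_le_mul' hμ (ciSup_le' hc)).trans
    (mul_eq_self h0).le), fun b hb hbc => ?_⟩
  choose! f hf using fun y (hy : y ∈ b) => mem_iUnion.1 (hb hy)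
  obtain ⟨i, hi⟩ := ub_Hull1 hK (hbc.image f)
  refine subset_iUnion_of_subset i ?_
  rw [hA]
  exact subset_biUnion_of_mem (u := G) (show b ∈ {b : Set Y | _} from
    ⟨fun y hy => mem_iUnion.2 ⟨⟨f y, hi _ (mem_image_of_mem f hy)⟩, hf y hy⟩,
      le_aleph0_iff_set_countable.2 hbc⟩)

theorem lad : LAD_st := by
  intro K _ hK
  have : ∀ d : K, ∃ l : ℕ → K, (∃ a, a < d) →
      Monotone l ∧ (∀ n, l n < d) ∧ ∀ a < d, ∃ n, a ≤ l n := fun d => by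
    by_cases h : ∃ a, a < d
    · obtain ⟨e, he⟩ := (hK.1 d).exists_eq_range h
      have h1 : ∀ n, e n < d := fun n => by
        have : e n ∈ Iio d := he ▸ mem_range_self n
        exact this
      refine ⟨fun n => (Finset.range (n + 1)).sup' (by simp) e, fun _ => ⟨fun m n hmn => ?_,
        fun n => (Finset.sup'_lt_iff _).2 fun j _ => h1 j, fun a ha => ?_⟩⟩
      · exact Finset.sup'_mono e (Finset.range_mono (by omega)) _
      · have : a ∈ range e := he ▸ ha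
        obtain ⟨n, rfl⟩ := this
        exact ⟨n, Finset.le_sup' e (Finset.self_mem_range_succ n)⟩
    · exact ⟨fun _ => d, fun k => absurd k h⟩
  choose l hl using this
  exact ⟨l, hl⟩

end

section


open Cardinal Set Pool.Agent.MP_e34318_lc

theorem recs : REC_st := by
  classical
  intro J V _ r hr ok R h
  let step : (j : J) → (J → V) → V := fun j g =>
    Classical.epsilon fun v => ok j v ∧ ∀ i, r i j → R j v i (g i)
  let F : (j : J) → ((i : J) → r i j → V) → V := fun j ih =>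
    step j fun i => if hi : r i j then ih i hi else Classical.arbitrary V
  let f : J → V := hr.fix F
  have hf : ∀ j, f j = step j fun i => if r i j then f i else Classical.arbitrary V := by
    intro j
    have := hr.fix_eq F j
    simpa [F, f] using this
  have key : ∀ j, (∀ i, r i j → ok i (f i)) →
      ok j (f j) ∧ ∀ i, r i j → R j (f j) i (f i) := by
    intro j hj
    have h1 := h j (fun i => if r i j then f i else Classical.arbitrary V)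
      (fun i hi => by simpa [hi] using hj i hi)
    have h2 := Classical.epsilon_spec h1
    rw [hf j]
    exact ⟨h2.1, fun i hi => by simpa [hi] using h2.2 i hi⟩
  have hok : ∀ j, ok j (f j) := fun j => hr.induction j fun j hj => (key j hj).1
  exact ⟨f, hok, fun i j hij => (key j fun i _ => hok i).2 i hij⟩

/-- The first player wins from the position with a rank at most the given ordinal. -/
inductive R_Game {Pos Mv : Type} (Ok : Pos → Mv → Prop) (Leg : Pos → Mv → Pos → Prop) :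
    Ordinal.{0} → Pos → Prop
  | mk (α : Ordinal.{0}) (x : Pos) (m : Mv) (β : Pos → Ordinal.{0}) (h₁ : Ok x m)
      (h₂ : ∀ y, Leg x m y → β y < α) (h₃ : ∀ y, Leg x m y → R_Game Ok Leg (β y) y) :
      R_Game Ok Leg α x

theorem game : GAME_st := by
  classical
  intro Pos Mv _ Ok Leg
  let rk : Pos → Ordinal.{0} := fun x => sInf {α | R_Game Ok Leg α x}
  let σ : Pos → Mv := fun x => Classical.epsilon fun m => Ok x m ∧
    ∀ y, Leg x m y → (∃ α, R_Game Ok Leg α y) ∧ rk y < rk x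
  have hσ : ∀ x, (∃ α, R_Game Ok Leg α x) → Ok x (σ x) ∧
      ∀ y, Leg x (σ x) y → (∃ α, R_Game Ok Leg α y) ∧ rk y < rk x := by
    intro x hx
    refine Classical.epsilon_spec (p := fun m => Ok x m ∧
      ∀ y, Leg x m y → (∃ α, R_Game Ok Leg α y) ∧ rk y < rk x) ?_
    have h0 : R_Game Ok Leg (rk x) x := csInf_mem (s := {α | R_Game Ok Leg α x}) hx
    generalize rk x = γ at h0
    obtain ⟨_, _, m, β, h₁, h₂, h₃⟩ := h0
    exact ⟨m, h₁, fun y hy => ⟨⟨_, h₃ y hy⟩,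
      lt_of_le_of_lt (csInf_le' (s := {α | R_Game Ok Leg α y}) (h₃ y hy)) (h₂ y hy)⟩⟩
  refine ⟨{x | ¬ ∃ α, R_Game Ok Leg α x}, σ, ?_, ?_, ?_⟩
  · intro x hx m hm
    by_contra hc
    have h1 : ∀ y, ∃ α, Leg x m y → R_Game Ok Leg α y := by
      intro y
      by_cases hy : Leg x m y
      · by_contra h2
        exact hc ⟨y, fun ⟨α, hα⟩ => h2 ⟨α, fun _ => hα⟩, hy⟩
      · exact ⟨0, fun h => absurd h hy⟩
    choose β hβ using h1
    exact hx ⟨⨆ y, Order.succ (β y), R_Game.mk _ x m β hm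
      (fun y _ => Order.succ_le_iff.1 (Ordinal.le_iSup (fun y => Order.succ (β y)) y)) hβ⟩
  · intro x hx
    have hx' := not_not.1 hx
    exact ⟨(hσ x hx').1, fun y hy => not_not.2 ((hσ x hx').2 y hy).1⟩
  · intro s h0 hs
    have h1 : ∀ n, ∃ α, R_Game Ok Leg α (s n) := by
      intro n
      induction n with
      | zero => exact not_not.1 h0
      | succ n ih => exact ((hσ _ ih).2 _ (hs n)).1
    obtain ⟨_, ⟨n, rfl⟩, hn⟩ := (wellFounded_lt (α := Ordinal.{0})).has_min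
      (range fun n => rk (s n)) (range_nonempty _)
    exact hn _ ⟨n + 1, rfl⟩ ((hσ _ (h1 n)).2 _ (hs n)).2

end

section


open Cardinal Set Pool.Agent.MP_e34318_lc

theorem be (h : REC_st) : BE_st := by
  classical
  intro Ω Pat Br B c hc hcB hP hB hd
  have h0 : ℵ₀ ≤ #Br := hc.trans hcB.le
  have : Nonempty Br := mk_ne_zero_iff.1 (aleph0_pos.trans_le h0).ne'
  have hJ : #(Pat × Bool) ≤ #(#Br).ord.ToType := by
    rw [mk_ord_toType, mk_prod, lift_id, lift_id]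
    exact (mul_le_mul' hP (mk_le_aleph0.trans h0)).trans (mul_eq_self h0).le
  obtain ⟨e⟩ := (le_def _ _).1 hJ
  obtain ⟨f, -, hf⟩ := h (Pat × Bool) Br (fun i j => e i < e j) (InvImage.wf e wellFounded_lt)
    (fun _ _ => True) (fun j A i A' => Disjoint (B j.1 A) (B i.1 A')) fun j f _ => by
      by_contra hn
      have k : ∀ A, ∃ x : (⋃ i : e ⁻¹' Iio (e j), B i.1.1 (f i) : Set Ω), x.1 ∈ B j.1 A := by
        intro A
        by_contra hA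
        exact hn ⟨A, trivial, fun i hi => disjoint_left.2 fun x hx hx' =>
          hA ⟨⟨x, mem_iUnion.2 ⟨⟨i, hi⟩, hx'⟩⟩, hx⟩⟩
      choose g hg using k
      have h1 := mk_le_of_injective (f := g) fun A A' e => by_contra fun hne =>
        disjoint_left.1 (hd j.1 A A' hne) (hg A) (e ▸ hg A')
      refine (h1.trans (mk_iUnion_le _)).not_gt (mul_lt_of_lt h0 ?_ ?_)
      · exact (mk_preimage_of_injective e _ e.injective).trans_lt (by simpa using mk_Iio_lt (e j))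
      · exact (ciSup_le' fun i => hB _ _).trans_lt hcB
  refine ⟨fun x => decide (∃ π, x ∈ B π (f (π, true))), fun π b => ⟨f (π, b), fun x hx => ?_⟩⟩
  cases b
  · refine decide_eq_false fun ⟨ρ, hρ⟩ => ?_
    rcases lt_trichotomy (e (π, false)) (e (ρ, true)) with k | k | k
    · exact disjoint_left.1 (hf _ _ k) hρ hx
    · exact absurd (congrArg Prod.snd (e.injective k)) Bool.false_ne_true
    · exact disjoint_left.1 (hf _ _ k) hx hρ
  · exact decide_eq_true ⟨π, hx⟩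

end

section


open Cardinal Set Pool.Agent.MP_e34318_lc

lemma un_Tree {Y ι : Type} {μ : Cardinal.{0}} (hι : #ι ≤ μ) (hμ : ℵ₀ ≤ μ) (g : ι → Set Y)
    (hg : ∀ i, (g i).Countable) : #(⋃ i, g i) ≤ μ := by
  refine mk_iUnion_le_sum_mk.trans ((sum_le_sum _ (fun _ => ℵ₀) fun i =>
    le_aleph0_iff_set_countable.2 (hg i)).trans ?_)
  rw [sum_const']
  exact (mul_le_mul' hι hμ).trans (mul_eq_self hμ).le

lemma lev_Tree (h : REC_st) {Y J : Type} {μ : Cardinal.{0}} (hJ : #J ≤ μ) (hμ : ℵ₀ ≤ μ)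
    (pos : J → Set Y) (hp : ∀ j, (pos j).Countable) (Good : J → Set Y → Prop)
    (H : ∀ (j : J) (U : Set Y), #U ≤ μ → ∃ b, b.Countable ∧ Good j b ∧ b ∩ U ⊆ pos j) :
    ∃ ch : J → Set Y, (∀ j, Good j (ch j)) ∧ ∀ j j', j ≠ j' → ch j ∩ ch j' ⊆ pos j ∩ pos j' := by
  obtain ⟨f, h1, h2⟩ := h J (Set Y) WellOrderingRel (IsWellFounded.wf)
    (fun j b => b.Countable ∧ Good j b ∧ b ∩ (⋃ i, pos i) ⊆ pos j)
    (fun j v _ w => v ∩ w ⊆ pos j) fun j f hf => by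
      obtain ⟨b, b1, b2, b3⟩ := H j ((⋃ i, pos i) ∪ ⋃ i : {i // WellOrderingRel i j}, f i)
        ((mk_union_le _ _).trans (add_le_of_le hμ (un_Tree hJ hμ _ hp)
          (un_Tree ((mk_subtype_le _).trans hJ) hμ _ fun i => (hf i i.2).1)))
      exact ⟨b, ⟨b1, b2, fun x hx => b3 ⟨hx.1, Or.inl hx.2⟩⟩, fun i hi x hx =>
        b3 ⟨hx.1, Or.inr (mem_iUnion.2 ⟨⟨i, hi⟩, hx.2⟩)⟩⟩
  have k : ∀ i j, WellOrderingRel i j → f j ∩ f i ⊆ pos j ∩ pos i := fun i j r x hx =>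
    ⟨h2 i j r hx, (h1 i).2.2 ⟨hx.2, mem_iUnion.2 ⟨j, h2 i j r hx⟩⟩⟩
  refine ⟨f, fun j => (h1 j).2.1, fun j j' ne => ?_⟩
  rcases trichotomous_of WellOrderingRel j j' with r | r | r
  · exact fun x hx => (k j j' r hx.symm).symm
  · exact absurd r ne
  · exact k j' j r

theorem tree (h : REC_st) : TREE_st := by
  classical
  intro Y T V par m W R hpar hm h0 hc hW
  obtain ⟨b0, hb0⟩ := h0
  have step : ∀ (n : ℕ) (a : T → Set Y), (∀ t ∈ V n, W n (a t)) → ∃ a' : T → Set Y,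
      (∀ t ∈ V (n + 1), W (n + 1) (a' t) ∧ R n (a (par n t)) (a' t) ∧ a (par n t) ⊆ a' t) ∧
      ∀ t ∈ V (n + 1), ∀ t' ∈ V (n + 1), t ≠ t' → a' t ∩ a' t' ⊆ a (par n t) ∩ a (par n t') := by
    intro n a ha
    obtain ⟨ch, c1, c2⟩ := lev_Tree h (J := V (n + 1)) (hm n).2 (hm n).1 (fun t => a (par n t))
      (fun t => hc n _ (ha _ (hpar n t t.2)))
      (fun t b => W (n + 1) b ∧ R n (a (par n t)) b ∧ a (par n t) ⊆ b) fun t U hU => by
        obtain ⟨b, b1, b2, b3, b4⟩ := hW n _ (ha _ (hpar n t t.2)) U hU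
        exact ⟨b, hc _ b b1, ⟨b1, b2, b3⟩, b4⟩
    refine ⟨fun t => if ht : t ∈ V (n + 1) then ch ⟨t, ht⟩ else ∅, fun t ht => ?_,
      fun t ht t' ht' ne => ?_⟩
    · simp only [dif_pos ht]
      exact c1 ⟨t, ht⟩
    · simp only [dif_pos ht, dif_pos ht']
      exact c2 ⟨t, ht⟩ ⟨t', ht'⟩ fun e => ne (congrArg Subtype.val e)
  choose! st s1 s2 using step
  obtain ⟨a, a0, aS⟩ : ∃ a : ℕ → T → Set Y, a 0 = (fun _ => b0) ∧ ∀ n, a (n + 1) = st n (a n) :=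
    ⟨fun n => Nat.rec (fun _ => b0) st n, rfl, fun _ => rfl⟩
  have hw : ∀ n, ∀ t ∈ V n, W n (a n t) := fun n => by
    induction n with
    | zero => exact fun t _ => by rw [a0]; exact hb0
    | succ n ih => exact fun t ht => by rw [aS]; exact (s1 n _ ih t ht).1
  have hr : ∀ n, ∀ t ∈ V (n + 1),
      R n (a n (par n t)) (a (n + 1) t) ∧ a n (par n t) ⊆ a (n + 1) t := fun n t ht => by
    rw [aS]
    exact (s1 n _ (hw n) t ht).2
  refine ⟨a, hw, hr, fun u v huv ne => ?_⟩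
  obtain ⟨n, hn⟩ := Function.ne_iff.1 ne
  have nx : ∀ k, u k ≠ v k → u (k + 1) ≠ v (k + 1) := fun k hk e =>
    hk (by rw [← (huv k).2.2.1, e, (huv k).2.2.2])
  have key : ∀ k, n ≤ k → u k ≠ v k ∧ a k (u k) ∩ a k (v k) ⊆ a n (u n) := fun k hk => by
    induction k, hk using Nat.le_induction with
    | base => exact ⟨hn, inter_subset_left⟩
    | succ k _ ih =>
      refine ⟨nx k ih.1, Subset.trans ?_ ih.2⟩
      have := s2 k _ (hw k) _ (huv (k + 1)).1 _ (huv (k + 1)).2.1 (nx k ih.1)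
      rwa [← aS, (huv k).2.2.1, (huv k).2.2.2] at this
  have mu : Monotone fun k => a k (u k) := monotone_nat_of_le_succ fun k => by
    have := (hr k _ (huv (k + 1)).1).2
    rwa [(huv k).2.2.1] at this
  have mv : Monotone fun k => a k (v k) := monotone_nat_of_le_succ fun k => by
    have := (hr k _ (huv (k + 1)).2.1).2
    rwa [(huv k).2.2.2] at this
  refine ⟨n, fun x hx => ?_⟩
  obtain ⟨i, hi⟩ := mem_iUnion.1 hx.1
  obtain ⟨j, hj⟩ := mem_iUnion.1 hx.2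
  exact (key (n + i + j) (by omega)).2
    ⟨mu (show i ≤ n + i + j by omega) hi, mv (show j ≤ n + i + j by omega) hj⟩

end

section


open Cardinal Set Pool.Agent.MP_e34318_lc

/-- nodes of the tree of subsets -/
abbrev Nd_Col {Z : Type} (L : ℕ → Set Z) : Type := Σ n : ℕ, (𝒫 (L n) : Set (Set Z))

/-- the node of level `k` on the branch of `A` -/
def br_Col {Z : Type} (L : ℕ → Set Z) (A : Set Z) (k : ℕ) : Nd_Col L :=
  ⟨k, ⟨A ∩ L k, inter_subset_right⟩⟩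

/-- sets that are new along the branch of `A` -/
def B_Col {Z : Type} (L : ℕ → Set Z) (ρ : Nd_Col L → (𝒫 (⋃ n, L n) : Set (Set Z)))
    (A : (𝒫 (⋃ n, L n) : Set (Set Z))) : Set (Set Z) :=
  {x | x ⊆ ⋃ k, (ρ (br_Col L A k) : Set Z) ∧ ∀ n, ¬ x ⊆ (ρ (br_Col L A n) : Set Z)}

theorem col (h : BE_st) : COL_st := by
  intro Z L _ hc hL
  have h0 : ℵ₀ ≤ #(⋃ n, L n) := aleph0_le_continuum.trans hc
  have hN : #(Nd_Col L) ≤ #(⋃ n, L n) := by
    rw [mk_sigma]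
    refine (sum_le_sum _ (fun _ : ℕ => #(⋃ n, L n)) fun n => ?_).trans ?_
    · rw [mk_powerset]
      exact hL n
    · rw [sum_const', mk_nat, aleph0_mul_eq h0]
  obtain ⟨c, hcol⟩ := h (Set Z)
    {ρ : Nd_Col L → (𝒫 (⋃ n, L n) : Set (Set Z)) // (∀ s, (ρ s : Set Z).Countable) ∧
      ∀ A A', A ≠ A' → Disjoint (B_Col L ρ A) (B_Col L ρ A')}
    (𝒫 (⋃ n, L n) : Set (Set Z)) (fun ρ A => B_Col L ρ.1 A) 𝔠 aleph0_le_continuum
    (by
      rw [mk_powerset]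
      exact hc.trans_lt (cantor _))
    (by
      refine (mk_subtype_le _).trans ?_
      rw [← power_def, mk_powerset, ← power_mul]
      refine power_le_power_left two_ne_zero ?_
      exact (mul_le_mul_right hN _).trans (mul_eq_self h0).le)
    (fun ρ A => by
      refine (mk_le_mk_of_subset (t := 𝒫 ⋃ k, (ρ.1 (br_Col L A k) : Set Z))
        fun x hx => hx.1).trans ?_
      rw [mk_powerset, ← two_power_aleph0]
      exact power_le_power_left two_ne_zero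
        (le_aleph0_iff_set_countable.2 (countable_iUnion fun k => ρ.2.1 _)))
    (fun ρ => ρ.2.2)
  refine ⟨c, fun π h1 h2 b => ?_⟩
  obtain ⟨A, hA⟩ := hcol ⟨fun s => ⟨π s.1 s.2, (h1 s.1 s.2 s.2.2).2⟩,
    fun s => (h1 s.1 s.2 s.2.2).1, fun A A' hne => by
      obtain ⟨n, hn⟩ := h2 A A.2 A' A'.2 (fun e => hne (Subtype.ext e))
      exact disjoint_left.2 fun x hx hx' => hx.2 n ((subset_inter hx.1 hx'.1).trans hn)⟩ b
  exact ⟨A, A.2, fun x hx hx' => hA x ⟨hx, hx'⟩⟩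

end

section


open Cardinal Set Pool.Agent.MP_e34318_lc

theorem un_Win {I Y : Type} (f : I → Set Y) {μ : Cardinal.{0}} (h0 : ℵ₀ ≤ μ) (h1 : #I ≤ μ)
    (h2 : ∀ i, #(f i) ≤ μ) : #(⋃ i, f i) ≤ μ :=
  mk_iUnion_le_sum_mk.trans ((sum_le_sum _ (fun _ => μ) h2).trans (by
    rw [sum_const']
    exact (mul_le_mul' h1 le_rfl).trans (mul_eq_self h0).le))

theorem uu_Win {Y : Type} {s t : Set Y} {μ : Cardinal.{0}} (h0 : ℵ₀ ≤ μ) (h1 : #s ≤ μ)
    (h2 : #t ≤ μ) : #(s ∪ t : Set Y) ≤ μ :=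
  (mk_union_le s t).trans (add_le_of_le h0 h1 h2)

theorem step_Win (h1 : HULL1_st) {K : Type} [LinearOrder K] [WellFoundedLT K] (hK : W1 K)
    {Y : Type} (ι : K → Y) (G : List Y → Set Y) (hG : ∀ l, (G l).Countable)
    (σ : K × ℕ × Set Y → Set Y) {μ : Cardinal.{0}} (m1 : #K ≤ μ) (m2 : μ ^ ℵ₀ ≤ μ)
    (A : Set Y) (c : Y) (hA : #A ≤ μ) : ∃ N : Set Y, #N ≤ μ ∧ A ⊆ N ∧ c ∈ N ∧ range ι ⊆ N ∧
      (∀ l, (∀ x ∈ l, x ∈ N) → G l ⊆ N) ∧
      ∀ d n, ∀ b ⊆ N, b.Countable → #(σ (d, n, b)) ≤ μ → σ (d, n, b) ⊆ N := by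
  have := hK.2
  have m0 : ℵ₀ ≤ μ := (aleph0_le_mk K).trans m1
  obtain ⟨N, n1, n2⟩ := h1 K hK Y μ (fun b => A ∪ {c} ∪ range ι ∪
    (⋃ l : List b, G (l.map Subtype.val)) ∪
    ⋃ p : K × ℕ, {y | #(σ (p.1, p.2, b)) ≤ μ ∧ y ∈ σ (p.1, p.2, b)}) m1 m2 fun b hb => by
      have := hb.to_subtype
      refine uu_Win m0 (uu_Win m0 (uu_Win m0 (uu_Win m0 hA ?_) (mk_range_le.trans m1)) ?_)
        (un_Win _ m0 ?_ fun p => ?_)
      · exact (countable_singleton c).le_aleph0.trans m0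
      · exact (countable_iUnion fun l => hG _).le_aleph0.trans m0
      · rw [mk_prod, lift_id, lift_id, mk_nat]
        exact (mul_le_mul' m1 m0).trans (mul_eq_self m0).le
      · by_cases h : #(σ (p.1, p.2, b)) ≤ μ
        · exact (mk_le_mk_of_subset fun y hy => hy.2).trans h
        · exact (mk_le_mk_of_subset (t := ∅) fun y hy => absurd hy.1 h).trans (by simp)
  have e := n2 ∅ (empty_subset _) countable_empty
  refine ⟨N, n1, fun y hy => e (.inl (.inl (.inl (.inl hy)))),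
    e (.inl (.inl (.inl (.inr rfl)))), fun y hy => e (.inl (.inl (.inr hy))), fun l hl y hy => ?_,
    fun d n b hb hc h y hy => n2 b hb hc (.inr (mem_iUnion.2 ⟨(d, n), h, hy⟩))⟩
  refine n2 {x | x ∈ l} hl l.finite_toSet.countable (.inl (.inr (mem_iUnion.2
    ⟨l.attachWith _ fun _ h => h, ?_⟩)))
  rw [List.attachWith_map_subtype_val]
  exact hy

theorem win (h0 : HULL0_st) (h1 : HULL1_st) (hg : GAME_st) : WIN_st := by
  intro K _ _ hK lad hl Y ι cd μ j G hι hμ hm hG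
  have := hK.2
  obtain ⟨Good, hGood⟩ : ∃ Good : K → Set Y → Prop, ∀ d b, Good d b ↔ (b.Countable ∧
    (∀ l, (∀ x ∈ l, x ∈ b) → G l ⊆ b) ∧ ∀ a, ι a ∈ b ↔ a < d) := ⟨_, fun _ _ => Iff.rfl⟩
  obtain ⟨W, σ, c1, c2, c3⟩ := hg (K × ℕ × Set Y) (Set Y) (fun x U => #U ≤ μ (lad x.1 x.2.1))
    (fun x U y => y.1 = x.1 ∧ y.2.1 = x.2.1 + 1 ∧ Good x.1 y.2.2 ∧
      (∃ N : Set Y, x.2.2 ⊆ N ∧ #N ≤ μ (lad x.1 x.2.1) ∧ cd N ∈ y.2.2) ∧ x.2.2 ⊆ y.2.2 ∧
      y.2.2 ∩ U ⊆ x.2.2)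
  choose! St hSt using fun (i : K) (A : Set Y) =>
    step_Win h1 hK ι G hG σ (hm i).1 (hm i).2 A (cd A)
  obtain ⟨a0⟩ : Nonempty K := inferInstance
  obtain ⟨M, M1, M2, -⟩ := h0 Y ℵ₀ (fun l => G l ∪ {ι a0} ∪
    (fun l0 : List K => cd (l0.foldr St ∅)) '' {l0 | l0.map ι = l} ∪
    ⋃ a ∈ {a | ι a ∈ l}, ({ι (j a)} ∪ ι '' Iio a)) le_rfl fun l => by
      refine Set.Countable.le_aleph0 ((((hG l).union (countable_singleton _)).union
        (Set.Countable.image (Set.Subsingleton.countable fun x hx y hy => ?_) _)).union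
        (Set.Countable.biUnion (l.finite_toSet.preimage hι.injOn).countable fun a _ =>
          (countable_singleton _).union ((hK.1 a).image _)))
      exact List.map_injective_iff.2 hι (hx.trans hy.symm)
  rw [le_aleph0_iff_set_countable] at M1
  have M3 : ∀ a, ι a ∈ M → {ι (j a)} ∪ ι '' Iio a ⊆ M := fun a ha y hy =>
    M2 [ι a] (by simpa using ha) (.inr (mem_biUnion (x := a) (by simp) hy))
  have hne : {a | ι a ∉ M}.Nonempty := by
    by_contra hc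
    refine not_countable_univ (α := K) ((M1.preimage_of_injOn hι.injOn).mono fun a _ => ?_)
    by_contra h
    exact hc ⟨a, h⟩
  obtain ⟨d, d1, d2⟩ := wellFounded_lt.has_min _ hne
  have hd : ∀ a, ι a ∈ M ↔ a < d := fun a =>
    ⟨fun h => lt_of_not_ge fun h' => d1 (h'.eq_or_lt.elim (fun e => e ▸ h)
      fun e => M3 a h (.inr ⟨d, e, rfl⟩)), fun h => by_contra fun h' => d2 a h' h⟩
  have ha0 : ∃ a, a < d := ⟨a0, (hd a0).1 (M2 [] (by simp) (.inl (.inl (.inr rfl))))⟩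
  obtain ⟨l1, l2, -⟩ := hl d ha0
  obtain ⟨ls, ls0, ls1⟩ : ∃ ls : ℕ → List K, ls 0 = [] ∧ ∀ n, ls (n + 1) = lad d n :: ls n :=
    ⟨fun n => Nat.rec [] (fun n l => lad d n :: l) n, rfl, fun _ => rfl⟩
  obtain ⟨A, hA⟩ : ∃ A : ℕ → Set Y, ∀ n, A n = (ls n).foldr St ∅ := ⟨_, fun _ => rfl⟩
  have A1 : ∀ n, A (n + 1) = St (lad d n) (A n) := fun n => by rw [hA, hA, ls1, List.foldr_cons]
  have A2 : ∀ n, #(A n) ≤ μ (lad d n) := fun n => by
    induction n with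
    | zero => simp [hA, ls0]
    | succ n ih => exact A1 n ▸ (hSt _ _ ih).1.trans (hμ (l1 n.le_succ))
  have A3 := fun n => hSt _ _ (A2 n)
  simp only [← A1] at A3
  have A4 : ∀ n, ∀ a ∈ ls n, a < d := fun n => by
    induction n with
    | zero => simp [ls0]
    | succ n ih =>
      rw [ls1]
      exact List.forall_mem_cons.2 ⟨l2 n, ih⟩
  have A5 : ∀ n, cd (A n) ∈ M := fun n =>
    M2 ((ls n).map ι) (List.forall_mem_map.2 fun a ha => (hd a).2 (A4 n a ha))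
      (.inl (.inr ⟨ls n, rfl, by rw [hA]⟩))
  have B1 : ∀ n, Good d (M ∩ A (n + 1)) := fun n => (hGood _ _).2 ⟨M1.mono inter_subset_left,
    fun l h => subset_inter (fun y hy => M2 l (fun x hx => (h x hx).1) (.inl (.inl (.inl hy))))
      ((A3 n).2.2.2.2.1 l fun x hx => (h x hx).2),
    fun a => ⟨fun h => (hd a).1 h.1, fun h => ⟨(hd a).2 h, (A3 n).2.2.2.1 ⟨a, rfl⟩⟩⟩⟩
  have hW : (d, 0, M ∩ A 1) ∈ W := by
    by_contra hW
    have B2 := fun (n : ℕ) (h : (d, n, M ∩ A (n + 1)) ∉ W) =>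
      (⟨rfl, rfl, B1 (n + 1), ⟨A (n + 1), inter_subset_right, (A3 n).1, A5 _, (A3 (n + 1)).2.2.1⟩,
        inter_subset_inter_right _ (A3 (n + 1)).2.1, fun y hy => ⟨hy.1.1,
          (A3 n).2.2.2.2.2 d n _ inter_subset_right (M1.mono inter_subset_left) (c2 _ h).1 hy.2⟩⟩ :
        d = d ∧ n + 1 = n + 1 ∧ Good d (M ∩ A (n + 1 + 1)) ∧
          (∃ N : Set Y, M ∩ A (n + 1) ⊆ N ∧ #N ≤ μ (lad d n) ∧ cd N ∈ M ∩ A (n + 1 + 1)) ∧
          M ∩ A (n + 1) ⊆ M ∩ A (n + 1 + 1) ∧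
          M ∩ A (n + 1 + 1) ∩ σ (d, n, M ∩ A (n + 1)) ⊆ M ∩ A (n + 1))
    have B3 : ∀ n, (d, n, M ∩ A (n + 1)) ∉ W := fun n => by
      induction n with
      | zero => exact hW
      | succ n ih => exact (c2 _ ih).2 (d, n + 1, M ∩ A (n + 1 + 1)) (B2 n ih)
    exact c3 (fun n => (d, n, M ∩ A (n + 1))) hW fun n => B2 n (B3 n)
  refine ⟨d, fun n b => (d, n, b) ∈ W ∧ Good d b, ha0,
    fun a ha => (hd _).1 (M3 a ((hd a).2 ha) (.inl rfl)), ⟨_, hW, B1 0⟩,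
    fun n b h => ⟨(hGood _ _).1 h.2, fun U hU => ?_⟩⟩
  obtain ⟨⟨d', n', b'⟩, y1, e1, e2, y2, y3, y4, y5⟩ := c1 _ h.1 U hU
  have e3 : d' = d := e1
  have e4 : n' = n + 1 := e2
  rw [e3, e4] at y1
  exact ⟨b', ⟨y1, y2⟩, y3, y4, y5⟩

end

section


open Cardinal Set Pool.Agent.MP_e34318_lc

theorem big_Sing {K Z : Type} (L : K → Set Z) (cov : ∀ z, ∃ i, z ∈ L i) (h0 : ℵ₀ ≤ #Z)
    (hK : #K < #Z) {c : Cardinal.{0}} (hc : c < #Z) : ∃ i, c ≤ #(L i) := by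
  by_contra h
  push Not at h
  have e : (⋃ i, L i) = Set.univ := eq_univ_of_forall fun z => mem_iUnion.2 (cov z)
  have h1 := mk_iUnion_le L
  rw [e, mk_univ] at h1
  exact (h1.trans (mul_le_mul_right (ciSup_le' fun i => (h i).le) _)).not_gt (mul_lt_of_lt h0 hK hc)

theorem list_Sing {Y : Type} {c : ℕ → Set Y} (hc : Monotone c) (l : List Y)
    (h : ∀ x ∈ l, x ∈ ⋃ k, c k) : ∃ k, ∀ x ∈ l, x ∈ c k := by
  induction l with
  | nil => exact ⟨0, fun x hx => absurd hx List.not_mem_nil⟩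
  | cons y l ih =>
    obtain ⟨k, hk⟩ := ih fun x hx => h x (List.mem_cons_of_mem y hx)
    obtain ⟨m, hm⟩ := mem_iUnion.1 (h y List.mem_cons_self)
    refine ⟨max k m, fun x hx => ?_⟩
    rcases List.mem_cons.1 hx with rfl | hx
    · exact hc (le_max_right k m) hm
    · exact hc (le_max_left k m) (hk x hx)

theorem sing (hl : LAD_st) (hw : WIN_st) (ht : TREE_st) (hc : COL_st) : SING_st := by
  intro K _ _ hK Z L mono cov small sl KZ
  classical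
  obtain ⟨lad, hlad⟩ := hl K hK
  have := hK.2
  have K0 : ℵ₀ < #K := aleph0_lt_mk
  have Z0 : ℵ₀ < #Z := K0.trans KZ
  obtain ⟨L', L0, L1⟩ : ∃ L' : K → ℕ → Set Z, (∀ d, L' d 0 = ∅) ∧
      ∀ d n, L' d (n + 1) = L (lad d n) :=
    ⟨fun d n => Nat.casesOn n ∅ fun n => L (lad d n), fun _ => rfl, fun _ _ => rfl⟩
  have hcol := fun d => (Classical.skolem (p := fun (_ : Monotone (L' d) ∧ 𝔠 ≤ #(⋃ n, L' d n) ∧
    ∀ n, 2 ^ #(L' d n) ≤ #(⋃ n, L' d n)) col => _)).1 fun h => hc Z (L' d) h.1 h.2.1 h.2.2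
  choose col hcol using hcol
  obtain ⟨μ, hμ⟩ : ∃ μ : K → Cardinal.{0}, ∀ i, μ i = 2 ^ max #(L i) #K := ⟨_, fun _ => rfl⟩
  have μ0 : ∀ i, #K ≤ μ i := fun i => by
    rw [hμ]; exact (le_max_right _ _).trans (cantor _).le
  have μ1 : ∀ i, μ i < #Z := fun i => by
    rw [hμ]; exact sl.isStrongPrelimit (max_lt (small i) KZ)
  choose j hj using fun i => big_Sing L cov Z0.le KZ (c := max (2 ^ #(L i)) 𝔠)
    (max_lt (sl.isStrongPrelimit (small i)) (two_power_aleph0 ▸ sl.isStrongPrelimit Z0))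
  choose h hh using cov
  have iζ : Function.Injective (fun z => Sum.inr (Sum.inl z) : Z → K ⊕ (Z ⊕ Set Z)) :=
    Sum.inr_injective.comp Sum.inl_injective
  refine ⟨K ⊕ (Z ⊕ Set Z), Sum.inl, fun z => Sum.inr (Sum.inl z),
    Sum.elim (fun _ => ∅) (Sum.elim (fun _ => ∅) fun N => if #N < #Z then N else ∅),
    fun d => if H : _ then col d H else fun _ => true, Sum.inl_injective, iζ, ?_, fun F => ?_⟩
  · have e : #(∅ : Set Z) < #Z := by rw [mk_eq_zero]; exact aleph0_pos.trans Z0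
    rintro (y | y | N)
    · exact e
    · exact e
    · change #(if #N < #Z then N else ∅ : Set Z) < #Z
      split_ifs with hN
      · exact hN
      · exact e
  obtain ⟨d, W, d0, dj, W0, hW⟩ := hw K hK lad hlad (K ⊕ (Z ⊕ Set Z)) Sum.inl
    (fun N => Sum.inr (Sum.inr {z | Sum.inr (Sum.inl z) ∈ N})) μ j
    (fun l => insert (F l) ((fun z => Sum.inl (h z)) '' {z | Sum.inr (Sum.inl z) ∈ l}))
    Sum.inl_injective
    (fun i i' hi => by
      rw [hμ, hμ]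
      exact power_le_power_left two_ne_zero (max_le_max (mk_le_mk_of_subset (mono hi)) le_rfl))
    (fun i => ⟨μ0 i, by
      rw [hμ, ← power_mul, mul_aleph0_eq (K0.le.trans (le_max_right _ _))]⟩)
    fun l => ((l.finite_toSet.countable.preimage iζ).image _).insert _
  obtain ⟨l1, l2, l3⟩ := hlad d d0
  have m1 : ∀ n, L' d n ⊆ L' d (n + 1) := fun n => by
    cases n with
    | zero => rw [L0]; exact empty_subset _
    | succ n => rw [L1, L1]; exact mono (l1 n.le_succ)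
  have key : ∀ a < d, L a ⊆ ⋃ n, L' d n := fun a ha => by
    obtain ⟨n, hn⟩ := l3 a ha
    exact (mono hn).trans (L1 d n ▸ subset_iUnion (L' d) (n + 1))
  have H : Monotone (L' d) ∧ 𝔠 ≤ #(⋃ n, L' d n) ∧ ∀ n, 2 ^ #(L' d n) ≤ #(⋃ n, L' d n) := by
    refine ⟨monotone_nat_of_le_succ m1, ?_, fun n => ?_⟩
    · obtain ⟨a, ha⟩ := d0
      exact ((le_max_right _ _).trans (hj a)).trans (mk_le_mk_of_subset (key _ (dj a ha)))
    · refine (power_le_power_left two_ne_zero (mk_le_mk_of_subset (L1 d n ▸ m1 n))).trans ?_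
      exact ((le_max_left _ _).trans (hj _)).trans (mk_le_mk_of_subset (key _ (dj _ (l2 n))))
  obtain ⟨a, a1, a2, a3⟩ := ht (K ⊕ (Z ⊕ Set Z)) (Set Z) (fun n => 𝒫 (L' d n))
    (fun n B => B ∩ L' d n) (fun n => μ (lad d n)) W
    (fun n b b' => ∃ N : Set (K ⊕ (Z ⊕ Set Z)), b ⊆ N ∧ #N ≤ μ (lad d n) ∧
      Sum.inr (Sum.inr {z | Sum.inr (Sum.inl z) ∈ N}) ∈ b')
    (fun _ _ _ => inter_subset_right)
    (fun n => ⟨K0.le.trans (μ0 _), by
      rw [mk_powerset, L1, hμ]; exact power_le_power_left two_ne_zero (le_max_left _ _)⟩)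
    W0 (fun n b hb => (hW n b hb).1.1) fun n b hb => (hW n b hb).2
  have par : ∀ (A : Set Z) n, A ∩ L' d (n + 1) ∩ L' d n = A ∩ L' d n := fun A n => by
    rw [inter_assoc, inter_eq_right.2 (m1 n)]
  refine ⟨d, fun b => ?_⟩
  obtain ⟨A, -, hA⟩ := hcol d H (fun n A => {z | Sum.inr (Sum.inl z) ∈ a n A})
    (fun n A hA => ⟨(hW n _ (a1 n A hA)).1.1.preimage iζ, fun z hz => by
      obtain ⟨⟨-, w1, w2⟩, -⟩ := hW n _ (a1 n A hA)
      refine key _ ((w2 (h z)).1 (w1 [Sum.inr (Sum.inl z)] (fun x hx => ?_) ?_)) (hh z)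
      · rw [List.mem_singleton.1 hx]; exact hz
      · exact Or.inr ⟨z, List.mem_singleton.2 rfl, rfl⟩⟩)
    (fun A hA A' hA' ne => by
      obtain ⟨n, hn⟩ := a3 (fun n => A ∩ L' d n) (fun n => A' ∩ L' d n)
        (fun n => ⟨inter_subset_right, inter_subset_right, par A n, par A' n⟩) fun e => ne (by
          rw [← inter_eq_left.2 hA, ← inter_eq_left.2 hA', inter_iUnion, inter_iUnion]
          exact congrArg iUnion e)
      refine ⟨n, fun z hz => hn ⟨?_, ?_⟩⟩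
      · obtain ⟨k, hk⟩ := mem_iUnion.1 hz.1
        exact mem_iUnion.2 ⟨k, hk⟩
      · obtain ⟨k, hk⟩ := mem_iUnion.1 hz.2
        exact mem_iUnion.2 ⟨k, hk⟩) b
  have c1 := fun k => hW k _ (a1 k (A ∩ L' d k) inter_subset_right)
  have c2 := fun k => a2 k (A ∩ L' d (k + 1)) inter_subset_right
  simp only [par] at c2
  refine ⟨⋃ k, a k (A ∩ L' d k), countable_iUnion fun k => (c1 k).1.1, fun l hl => ?_,
    fun i => ⟨fun hi => ?_, fun hi => mem_iUnion.2 ⟨0, ((c1 0).1.2.2 i).2 hi⟩⟩,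
    fun x x1 x2 => ?_⟩
  · obtain ⟨k, hk⟩ := list_Sing (monotone_nat_of_le_succ fun k => (c2 k).2) l hl
    exact mem_iUnion.2 ⟨k, (c1 k).1.2.1 l hk (mem_insert _ _)⟩
  · obtain ⟨k, hk⟩ := mem_iUnion.1 hi
    exact ((c1 k).1.2.2 i).1 hk
  · beta_reduce
    rw [dif_pos H]
    refine hA x (fun z hz => ?_) fun n hn => ?_
    · obtain ⟨k, hk⟩ := mem_iUnion.1 (x1 z hz)
      exact mem_iUnion.2 ⟨k, hk⟩
    · obtain ⟨N, n1, n2, n3⟩ := (c2 n).1
      refine x2 _ (mem_iUnion.2 ⟨n + 1, n3⟩) ?_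
      have s : #{z : Z | (Sum.inr (Sum.inl z) : K ⊕ (Z ⊕ Set Z)) ∈ N} < #Z :=
        ((mk_preimage_of_injective _ N iζ).trans n2).trans_lt (μ1 _)
      simp only [Sum.elim_inr]
      rw [if_pos s]
      exact fun z hz => n1 (hn hz)

end

section


open Cardinal Set Pool.Agent.MP_e34318_lc

theorem r1 : R1_st := by
  classical
  intro Z _ _ hθ h0 hI
  have h1 : (1 : Cardinal) < #Z := one_lt_aleph0.trans h0
  have hc : ∀ z : Z, #(Iic z) < #Z := fun z => by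
    rw [← Iio_insert]
    exact mk_insert_le.trans_lt (add_lt_of_lt h0.le (hI z) h1)
  have bd : ∀ (z : Z) (g : ℕ × Iic z × Iic z → Z), ∃ y, ∀ t, g t < y := fun z g => by
    have h2 : #(ℕ × Iic z × Iic z) < #Z := by
      simp only [mk_prod, lift_id, mk_nat]
      exact mul_lt_of_lt h0.le h0 (mul_lt_of_lt h0.le (hc z) (hc z))
    have h3 := (card_iUnion_lt_iff_forall_of_isRegular (t := fun t => Iic (g t)) hθ h2).2
      fun t => hc _
    by_contra h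
    simp only [not_exists, not_forall, not_lt] at h
    rw [eq_univ_of_forall (s := ⋃ t, Iic (g t)) fun y => mem_iUnion.2 (h y), mk_univ] at h3
    exact h3.false
  obtain ⟨z₀⟩ : Nonempty Z := mk_ne_zero_iff.1 (zero_lt_one.trans h1).ne'
  have R0 : ∀ f : Z → Z, ∃ γ, (∀ z < γ, f z < γ) ∧
      ∃ e : ℕ → Z, (∀ n, e n < γ) ∧ ∀ z < γ, ∃ n, z ≤ e n := fun f => by
    choose g hg using fun z => bd z fun t => f t.2.1
    obtain ⟨δ, hδ⟩ : ∃ δ : ℕ → Z, ∀ n, δ (n + 1) = g (δ n) :=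
      ⟨fun n => g^[n] z₀, fun n => Function.iterate_succ_apply' g n z₀⟩
    obtain ⟨γ, h2, h3⟩ := WellFounded.has_min wellFounded_lt {y | ∀ n, δ n < y}
      ((bd z₀ fun t => δ t.1).imp fun y hy n => hy (n, ⟨z₀, le_rfl⟩, ⟨z₀, le_rfl⟩))
    have h4 : ∀ z < γ, ∃ n, z ≤ δ n := fun z hz => by
      by_contra h
      simp only [not_exists, not_le] at h
      exact h3 z h hz
    refine ⟨γ, fun z hz => ?_, δ, h2, h4⟩
    obtain ⟨n, hn⟩ := h4 z hz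
    exact (hg (δ n) (0, ⟨z, hn⟩, ⟨z, hn⟩)).trans (hδ n ▸ h2 (n + 1))
  obtain ⟨Sq, hSq⟩ : ∃ Sq : Z → Prop, ∀ γ, Sq γ ↔
    ∃ e : ℕ → Z, (∀ n, e n < γ) ∧ ∀ z < γ, ∃ n, z ≤ e n := ⟨_, fun _ => Iff.rfl⟩
  simp only [← hSq] at R0 ⊢
  have : Nonempty Z := ⟨z₀⟩
  choose! e he using fun γ => (hSq γ).1
  obtain ⟨St, hSt⟩ : ∃ St : ℕ → Z → Prop, ∀ n η, St n η ↔
    ∀ f : Z → Z, ∃ γ, e γ n = η ∧ (∀ z < γ, f z < γ) ∧ Sq γ := ⟨_, fun _ _ => Iff.rfl⟩
  by_cases h : ∃ n η η', η' ≠ η ∧ St n η ∧ St n η'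
  · obtain ⟨n, η, η', h2, h3, h4⟩ := h
    refine ⟨fun γ => decide (e γ n = η), fun f b => ?_⟩
    cases b
    · obtain ⟨γ, h5, h6⟩ := (hSt _ _).1 h4 f
      exact ⟨γ, decide_eq_false (h5 ▸ h2), h6⟩
    · obtain ⟨γ, h5, h6⟩ := (hSt _ _).1 h3 f
      exact ⟨γ, decide_eq_true h5, h6⟩
  exfalso
  have h2 : ∀ n, ∃ η₀, ∀ η, η ≠ η₀ →
      ∃ f : Z → Z, ∀ γ, ¬ (e γ n = η ∧ (∀ z < γ, f z < γ) ∧ Sq γ) := fun n => by
    by_cases h3 : ∃ η₀, St n η₀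
    · obtain ⟨η₀, h3⟩ := h3
      refine ⟨η₀, fun η h4 => by_contra fun h5 => h ⟨n, η₀, η, h4, h3, (hSt _ _).2 fun f => ?_⟩⟩
      exact not_forall_not.1 fun h6 => h5 ⟨f, h6⟩
    · refine ⟨z₀, fun η _ => by_contra fun h5 => h3 ⟨η, (hSt _ _).2 fun f => ?_⟩⟩
      exact not_forall_not.1 fun h6 => h5 ⟨f, h6⟩
  choose η₀ h2 using h2
  choose! F hF using h2
  choose f hf using fun z => bd z fun t => max (η₀ t.1) (F t.1 t.2.1 t.2.2)
  obtain ⟨γ, h3, h4⟩ := R0 f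
  obtain ⟨h5, h6⟩ := he γ h4
  obtain ⟨n, hn⟩ := h6 _ (h3 _ (h5 0))
  have h7 := (max_lt_iff.1 (hf (e γ 0) (n, ⟨_, le_rfl⟩, ⟨_, le_rfl⟩))).1
  refine hF n (e γ n) (h7.trans_le hn).ne' γ ⟨rfl, fun z hz => ?_, h4⟩
  exact (max_lt_iff.1 (hf (max (e γ n) z) (n, ⟨_, le_max_left _ _⟩, ⟨_, le_max_right _ _⟩))).2.trans
    (h3 _ (max_lt (h5 n) hz))

end

section


open Cardinal Set Pool.Agent.MP_e34318_lc

theorem iic_Reg {Z : Type} [LinearOrder Z] (hθ : (#Z).IsRegular) (hI : ∀ z : Z, #(Iio z) < #Z)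
    (z : Z) : #(Iic z) < #Z := by
  rw [← Iio_insert]
  exact mk_insert_le.trans_lt (add_lt_of_lt hθ.aleph0_le (hI z)
    (one_lt_aleph0.trans_le hθ.aleph0_le))

theorem bound_Reg {Z : Type} [LinearOrder Z] (hθ : (#Z).IsRegular) (hI : ∀ z : Z, #(Iio z) < #Z)
    {A : Set Z} (hc : #A < #Z) : ∃ y, ∀ z ∈ A, z < y := by
  have h1 := (card_biUnion_lt_iff_forall_of_isRegular (t := fun z _ => Iic z) hθ hc).2
    fun z _ => iic_Reg hθ hI z
  by_contra h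
  push Not at h
  refine h1.not_ge (mk_univ.ge.trans (mk_le_mk_of_subset fun y _ => ?_))
  obtain ⟨z, hz, e⟩ := h y
  exact mem_biUnion hz e

theorem list_Reg {Z : Type} [LinearOrder Z] {γ s : Z} (hs : s < γ) (l : List Z)
    (hl : ∀ x ∈ l, x < γ) : ∃ z < γ, ∀ x ∈ l, x ≤ z := by
  induction l with
  | nil => exact ⟨s, hs, by simp⟩
  | cons a l ih =>
    obtain ⟨z, hz, h⟩ := ih fun x hx => hl x (List.mem_cons_of_mem _ hx)
    refine ⟨max a z, max_lt (hl a List.mem_cons_self) hz, fun x hx => ?_⟩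
    rcases List.mem_cons.1 hx with rfl | hx
    · exact le_max_left _ _
    · exact (h x hx).trans (le_max_right _ _)

theorem reg (h0 : HULL0_st) (h1 : R1_st) : REG_st := by
  intro K _ _ hK Z _ _ hθ hKZ hI
  classical
  have := hK.2
  have hℵ : ℵ₀ < #Z := aleph0_lt_mk.trans hKZ
  have : Nonempty Z := mk_ne_zero_iff.1 (aleph0_pos.trans hℵ).ne'
  obtain ⟨ι⟩ := (le_def K Z).1 hKZ.le
  obtain ⟨c, hc⟩ := h1 Z hθ hℵ hI
  obtain ⟨lub, hlub⟩ : ∃ lub : Set Z → Z, ∀ (x : Set Z) (γ : Z), (∀ z ∈ x, z < γ) →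
      (∀ δ < γ, ∃ z ∈ x, δ ≤ z) → lub x = γ := by
    have : ∀ x : Set Z, ∃ u : Z, ∀ γ : Z, (∀ z ∈ x, z < γ) → (∀ δ < γ, ∃ z ∈ x, δ ≤ z) →
        u = γ := fun x => by
      by_cases h : ∃ γ : Z, (∀ z ∈ x, z < γ) ∧ ∀ δ < γ, ∃ z ∈ x, δ ≤ z
      · obtain ⟨u, u1, u2⟩ := h
        refine ⟨u, fun γ a1 a2 => le_antisymm (not_lt.1 fun e => ?_) (not_lt.1 fun e => ?_)⟩
        · obtain ⟨z, hz, k⟩ := u2 γ e
          exact (a1 z hz).not_ge k
        · obtain ⟨z, hz, k⟩ := a2 u e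
          exact (u1 z hz).not_ge k
      · exact ⟨Classical.arbitrary Z, fun γ a1 a2 => absurd ⟨γ, a1, a2⟩ h⟩
    exact ⟨fun x => (this x).choose, fun x => (this x).choose_spec⟩
  refine ⟨Z, ι, id, Iic, fun _ x => c (lub x), ι.injective, Function.injective_id,
    iic_Reg hθ hI, fun F => ?_⟩
  have hf : ∀ z : Z, ∃ y, (∀ a, ι a < y) ∧ ∀ l : List Z, (∀ x ∈ l, x ≤ z) → F l < y := fun z => by
    obtain ⟨y, hy⟩ := bound_Reg hθ hI
      (A := range ι ∪ range fun t : List (Iic z) => F (t.map Subtype.val))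
      ((mk_union_le _ _).trans_lt (add_lt_of_lt hℵ.le (mk_range_le.trans_lt hKZ)
        (mk_range_le.trans_lt ((mk_list_le_max _).trans_lt (max_lt hℵ (iic_Reg hθ hI z))))))
    refine ⟨y, fun a => hy _ (Or.inl ⟨a, rfl⟩), fun l hl => hy _ (Or.inr ?_)⟩
    lift l to List (Iic z) using hl
    exact ⟨l, rfl⟩
  choose f f1 f2 using hf
  choose γ g1 g2 e e1 e2 using hc f
  have i1 : ∀ b a, ι a < γ b := fun b a => (f1 _ a).trans (g2 b _ (e1 b 0))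
  have i2 : ∀ b (l : List Z), (∀ x ∈ l, x < γ b) → F l < γ b := fun b l hl => by
    obtain ⟨z, hz, h⟩ := list_Reg (e1 b 0) l hl
    exact (f2 z l h).trans (g2 b z hz)
  obtain ⟨H, c1, c2, c3⟩ := h0 (Bool × Z) ℵ₀ (fun l =>
    (fun b => (b, F (l.map Prod.snd))) '' {b | ∀ x ∈ l, x.1 = b} ∪
    (fun q : Bool × K => (q.1, ι q.2)) ''
      (Set.univ ×ˢ ⋃ x ∈ {x | x ∈ l}, ⋃ a ∈ ι ⁻¹' {x.2}, Iic a) ∪
    range fun q : Bool × ℕ => (q.1, e q.1 q.2)) le_rfl fun l => by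
      refine le_aleph0_iff_set_countable.2 ((((to_countable _).image _).union
        ((countable_univ.prod (l.finite_toSet.countable.biUnion fun x _ =>
          ((countable_singleton _).preimage ι.injective).biUnion fun a _ => ?_)).image _)).union
        (countable_range _))
      rw [← Iio_insert]
      exact (hK.1 a).insert a
  have cH := le_aleph0_iff_set_countable.1 c1
  have hM : ∀ q ∈ H, q.2 < γ q.1 := c3 {q | q.2 < γ q.1} fun l hl => by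
    rintro _ ((⟨b, hb, rfl⟩ | ⟨q, -, rfl⟩) | ⟨q, rfl⟩)
    · refine i2 b _ fun x hx => ?_
      obtain ⟨y, hy, rfl⟩ := List.mem_map.1 hx
      exact hb y hy ▸ hl y hy
    · exact i1 _ _
    · exact e1 _ _
  have hD : ∀ b b' a a', (b, ι a) ∈ H → a' ≤ a → (b', ι a') ∈ H := fun b b' a a' h k =>
    c2 [(b, ι a)] (by simpa using h) (Or.inl (Or.inr ⟨(b', a'), ⟨trivial, by simpa using k⟩, rfl⟩))
  have hne : {a : K | (true, ι a) ∉ H}.Nonempty := by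
    by_contra h
    refine not_countable_univ (α := K) ((cH.preimage (f := fun a => (true, ι a))
      fun a a' k => ι.injective (Prod.ext_iff.1 k).2).mono fun a _ => ?_)
    exact not_not.1 fun k => h ⟨a, k⟩
  refine ⟨wellFounded_lt.min _ hne, fun b => ⟨{z | (b, z) ∈ H},
    cH.preimage (f := fun z => (b, z)) fun z z' k => (Prod.ext_iff.1 k).2, fun l hl => ?_,
    fun a => ⟨fun h => not_le.1 fun k => wellFounded_lt.min_mem _ hne (hD b true a _ h k),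
      fun h => hD true b a a (not_not.1 fun k => wellFounded_lt.not_lt_min _ k h) le_rfl⟩,
    fun x hx hy => ?_⟩⟩
  · refine c2 (l.map fun z => (b, z)) (fun q hq => ?_) (Or.inl (Or.inl ⟨b, fun q hq => ?_, ?_⟩))
    · obtain ⟨z, hz, rfl⟩ := List.mem_map.1 hq
      exact hl z hz
    · obtain ⟨z, -, rfl⟩ := List.mem_map.1 hq
      rfl
    · simp [Function.comp_def]
  · change c (lub x) = b
    rw [hlub x (γ b) (fun z hz => hM _ (hx z hz)) fun δ hδ => ?_, g1]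
    obtain ⟨n, hn⟩ := e2 b δ hδ
    obtain ⟨z, hz, k⟩ := not_subset.1 (hy (e b n) (c2 [] (by simp) (Or.inr ⟨(b, n), rfl⟩)))
    exact ⟨z, hz, hn.trans (not_le.1 k).le⟩

end

section


open Cardinal Set Pool.Agent.MP_e34318_lc

theorem tt : T_st := by
  intro P _ A Z W hW D p N hN hD hN'
  obtain ⟨e⟩ := (Cardinal.le_def _ _).1 hN
  obtain ⟨q, hq, f, hf⟩ := hW (fun r a w => ∃ z : N, e z = w ∧ D r a z) p
    ⟨fun q r a w h ⟨z, h1, h2⟩ => ⟨z, h1, hD.mono q r a z h h2⟩,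
      fun q a w w' ⟨z, h1, h2⟩ ⟨z', h1', h2'⟩ => by
        rw [← h1, ← h1', Subtype.ext (hD.func q a z z' h2 h2')],
      fun q h a => by
        obtain ⟨r, h1, z, h2, h3⟩ := hN' q h a
        exact ⟨r, h1, _, ⟨z, h2⟩, rfl, h3⟩⟩
  choose s _ g hg _ using fun a => hf a q le_rfl
  refine ⟨q, hq, fun a => g a, fun a r hr => ?_⟩
  obtain ⟨s, h1, z, h2, h3⟩ := hf a r hr
  exact ⟨s, h1, by rwa [e.injective (h2.trans (hg a).symm)] at h3⟩

theorem surj_Bas {P : Type} [Preorder P] {A B W : Type} (h : Dist P A W) (s : A → B)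
    (hs : Function.Surjective s) : Dist P B W := by
  intro D p hD
  obtain ⟨q, hq, f, hf⟩ := h (fun r a w => D r (s a) w) p
    ⟨fun q r a => hD.mono q r (s a), fun q a => hD.func q (s a), fun q h a => hD.tot q h (s a)⟩
  refine ⟨q, hq, fun b => f (Function.surjInv hs b), fun b r hr => ?_⟩
  have := hf (Function.surjInv hs b) r hr
  rwa [Function.surjInv_eq hs] at this

theorem curry_Bas {P : Type} [Preorder P] {A B W : Type} (h : Dist P (A × B) W) :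
    Dist P A (B → W) := by
  intro D p hD
  obtain ⟨q, hq, f, hf⟩ := h (fun r c w => ∃ g, D r c.1 g ∧ g c.2 = w) p
    ⟨fun q r c w h ⟨g, h1, h2⟩ => ⟨g, hD.mono q r _ g h h1, h2⟩,
      fun q c w w' ⟨g, h1, h2⟩ ⟨g', h1', h2'⟩ => by rw [← h2, ← h2', hD.func q _ g g' h1 h1'],
      fun q h c => by
        obtain ⟨r, h1, g, h2⟩ := hD.tot q h c.1
        exact ⟨r, h1, _, g, h2, rfl⟩⟩
  refine ⟨q, hq, fun a b => f (a, b), fun a r hr => ?_⟩
  obtain ⟨r', h1, g, h2⟩ := hD.tot r (hr.trans hq) a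
  have e : g = fun b => f (a, b) := funext fun b => by
    obtain ⟨s, h3, g', h4, h5⟩ := hf (a, b) r' (h1.trans hr)
    rw [← h5, hD.func s a g g' (hD.mono r' s a g h3 h2) h4]
  exact ⟨r', h1, by rwa [e] at h2⟩

theorem pw : PW_st := by
  intro P _ A W _ h
  obtain ⟨e⟩ : Nonempty (A ≃ A × A) := Cardinal.eq.1 (by simp)
  exact ⟨curry_Bas (surj_Bas h e e.surjective),
    surj_Bas h _ (Function.invFun_surjective (Infinite.natEmbedding A).injective)⟩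

theorem db : DB_st := by
  intro P _ A h Q hQ p
  obtain ⟨q, hq, f, hf⟩ := h
    (fun q a b => (b = true ∧ Q q a) ∨ (b = false ∧ ∀ r ≤ q, ¬ Q r a)) p
    ⟨fun q r a b h g => g.imp (fun g => ⟨g.1, hQ q r a h g.2⟩)
        fun g => ⟨g.1, fun s hs => g.2 s (hs.trans h)⟩,
      fun q a b b' g g' => by
        rcases g with ⟨rfl, g⟩ | ⟨rfl, g⟩ <;> rcases g' with ⟨rfl, g'⟩ | ⟨rfl, g'⟩
        exacts [rfl, (g' q le_rfl g).elim, (g q le_rfl g').elim, rfl],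
      fun q _ a => by
        by_cases g : ∃ r ≤ q, Q r a
        · obtain ⟨r, h1, h2⟩ := g
          exact ⟨r, h1, true, .inl ⟨rfl, h2⟩⟩
        · exact ⟨q, le_rfl, false, .inr ⟨rfl, fun r h1 h2 => g ⟨r, h1, h2⟩⟩⟩⟩
  refine ⟨q, hq, fun a => ?_⟩
  cases e : f a
  · refine .inr fun r hr g => ?_
    obtain ⟨s, h1, h2 | h2⟩ := hf a r hr
    · simp [e] at h2
    · exact h2.2 s le_rfl (hQ r s a h1 g)
  · refine .inl fun r hr => ?_
    obtain ⟨s, h1, h2 | h2⟩ := hf a r hr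
    · exact ⟨s, h1, h2.2⟩
    · simp [e] at h2

end

section


open Cardinal Set Pool.Agent.MP_e34318_lc

theorem least : LEAST_st := by
  intro P _ A V _ _ hD Q hm p ht
  obtain ⟨q, hq, f, hf⟩ := hD (fun r a v => Q r a v ∧ ∀ v' < v, ∀ r' ≤ r, ¬ Q r' a v') p
    ⟨fun q r a z h d => ⟨hm q r a z h d.1, fun v' hv r' hr => d.2 v' hv r' (hr.trans h)⟩,
      fun q a z z' d d' => by
        rcases lt_trichotomy z z' with h | h | h
        · exact absurd d.1 (d'.2 z h q le_rfl)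
        · exact h
        · exact absurd d'.1 (d.2 z' h q le_rfl),
      fun q hq a => by
        obtain ⟨r0, h0, v0, h1⟩ := ht q hq a
        obtain ⟨v, ⟨r, h2, h3⟩, h4⟩ := (wellFounded_lt (α := V)).has_min
          {v | ∃ r ≤ q, Q r a v} ⟨v0, r0, h0, h1⟩
        exact ⟨r, h2, v, h3, fun v' hv r' hr h => h4 v' ⟨r', hr.trans h2, h⟩ hv⟩⟩
  refine ⟨q, hq, f, fun a => ⟨fun r hr => ?_, fun v hv r hr h => ?_⟩⟩
  · obtain ⟨s, h1, h2⟩ := hf a r hr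
    exact ⟨s, h1, h2.1⟩
  · obtain ⟨s, h1, h2⟩ := hf a r hr
    exact h2.2 v hv s le_rfl (hm r s a v h1 h)

/-- the branch that always takes the least possible next value -/
def br_Sel {P V : Type} [Preorder P] (St : P → ℕ → V → Prop) (Rel : V → V → Prop) (p : P)
    (v₀ : V) : ℕ → P → V → Prop
  | 0 => fun r v => r ≤ p ∧ v = v₀
  | n + 1 => fun r v' => ∃ v, br_Sel St Rel p v₀ n r v ∧ St r (n + 1) v' ∧ Rel v v' ∧
      ∀ w, WellOrderingRel w v' → ∀ r' ≤ r, ¬ (St r' (n + 1) w ∧ Rel v w)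

theorem sel : SEL_st := by
  intro P _ V hD St Rel hm p v₀ h0 ht
  have b1 : ∀ n r v, br_Sel St Rel p v₀ n r v → St r n v := by
    intro n r v h
    cases n with
    | zero => exact h.2 ▸ hm p r 0 v₀ h.1 h0
    | succ n =>
      obtain ⟨_, -, h1, -⟩ := h
      exact h1
  have b2 : ∀ n q r v, r ≤ q → br_Sel St Rel p v₀ n q v → br_Sel St Rel p v₀ n r v := by
    intro n
    induction n with
    | zero => exact fun q r v h d => ⟨h.trans d.1, d.2⟩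
    | succ n ih =>
      rintro q r v' h ⟨v, d1, d2, d3, d4⟩
      exact ⟨v, ih q r v h d1, hm q r _ _ h d2, d3, fun w hw r' hr => d4 w hw r' (hr.trans h)⟩
  have b3 : ∀ n q v v', br_Sel St Rel p v₀ n q v → br_Sel St Rel p v₀ n q v' → v = v' := by
    intro n
    induction n with
    | zero => exact fun q v v' d d' => d.2.trans d'.2.symm
    | succ n ih =>
      rintro q w w' ⟨v, d1, d2, d3, d4⟩ ⟨v', e1, e2, e3, e4⟩
      have e := ih q v v' d1 e1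
      subst e
      rcases trichotomous_of WellOrderingRel w w' with h | h | h
      · exact absurd ⟨d2, d3⟩ (e4 w h q le_rfl)
      · exact h
      · exact absurd ⟨e2, e3⟩ (d4 w' h q le_rfl)
  have b4 : ∀ n, ∀ q ≤ p, ∃ r ≤ q, ∃ v, br_Sel St Rel p v₀ n r v := by
    intro n
    induction n with
    | zero => exact fun q hq => ⟨q, le_rfl, v₀, hq, rfl⟩
    | succ n ih =>
      intro q hq
      obtain ⟨r, h1, v, h2⟩ := ih q hq
      obtain ⟨r0, h3, w0, h4⟩ := ht r (h1.trans hq) n v (b1 n r v h2)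
      obtain ⟨w, ⟨s, h5, h6⟩, h7⟩ := (IsWellFounded.wf (r := (WellOrderingRel : V → V → Prop))).has_min
        {w | ∃ s ≤ r, St s (n + 1) w ∧ Rel v w} ⟨w0, r0, h3, h4⟩
      exact ⟨s, h5.trans h1, w, v, b2 n r s v h5 h2, h6.1, h6.2,
        fun w' hw r' hr h => h7 w' ⟨r', hr.trans h5, h⟩ hw⟩
  obtain ⟨q, hq, x, hx⟩ := hD (fun r n v => br_Sel St Rel p v₀ n r v) p
    ⟨fun q r n v h d => b2 n q r v h d, fun q n v v' d d' => b3 n q v v' d d',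
      fun q hq n => b4 n q hq⟩
  refine ⟨q, hq, x, fun n => ⟨?_, fun r hr => ?_⟩⟩
  · obtain ⟨s, h1, v, h2, -, h3, -⟩ := hx (n + 1) q le_rfl
    obtain ⟨s', h4, h5⟩ := hx n s h1
    exact b3 n s' v (x n) (b2 n s s' v h4 h2) h5 ▸ h3
  · obtain ⟨s, h1, h2⟩ := hx n r hr
    exact ⟨s, h1, b1 n s _ h2⟩

end

section


open Cardinal Set Pool.Agent.MP_e34318_lc

/-- The auxiliary name used in `fin`. -/
def D_Fin {P K Z Y : Type} [Preorder P] [LinearOrder K] (D : P → K → Z → Prop) (ι : K → Y)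
    (ζ : Z → Y) (dec : Y → Set Z) (a₀ : K) (r : P) (l : List Y) (y : Y) : Prop :=
  (∃ a z, l = [ι a] ∧ D r a z ∧ y = ζ z) ∨
  (∃ y₀ y₁ a, l = [y₀, y₁] ∧ y = ι a ∧ (∃ z, D r a z ∧ z ∉ dec y₀) ∧
    ∀ a' < a, ∀ r' ≤ r, ¬ ∃ z, D r' a' z ∧ z ∉ dec y₀) ∨
  ((¬ ∃ a, l = [ι a]) ∧ (¬ ∃ y₀ y₁, l = [y₀, y₁]) ∧ y = ι a₀)

theorem fn_Fin {P K Z Y : Type} [Preorder P] [LinearOrder K] [WellFoundedLT K]
    (D : P → K → Z → Prop) (ι : K → Y) (ζ : Z → Y) (dec : Y → Set Z) (a₀ : K) (p q₀ : P)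
    (hι : Function.Injective ι) (hD : FN D p) (hq : q₀ ≤ p)
    (E : ∀ y, ∀ q ≤ p, ∃ r ≤ q, ∃ a z, D r a z ∧ z ∉ dec y) :
    FN (D_Fin D ι ζ dec a₀) q₀ := by
  refine ⟨?_, ?_, ?_⟩
  · intro q r l y hr h
    rcases h with ⟨a, z, h1, h2, h3⟩ | ⟨y₀, y₁, a, h1, h2, ⟨z, h3, h4⟩, h5⟩ | h
    · exact Or.inl ⟨a, z, h1, hD.mono _ _ _ _ hr h2, h3⟩
    · exact Or.inr (Or.inl ⟨y₀, y₁, a, h1, h2, ⟨z, hD.mono _ _ _ _ hr h3, h4⟩,
        fun a' ha' r' hr' => h5 a' ha' r' (hr'.trans hr)⟩)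
    · exact Or.inr (Or.inr h)
  · intro q l y y' h h'
    rcases h with ⟨a, z, h1, h2, h3⟩ | ⟨y₀, y₁, a, h1, h2, h3, h5⟩ | ⟨h1, h2, h3⟩
    · rcases h' with ⟨a', z', g1, g2, g3⟩ | ⟨y₀', y₁', a', g1, -⟩ | ⟨g1, -⟩
      · have e : a = a' := hι (by rw [h1] at g1; simpa using g1)
        subst e
        rw [h3, g3, hD.func _ _ _ _ h2 g2]
      · rw [h1] at g1; simp at g1
      · exact absurd ⟨a, h1⟩ g1
    · rcases h' with ⟨a', z', g1, -⟩ | ⟨y₀', y₁', a', g1, g2, g3, g5⟩ | ⟨-, g1, -⟩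
      · rw [h1] at g1; simp at g1
      · have e : y₀ = y₀' := by
          rw [h1] at g1
          exact (List.cons.inj g1).1
        subst e
        rcases lt_trichotomy a a' with hlt | heq | hlt
        · exact absurd h3 (g5 a hlt q le_rfl)
        · rw [h2, g2, heq]
        · exact absurd g3 (h5 a' hlt q le_rfl)
      · exact absurd ⟨y₀, y₁, h1⟩ g1
    · rcases h' with ⟨a', z', g1, -⟩ | ⟨y₀', y₁', a', g1, -⟩ | ⟨-, -, g1⟩
      · exact absurd ⟨a', g1⟩ h1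
      · exact absurd ⟨y₀', y₁', g1⟩ h2
      · rw [h3, g1]
  · intro q hq' l
    by_cases c1 : ∃ a, l = [ι a]
    · obtain ⟨a, ha⟩ := c1
      obtain ⟨r, hr, z, hz⟩ := hD.tot q (hq'.trans hq) a
      exact ⟨r, hr, ζ z, Or.inl ⟨a, z, ha, hz, rfl⟩⟩
    by_cases c2 : ∃ y₀ y₁, l = [y₀, y₁]
    · obtain ⟨y₀, y₁, hl⟩ := c2
      have hne : {a : K | ∃ r ≤ q, ∃ z, D r a z ∧ z ∉ dec y₀}.Nonempty := by
        obtain ⟨r, hr, a, z, h⟩ := E y₀ q (hq'.trans hq)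
        exact ⟨a, r, hr, z, h⟩
      obtain ⟨a, ⟨r, hr, hz⟩, hmin⟩ := WellFounded.has_min wellFounded_lt _ hne
      refine ⟨r, hr, ι a, Or.inr (Or.inl ⟨y₀, y₁, a, hl, rfl, hz, ?_⟩)⟩
      intro a' ha' r' hr' hz'
      exact hmin a' ⟨r', hr'.trans hr, hz'⟩ ha'
    · exact ⟨q, le_rfl, ι a₀, Or.inr (Or.inr ⟨c1, c2, rfl⟩)⟩

theorem fin (hT : T_st) (hD : DB_st) (hP : PR_st) : FIN_st := by
  intro P _ K _ _ _ Z hPr hB hN hC D p hF E
  obtain ⟨Y, ι, ζ, dec, col, hι, hζ, hdec, hC⟩ := hC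
  obtain ⟨a₀⟩ : Nonempty K := inferInstance
  obtain ⟨-, -, z₀, -⟩ := hF.tot p le_rfl a₀
  obtain ⟨q₀, hq₀, hdb⟩ := hD P K hB
    (fun r d => ∃ f : K → Z, (∀ a < d, ∀ r' ≤ r, ∃ s ≤ r', D s a (f a)) ∧
      col d (f '' Iio d) = true)
    (fun q r d hr ⟨f, h1, h2⟩ => ⟨f, fun a ha r' hr' => h1 a ha r' (hr'.trans hr), h2⟩) p
  have hfn := fn_Fin D ι ζ dec a₀ p q₀ hι hF hq₀ (fun y => E _ (hdec y))
  obtain ⟨F, hFF⟩ := hP P hPr Y _ q₀ hfn
  obtain ⟨d, hd⟩ := hC F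
  have key : ∀ b : Bool, ∃ r ≤ q₀, ∃ f : K → Z,
      (∀ a < d, ∀ r' ≤ r, ∃ s ≤ r', D s a (f a)) ∧ col d (f '' Iio d) = b := by
    intro b
    obtain ⟨X, hX, hcl, hiff, hcol⟩ := hd b
    obtain ⟨q, hq, hg⟩ := hFF X hX hcl
    have one : ∀ a < d, ∀ r ≤ q, ∃ s ≤ r, ∃ z, ζ z ∈ X ∧ D s a z := by
      intro a ha r hr
      obtain ⟨s, hs, y, hy, h⟩ := hg [ι a] (by simpa using (hiff a).2 ha) r hr
      rcases h with ⟨a', z, h1, h2, h3⟩ | ⟨y₀, y₁, a', h1, -⟩ | ⟨h1, -⟩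
      · have e : a = a' := hι (by simpa using h1)
        subst e
        exact ⟨s, hs, z, h3 ▸ hy, h2⟩
      · simp at h1
      · exact absurd ⟨a, rfl⟩ h1
    have two : ∀ y ∈ X, ∀ r ≤ q, ∃ s ≤ r, ∃ a < d, ∃ z, D s a z ∧ z ∉ dec y := by
      intro y hy r hr
      obtain ⟨s, hs, y', hy', h⟩ := hg [y, y] (by simpa using hy) r hr
      rcases h with ⟨a', z, h1, -⟩ | ⟨y₀, y₁, a, h1, h2, h3, -⟩ | ⟨-, h1, -⟩
      · simp at h1
      · have e : y = y₀ := (List.cons.inj h1).1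
        subst e
        exact ⟨s, hs, a, (hiff a).1 (h2 ▸ hy'), h3⟩
      · exact absurd ⟨y, y, rfl⟩ h1
    have hNc : (insert z₀ (ζ ⁻¹' X)).Countable := (hX.preimage_of_injOn hζ.injOn).insert z₀
    obtain ⟨r, hr, f, hf⟩ := hT P K Z ℕ hN
      (fun r a z => (a < d ∧ D r a z) ∨ (¬ a < d ∧ z = z₀)) q (insert z₀ (ζ ⁻¹' X))
      (by rw [Cardinal.mk_nat]; exact hNc.le_aleph0)
      ⟨by
        intro q r a z hr h
        rcases h with ⟨h1, h2⟩ | h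
        · exact Or.inl ⟨h1, hF.mono _ _ _ _ hr h2⟩
        · exact Or.inr h,
       by
        intro q a z z' h h'
        rcases h with ⟨h1, h2⟩ | ⟨h1, h2⟩ <;> rcases h' with ⟨g1, g2⟩ | ⟨g1, g2⟩
        · exact hF.func _ _ _ _ h2 g2
        · exact absurd h1 g1
        · exact absurd g1 h1
        · rw [h2, g2],
       by
        intro q' hq' a
        by_cases ha : a < d
        · obtain ⟨s, hs, z, -, hz⟩ := one a ha q' hq'
          exact ⟨s, hs, z, Or.inl ⟨ha, hz⟩⟩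
        · exact ⟨q', le_rfl, z₀, Or.inr ⟨ha, rfl⟩⟩⟩
      (by
        intro q' hq' a
        by_cases ha : a < d
        · obtain ⟨s, hs, z, hz', hz⟩ := one a ha q' hq'
          exact ⟨s, hs, z, Or.inr hz', Or.inl ⟨ha, hz⟩⟩
        · exact ⟨q', le_rfl, z₀, Or.inl rfl, Or.inr ⟨ha, rfl⟩⟩)
    have hf' : ∀ a < d, ∀ r' ≤ r, ∃ s ≤ r', D s a (f a) := by
      intro a ha r' hr'
      obtain ⟨s, hs, h⟩ := hf a r' hr'
      rcases h with ⟨-, h⟩ | ⟨h, -⟩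
      · exact ⟨s, hs, h⟩
      · exact absurd ha h
    refine ⟨r, hr.trans hq, f, hf', hcol _ ?_ ?_⟩
    · rintro _ ⟨a, ha, rfl⟩
      obtain ⟨s, hs, h⟩ := hf' a ha r le_rfl
      obtain ⟨s', hs', z, hz, h'⟩ := one a ha s (hs.trans hr)
      rwa [hF.func _ _ _ _ (hF.mono _ _ _ _ hs' h) h']
    · intro y hy hsub
      obtain ⟨s, hs, a, ha, z, h, hz⟩ := two y hy r hr
      obtain ⟨s', hs', h'⟩ := hf' a ha s hs
      exact hz (hsub ⟨a, ha, hF.func _ _ _ _ h' (hF.mono _ _ _ _ hs' h)⟩)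
  rcases hdb d with h | h
  · obtain ⟨r, hr, f, hf, hc⟩ := key false
    obtain ⟨s, hs, f', hf', hc'⟩ := h r hr
    have e : f '' Iio d = f' '' Iio d := by
      refine Set.image_congr ?_
      intro a ha
      obtain ⟨s₁, hs₁, h₁⟩ := hf' a ha s le_rfl
      obtain ⟨s₂, hs₂, h₂⟩ := hf a ha s₁ (hs₁.trans hs)
      exact hF.func _ _ _ _ h₂ (hF.mono _ _ _ _ hs₂ h₁)
    rw [e, hc'] at hc
    exact Bool.noConfusion hc
  · obtain ⟨r, hr, hQ⟩ := key true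
    exact h r hr hQ

end

section


open Cardinal Set Pool.Agent.MP_e34318_lc

theorem fn_Small {P A Z W : Type} [Preorder P] {D : P → A → Z → Prop} {p q : P} (hF : FN D p)
    (hq : q ≤ p) (u : Z → W) : FN (fun r a i => ∃ z, D r a z ∧ u z = i) q where
  mono := fun q r a _ h ⟨z, h1, h2⟩ => ⟨z, hF.mono q r a z h h1, h2⟩
  func := fun q a _ _ ⟨z, h1, h2⟩ ⟨z', h3, h4⟩ => by rw [← h2, ← h4, hF.func q a z z' h1 h3]
  tot := fun r hr a => by
    obtain ⟨s, hs, z, hz⟩ := hF.tot r (hr.trans hq) a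
    exact ⟨s, hs, u z, z, hz, rfl⟩

theorem small (hT : T_st) (hO : OM_st) : SMALL_st := by
  intro P _ K _ Z _ hP hD hK hI hc hcase D p hF E
  obtain ⟨s, hs, hs'⟩ := Order.exists_cof_eq Z
  rcases hcase with h | h
  · have hZ : Nonempty Z := mk_ne_zero_iff.1 (pos_of_gt hK).ne'
    obtain ⟨e, rfl⟩ := (le_aleph0_iff_set_countable.1 (hs'.le.trans h)).exists_eq_range
      (hZ.elim fun z => (hs z).imp fun _ h => h.1)
    have fn := fun (n : ℕ) (q : P) (hq : q ≤ p) => fn_Small hF hq fun z => min z (e n)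
    obtain ⟨q, hq, X, hX, h1⟩ := hO P hP (K → Z) (fun r n f => ∀ a, ∀ r' ≤ r, ∃ t ≤ r',
        ∃ z, D t a z ∧ min z (e n) = f a) p
      { mono := fun q r n f h1 h2 a r' h3 => h2 a r' (h3.trans h1)
        func := fun q n f f' h1 h2 => funext fun a => by
          obtain ⟨t, ht, h3⟩ := h1 a q le_rfl
          obtain ⟨t', ht', h4⟩ := h2 a t ht
          exact (fn n p le_rfl).func t' a _ _ ((fn n p le_rfl).mono t t' a _ ht' h3) h4
        tot := fun q hq n => hT P K Z (Iic (e n)) (hD _ (hI _)) _ q (Iic (e n)) le_rfl (fn n q hq)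
          fun r hr a => by
            obtain ⟨t, ht, z, hz⟩ := hF.tot r (hr.trans hq) a
            exact ⟨t, ht, _, min_le_right z (e n), z, hz, rfl⟩ }
    have hN : #(range fun x : X × K => x.1.1 x.2) < #Z := by
      refine mk_range_le.trans_lt (lt_of_le_of_lt ?_ hK)
      rw [mk_prod, lift_id, lift_id]
      exact (mul_le_mul_left (le_aleph0_iff_set_countable.2 hX) _).trans
        (aleph0_mul_eq (aleph0_le_mk K)).le
    obtain ⟨r, hr, a, z, hz, hn⟩ := E _ hN q hq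
    obtain ⟨_, ⟨n, rfl⟩, hzn⟩ := hs z
    obtain ⟨t, ht, y, hy, h2⟩ := h1 n r hr
    obtain ⟨t', ht', z', h3, h4⟩ := h2 a t le_rfl
    rw [hF.func t' a z' z h3 (hF.mono r t' a z (ht'.trans ht) hz), min_eq_left hzn] at h4
    exact hn ⟨(⟨y, hy⟩, a), h4.symm⟩
  · choose u hu hu' using hs
    obtain ⟨q, hq, f, hf⟩ := hD s (hs'.trans_lt hc) _ p
      (fn_Small hF le_rfl fun z => (⟨u z, hu z⟩ : s))
    have h1 : ¬ IsCofinal (range fun a => (f a).1) := fun h1 =>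
      ((Order.cof_le h1).trans mk_range_le).not_gt h
    obtain ⟨b, hb⟩ := not_isCofinal_iff.1 h1
    obtain ⟨r, hr, a, z, hz, hn⟩ := E _ (hI b) q hq
    obtain ⟨t, ht, z', h3, h4⟩ := hf a r hr
    rw [hF.func t a z' z h3 (hF.mono r t a z ht hz)] at h4
    exact hn (((hu' z).trans_eq (congrArg Subtype.val h4)).trans (hb _ ⟨a, rfl⟩).le)

end

section


open Cardinal Set Pool.Agent.MP_e34318_lc

theorem card_le_succ_Main (K : Type) [LinearOrder K] [WellFoundedLT K] (hW : W1 K) :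
    #K ≤ Order.succ ℵ₀ := by
  have h : Ordinal.type (α := K) (· < ·) ≤ (Order.succ ℵ₀ : Cardinal.{0}).ord := by
    refine le_of_forall_lt fun o ho => ?_
    obtain ⟨a, rfl⟩ := Ordinal.typein_surj (α := K) (· < ·) ho
    rw [Cardinal.lt_ord, Order.lt_succ_iff, Ordinal.card_typein]
    exact Cardinal.le_aleph0_iff_set_countable.2 (hW.1 a)
  have h2 := Ordinal.card_le_card h
  rwa [Ordinal.card_type, Cardinal.card_ord] at h2

theorem mainA (hT : T_st) (hP : PW_st) (hF : FIN_st) (hS : SMALL_st) (hR : REG_st)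
    (hG : SING_st) : MAIN_st := by
  intro P _ K _ _ hW hPr hB hκ
  have hKu : Uncountable K := hW.2
  have hK0 : ℵ₀ < #K := Cardinal.aleph0_lt_mk
  have tr : ∀ Z W : Type, #Z ≤ #W → Dist P K W → Dist P K Z := by
    intro Z W h hD D p hFN
    refine hT P K Z W hD D p univ (by rw [mk_univ]; exact h) hFN fun q hq a => ?_
    obtain ⟨r, hr, z, hz⟩ := hFN.tot q hq a
    exact ⟨r, hr, z, mem_univ _, hz⟩
  suffices H : ∀ κ : Cardinal.{0}, ∀ Z : Type, #Z = κ → Dist P K Z from fun Z => H _ Z rfl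
  intro κ
  induction κ using WellFoundedLT.induction with
  | ind κ IH =>
  have IH' : ∀ W : Type, #W < κ → Dist P K W := fun W h => IH _ h W rfl
  intro Z₀ hZ₀
  by_cases h1 : κ ≤ 2 ^ #K
  · refine tr Z₀ (K → Bool) ?_ (hP P K Bool hB).1
    rw [hZ₀, ← Cardinal.power_def, Cardinal.mk_bool]
    exact h1
  by_cases h2 : ∃ ρ < κ, κ ≤ ρ ^ #K
  · obtain ⟨ρ, hρ, h⟩ := h2
    refine tr Z₀ (K → ρ.out) ?_ (hP P K ρ.out (IH' _ (by rw [mk_out]; exact hρ))).1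
    rw [hZ₀, ← Cardinal.power_def, mk_out]
    exact h
  have h2' : ∀ ρ < κ, ρ ^ #K < κ := fun ρ hρ => not_le.1 fun h => h2 ⟨ρ, hρ, h⟩
  have hKκ : #K < κ := (cantor _).trans (not_le.1 h1)
  have hκ0 : ℵ₀ ≤ κ := (hK0.trans hKκ).le
  refine tr Z₀ κ.ord.ToType (by rw [hZ₀, mk_ord_toType]) ?_
  have hZ : #(κ.ord.ToType) = κ := mk_ord_toType κ
  have hIio : ∀ z : κ.ord.ToType, #(Iio z) < κ := fun z => by simpa using mk_Iio_lt z
  have hcof : Order.cof κ.ord.ToType = κ.ord.cof := Ordinal.cof_toType _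
  have hIic : ∀ z : κ.ord.ToType, #(Iic z) < κ := fun z => by
    rw [← Iio_insert]
    exact mk_insert_le.trans_lt
      (Cardinal.add_lt_of_lt hκ0 (hIio z) (Cardinal.one_lt_aleph0.trans_le hκ0))
  intro D p hFN
  by_contra hno
  have E : ∀ N : Set κ.ord.ToType, #N < #(κ.ord.ToType) →
      ∀ q ≤ p, ∃ r ≤ q, ∃ a z, D r a z ∧ z ∉ N := by
    intro N hN q hq
    by_contra hc
    have hc' : ∀ r ≤ q, ∀ a z, D r a z → z ∈ N := fun r hr a z hz =>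
      by_contra fun hn => hc ⟨r, hr, a, z, hz, hn⟩
    have hFq : FN D q := ⟨hFN.mono, hFN.func, fun q' hq' a => hFN.tot q' (hq'.trans hq) a⟩
    obtain ⟨q', hq', f, hf⟩ := hT P K _ N (IH' N (hN.trans_eq hZ)) D q N le_rfl hFq
      (fun q' hq' a => by
        obtain ⟨r, hr, z, hz⟩ := hFN.tot q' (hq'.trans hq) a
        exact ⟨r, hr, z, hc' r (hr.trans hq') a z hz, hz⟩)
    exact hno ⟨q', hq'.trans hq, f, hf⟩
  have hN : Dist P K ℕ := IH' ℕ (by rw [mk_nat]; exact hK0.trans hKκ)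
  have fin : Comb K κ.ord.ToType → False := fun hC => hF P K _ hPr hB hN hC D p hFN E
  rcases (Ordinal.cof_ord_le κ).eq_or_lt with hc | hc
  · refine fin (hR K hW _ ?_ (hKκ.trans_eq hZ.symm) fun z => (hIio z).trans_eq hZ.symm)
    rw [hZ]
    exact ⟨hκ0, hc.ge⟩
  by_cases h3 : κ.ord.cof ≤ ℵ₀ ∨ #K < κ.ord.cof
  · exact hS P K _ hPr (fun W h => IH' W (h.trans_eq hZ)) (hKκ.trans_eq hZ.symm)
      (fun z => (hIic z).trans_eq hZ.symm) (by rw [hcof, hZ]; exact hc) (by rw [hcof]; exact h3)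
      D p hFN E
  have h4 : ℵ₀ < κ.ord.cof := not_le.1 fun h => h3 (Or.inl h)
  have h5 : κ.ord.cof = #K := le_antisymm (not_lt.1 fun h => h3 (Or.inr h))
    ((card_le_succ_Main K hW).trans (Order.succ_le_of_lt h4))
  have hκP : κ ≤ #P := by
    by_contra hlt
    have hN0 : #{z : κ.ord.ToType | ∃ q a, D q a z} ≤ #(P × K) := by
      have hch : ∀ z : {z : κ.ord.ToType | ∃ q a, D q a z}, ∃ x : P × K, D x.1 x.2 z.1 :=
        fun z => by
          obtain ⟨q, a, h⟩ := z.2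
          exact ⟨(q, a), h⟩
      choose g hg using hch
      refine mk_le_of_injective (f := g) fun z z' h => Subtype.ext ?_
      exact hFN.func _ _ _ _ (hg z) (h ▸ hg z')
    have hlt2 : #(P × K) < κ := by
      rw [← Cardinal.mul_def]
      exact Cardinal.mul_lt_of_lt hκ0 (not_le.1 hlt) hKκ
    obtain ⟨r, -, a, z, hz, hn⟩ := E _ ((hN0.trans_lt hlt2).trans_eq hZ.symm) p le_rfl
    exact hn ⟨r, a, hz⟩
  have hSL : κ.IsStrongLimit := hκ κ hκP h5 h2'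
  obtain ⟨S, hSc, hSe⟩ := Order.exists_cof_eq κ.ord.ToType
  obtain ⟨e⟩ : Nonempty (K ≃ S) := Cardinal.eq.1 (by rw [hSe, hcof, h5])
  refine fin (hG K hW _ (fun i => ⋃ k ∈ Iic i, Iic (e k : κ.ord.ToType)) ?_ ?_ ?_
    (by rw [hZ]; exact hSL) (hKκ.trans_eq hZ.symm))
  · intro i j hij
    exact biUnion_subset_biUnion_left (Iic_subset_Iic.2 hij)
  · intro z
    obtain ⟨y, hy, hzy⟩ := hSc z
    refine ⟨e.symm ⟨y, hy⟩, mem_biUnion (mem_Iic.2 le_rfl) ?_⟩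
    rw [Equiv.apply_symm_apply]
    exact hzy
  · intro i
    have hcnt : ((fun k => (e k : κ.ord.ToType)) '' Iic i).Countable := by
      refine Set.Countable.image ?_ _
      rw [← Iio_insert]
      exact (hW.1 i).insert i
    have hnc : ¬ IsCofinal ((fun k => (e k : κ.ord.ToType)) '' Iic i) := fun h => by
      have h6 := (Order.cof_le h).trans (Cardinal.le_aleph0_iff_set_countable.2 hcnt)
      rw [hcof] at h6
      exact absurd h4 (not_lt.2 h6)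
    obtain ⟨b, hb⟩ := not_isCofinal_iff.1 hnc
    refine (mk_le_mk_of_subset (t := Iic b) ?_).trans_lt ((hIic b).trans_eq hZ.symm)
    intro z hz
    obtain ⟨k, hk, hzk⟩ := mem_iUnion₂.1 hz
    exact (mem_Iic.1 hzk).trans (hb _ ⟨k, hk, rfl⟩).le

end

section


open Cardinal Set Pool.Agent.MP_e34318_lc

theorem exists_max_pairwise_ND {α : Type*} (R : α → α → Prop) (hR : ∀ a b, R a b → R b a)
    (D : Set α) : ∃ A ⊆ D, A.Pairwise R ∧ ∀ d ∈ D, (∀ a ∈ A, R d a) → d ∈ A := by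
  obtain ⟨A, hA⟩ := zorn_subset {A | A ⊆ D ∧ A.Pairwise R} (fun c hc hch =>
    ⟨⋃₀ c, ⟨sUnion_subset fun t ht => (hc ht).1,
      hch.pairwise_sUnion.2 fun t ht => (hc ht).2⟩, fun s hs => subset_sUnion_of_mem hs⟩)
  refine ⟨A, hA.prop.1, hA.prop.2, fun d hd h => ?_⟩
  have : insert d A ∈ {A | A ⊆ D ∧ A.Pairwise R} :=
    ⟨insert_subset hd hA.prop.1,
      Set.pairwise_insert.2 ⟨hA.prop.2, fun b hb _ => ⟨h b hb, hR _ _ (h b hb)⟩⟩⟩
  exact hA.le_of_ge this (subset_insert _ _) (mem_insert _ _)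

theorem part_meet_ND {K : Type} {F : Filter K} {S Z : Set K} {W : Set (Set K)}
    (h : IsPart F S W) (hZ : Z ⊆ S) (hp : Zᶜ ∉ F) : ∃ X ∈ W, (Z ∩ X)ᶜ ∉ F := by
  by_contra hn
  push Not at hn
  have : Z ∈ W := h.le_of_ge (y := insert Z W) ⟨by
      rintro X (rfl | hX)
      exacts [⟨hZ, hp⟩, h.prop.1 X hX],
    Set.pairwise_insert.2 ⟨h.prop.2, fun X hX _ => ⟨hn X hX, inter_comm Z X ▸ hn X hX⟩⟩⟩
    (subset_insert _ _) (mem_insert _ _)
  exact hp (by simpa using hn Z this)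

theorem nd : ND_st := by
  intro K L T _ _ F hp B f σ₀ hu hs
  let Q : Set (Set K) × (Set K → T) → Prop := fun w =>
    IsPart F (B σ₀) w.1 ∧ ∀ X ∈ w.1, B (w.2 X) = X
  have next : ∀ w : {w // Q w}, ∃ w' : {w // Q w}, ∀ X ∈ w'.1.1, ∃ Y ∈ w.1.1, X ⊆ Y ∧
      ∀ j ∈ X, f (w'.1.2 X) j < f (w.1.2 Y) j := by
    rintro ⟨⟨W, g⟩, hW, hg⟩
    obtain ⟨W', a1, a2, a3⟩ := exists_max_pairwise_ND (fun X Y : Set K => (X ∩ Y)ᶜ ∈ F)
      (fun X Y h => inter_comm X Y ▸ h)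
      {X | Xᶜ ∉ F ∧ ∃ τ, B τ = X ∧ ∃ Y ∈ W, X ⊆ Y ∧ ∀ j ∈ X, f τ j < f (g Y) j}
    have : Nonempty T := ⟨σ₀⟩
    choose! g' b1 b2 using fun X (hX : X ∈ W') => (a1 hX).2
    have hsub : ∀ X ∈ W', X ⊆ B σ₀ := fun X hX => by
      obtain ⟨Y, hY, hXY, -⟩ := b2 X hX
      exact hXY.trans (hW.prop.1 Y hY).1
    refine ⟨⟨⟨W', g'⟩, ⟨⟨fun X hX => ⟨hsub X hX, (a1 hX).1⟩, a2⟩, fun W'' hW'' hle Z hZ => ?_⟩,
      b1⟩, b2⟩
    by_contra hZ'
    obtain ⟨Y, hY, hZY⟩ := part_meet_ND hW (hW''.1 Z hZ).1 (hW''.1 Z hZ).2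
    obtain ⟨τ, c1, c2, c3⟩ := hs (g Y) (Z ∩ Y) (by rw [hg Y hY]; exact inter_subset_right) hZY
    have d : ∀ X ∈ W', (Z ∩ X)ᶜ ∈ F := fun X hX =>
      hW''.2 hZ (hle hX) fun e => hZ' (e ▸ hX)
    have hτ : B τ ∈ W' := a3 _ ⟨c2, τ, rfl, Y, hY, c1.trans inter_subset_right, c3⟩
      fun X hX => Filter.mem_of_superset (d X hX) (compl_subset_compl.2
        (inter_subset_inter_left _ (c1.trans inter_subset_left)))
    exact c2 (Filter.mem_of_superset (d _ hτ) (compl_subset_compl.2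
      (subset_inter (c1.trans inter_subset_left) Subset.rfl)))
  choose nx hnx using next
  have hQ : Q ({B σ₀}, fun _ => σ₀) := by
    refine ⟨⟨⟨by rintro _ rfl; exact ⟨Subset.rfl, hu⟩, pairwise_singleton _ _⟩,
      fun W hW hle Z hZ => ?_⟩, by rintro _ rfl; rfl⟩
    by_contra hne
    have h1 : (Z ∩ B σ₀)ᶜ ∈ F := hW.2 hZ (hle rfl) hne
    rw [inter_eq_left.2 (hW.1 Z hZ).1] at h1
    exact (hW.1 Z hZ).2 h1
  let w : ℕ → {w // Q w} := fun n => Nat.rec ⟨_, hQ⟩ (fun _ w => nx w) n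
  obtain ⟨X, x1, x2, j, hj⟩ := hp (B σ₀) hu (fun n => (w n).1.1) (fun n => (w n).2.1)
    fun n X hX => (hnx (w n) X hX).imp fun Y h => ⟨h.1, h.2.1⟩
  refine not_strictAnti_of_wellFoundedLT (fun n => f ((w n).1.2 (X n)) j)
    (strictAnti_nat_of_succ_lt fun n => ?_)
  obtain ⟨Y, y1, y2, y3⟩ := hnx (w n) (X (n + 1)) (x1 (n + 1))
  have : Y = X n := by
    by_contra hne
    exact ((w (n + 1)).2.1.prop.1 _ (x1 (n + 1))).2 (Filter.mem_of_superset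
      ((w n).2.1.prop.2 y1 (x1 n) hne) (compl_subset_compl.2 (subset_inter y2 (x2 n))))
  exact this ▸ y3 j (mem_iInter.1 hj (n + 1))

end

section


open Cardinal Set Pool.Agent.MP_e34318_lc

theorem long_PB (T : Type) : ∃ (L : Type) (_ : LinearOrder L) (_ : WellFoundedLT L),
    Nonempty L ∧ ∀ g : T → L, ∃ b, ∀ t, g t < b := by
  obtain ⟨c, hc, hT⟩ : ∃ c : Cardinal.{0}, ℵ₀ ≤ c ∧ #T ≤ c :=
    ⟨max ℵ₀ #T, le_max_left _ _, le_max_right _ _⟩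
  have hL : #(Order.succ c).ord.ToType = Order.succ c := mk_ord_toType _
  refine ⟨(Order.succ c).ord.ToType, inferInstance, inferInstance, ?_, fun g => ?_⟩
  · rw [← mk_ne_zero_iff, hL]
    exact ((aleph0_pos.trans_le hc).trans (Order.lt_succ c)).ne'
  · by_contra h
    push Not at h
    have h1 : (univ : Set (Order.succ c).ord.ToType) ⊆ ⋃ t, insert (g t) (Iio (g t)) :=
      fun b _ => by
        obtain ⟨t, ht⟩ := h b
        exact mem_iUnion.2 ⟨t, ht.eq_or_lt⟩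
    have h2 : ∀ t, #(insert (g t) (Iio (g t)) : Set _) ≤ c := fun t =>
      mk_insert_le.trans (add_le_of_le hc (Order.lt_succ_iff.1 (mk_Iio_toType_ord_lt (g t)))
        (one_le_aleph0.trans hc))
    have h3 := (mk_le_mk_of_subset h1).trans (mk_iUnion_le _)
    rw [mk_univ, hL] at h3
    exact (Order.lt_succ c).not_ge (h3.trans ((mul_le_mul' hT (ciSup_le' h2)).trans
      (mul_eq_self hc).le))

theorem rank_PB {P K L : Type} [Preorder P] [LinearOrder L] [WellFoundedLT L]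
    (W : P → ℕ → Set K → Prop) (α : K) : ∃ R : L → P → ℕ → Set K → Prop, ∀ β q n X,
      R β q n X ↔ ∀ X', ∀ r ≤ q, W r (n + 1) X' → α ∈ X' → X' ⊆ X →
        ∃ s ≤ r, ∃ β' < β, R β' s (n + 1) X' := by
  refine ⟨(wellFounded_lt (α := L)).fix fun β ih q n X => ∀ X', ∀ r ≤ q, W r (n + 1) X' →
    α ∈ X' → X' ⊆ X → ∃ s ≤ r, ∃ β', ∃ h : β' < β, ih β' h s (n + 1) X', fun β q n X => ?_⟩
  rw [WellFounded.fix_eq]
  simp only [exists_prop]

theorem pb (hP : PW_st) (hL : LEAST_st) (hS : SEL_st) (hN : ND_st) : PB_st := by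
  intro P _ K _ F hD hF W p S hSF mono sub dis mx ref
  obtain ⟨L, _, _, ⟨l0⟩, hb⟩ := long_PB (P × Set K)
  have : Nonempty L := ⟨l0⟩
  choose R hR using rank_PB (L := L) W
  have Rm : ∀ α β q r n X, r ≤ q → R α β q n X → R α β r n X := fun α β q r n X h k =>
    (hR α β r n X).2 fun X' r' hr' => (hR α β q n X).1 k X' r' (hr'.trans h)
  by_cases h1 : ∃ q ≤ p, ∃ X α, α ∈ X ∧ W q 0 X ∧ ∀ r ≤ q, ∀ β, ¬ R α β r 0 X
  · obtain ⟨q, hq, X, α, hα, hW, hn⟩ := h1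
    obtain ⟨q', hq', x, hx⟩ := hS P (Set K) (hP P K (Set K) (hD _)).2
      (fun r n X => W r n X ∧ α ∈ X ∧ ∀ r' ≤ r, ∀ β, ¬ R α β r' n X) (fun X X' => X' ⊆ X)
      (fun q r n X h k => ⟨mono q r n X h k.1, k.2.1, fun r' hr' => k.2.2 r' (hr'.trans h)⟩)
      q X ⟨hW, hα, hn⟩ (by
        intro q' _ n Y hY
        by_contra hc
        have key : ∀ t : P × Set K, t.1 ≤ q' → W t.1 (n + 1) t.2 → α ∈ t.2 → t.2 ⊆ Y →
            ∃ β, ∃ s ≤ t.1, R α β s (n + 1) t.2 := by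
          intro t a1 a2 a3 a4
          by_contra hk
          exact hc ⟨t.1, a1, t.2, ⟨a2, a3, fun r' hr' β e => hk ⟨β, r', hr', e⟩⟩, a4⟩
        choose! g hg using key
        obtain ⟨b, hb⟩ := hb g
        refine hY.2.2 q' le_rfl b ((hR α b q' n Y).2 fun X' r a1 a2 a3 a4 => ?_)
        obtain ⟨s, hs, e⟩ := hg (r, X') a1 a2 a3 a4
        exact ⟨s, hs, g (r, X'), hb _, e⟩)
    refine ⟨q', hq'.trans hq, x, α, fun n => ⟨?_, (hx n).1, fun r hr => ?_⟩⟩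
    · obtain ⟨s, -, e⟩ := (hx n).2 q' le_rfl
      exact e.2.1
    · obtain ⟨s, hs, e⟩ := (hx n).2 r hr
      exact ⟨s, hs, e.1⟩
  exfalso
  have all : ∀ n, ∀ q ≤ p, ∀ X α, α ∈ X → W q n X → ∃ r ≤ q, ∃ β, R α β r n X := by
    intro n
    induction n with
    | zero =>
      intro q hq X α hα hW
      by_contra hc
      exact h1 ⟨q, hq, X, α, hα, hW, fun r hr β e => hc ⟨r, hr, β, e⟩⟩
    | succ n ih =>
      intro q hq X α hα hW
      obtain ⟨r, hr, Y, hY, hXY⟩ := ref q hq n X hW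
      obtain ⟨r₁, hr₁, β, e⟩ := ih r (hr.trans hq) Y α (hXY hα) hY
      obtain ⟨s, hs, β', -, e'⟩ := (hR α β r₁ n Y).1 e X r₁ le_rfl
        (mono q r₁ _ X (hr₁.trans hr) hW) hα hXY
      exact ⟨s, hs.trans (hr₁.trans hr), β', e'⟩
  have least : ∀ q ≤ p, ∀ n X, W q n X → ∃ q' ≤ q, ∃ f : K → L, ∀ a,
      (∀ r ≤ q', ∃ s ≤ r, (a ∈ X → R a (f a) s n X)) ∧
        ∀ v < f a, ∀ r ≤ q', ¬ (a ∈ X → R a v r n X) := fun q hq n X hW =>
    hL P K L (hD L) (fun r a β => a ∈ X → R a β r n X)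
      (fun q r a v h k ha => Rm a v q r n X h (k ha)) q fun q' hq' a => by
        by_cases ha : a ∈ X
        · obtain ⟨r, hr, β, e⟩ := all n q' (hq'.trans hq) X a ha (mono q q' n X hq' hW)
          exact ⟨r, hr, β, fun _ => e⟩
        · exact ⟨q', le_rfl, l0, fun k => (ha k).elim⟩
  obtain ⟨r₀, hr₀, X₀, hW₀, hp₀⟩ := mx p le_rfl 0 S Subset.rfl hSF
  obtain ⟨q₀, hq₀, f₀, hf₀⟩ := least r₀ hr₀ 0 X₀ hW₀
  refine hN K L {t : P × ℕ × Set K × (K → L) × Set K // t.1 ≤ p ∧ W t.1 t.2.1 t.2.2.1 ∧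
      t.2.2.2.2 ⊆ t.2.2.1 ∧ ∀ a,
        (∀ r ≤ t.1, ∃ s ≤ r, (a ∈ t.2.2.1 → R a (t.2.2.2.1 a) s t.2.1 t.2.2.1)) ∧
        ∀ v < t.2.2.2.1 a, ∀ r ≤ t.1, ¬ (a ∈ t.2.2.1 → R a v r t.2.1 t.2.2.1)} F hF
    (fun t => t.1.2.2.2.2) (fun t => t.1.2.2.2.1)
    ⟨(q₀, 0, X₀, f₀, X₀ ∩ S), hq₀.trans hr₀, mono r₀ q₀ 0 X₀ hq₀ hW₀, inter_subset_left, hf₀⟩
    hp₀ ?_
  rintro ⟨⟨q, n, X, f, B⟩, hq, hW, hB, hf⟩ S' hS' hpos
  have hSX : S' ⊆ X := hS'.trans hB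
  obtain ⟨r, hr, X', hW', hp'⟩ := mx q hq (n + 1) S' (hSX.trans (sub q hq n X hW)) hpos
  obtain ⟨r', hr', Y, hY, hXY⟩ := ref r (hr.trans hq) n X' hW'
  have hr'p : r' ≤ p := hr'.trans (hr.trans hq)
  obtain rfl : X = Y := by
    by_contra hne
    refine hp' (Filter.mem_of_superset
      (dis r' hr'p n X Y (mono q r' n X (hr'.trans hr) hW) hY hne) (compl_subset_compl.2 ?_))
    exact fun a ha => ⟨hSX ha.2, hXY ha.1⟩
  obtain ⟨q', hq', f', hf'⟩ := least r' hr'p (n + 1) X' (mono r r' _ X' hr' hW')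
  have hq'r : q' ≤ r := hq'.trans hr'
  refine ⟨⟨(q', n + 1, X', f', X' ∩ S'), hq'.trans hr'p, mono r q' _ X' hq'r hW',
    inter_subset_left, hf'⟩, inter_subset_right, hp', fun j hj => ?_⟩
  obtain ⟨s, hs, e⟩ := (hf j).1 q' (hq'r.trans hr)
  obtain ⟨s', hs', β, hβ, e'⟩ := (hR j (f j) s n X).1 (e (hXY hj.1)) X' s le_rfl
    (mono r s _ X' (hs.trans hq'r) hW') hj.1 hXY
  exact (not_lt.1 fun c => (hf' j).2 β c s' (hs'.trans hs) fun _ => e').trans_lt hβ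

end

theorem mainS : MAIN_st :=
  mainA tt pw (fin tt db pr) (small tt (om hull0)) (reg hull0 r1)
    (sing lad (win hull0 hull1 game) (tree recs) (col (be recs)))

theorem pbS : PB_st := pb pw least sel nd

end Pool.Agent.MP_249dba_lc
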