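import Pool.Agent.MP_249dba_lc.Pr.St2

namespace Pool.Agent.MP_249dba_lc

open Cardinal Set Filter Pool.Agent.MP_e34318_lc

section

theorem tr_BMain (P : Type) [Preorder P] (A Z W : Type) (h : #Z ≤ #W) (hD : Dist P A W) :
    Dist P A Z := by
  intro D p hFN
  refine tt P A Z W hD D p univ (by rw [mk_univ]; exact h) hFN fun q hq a => ?_
  obtain ⟨r, hr, z, hz⟩ := hFN.tot q hq a
  exact ⟨r, hr, z, mem_univ _, hz⟩

theorem main3 (P : Type) [Preorder P] (K : Type) [LinearOrder K] [WellFoundedLT K]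
    (hW : W1 K) (hPr : Proper P) (hB : Dist P K Bool) (ν : Cardinal.{0})
    (hκ : ∀ κ ≤ #P, κ ≤ ν → κ.ord.cof = #K → (∀ ρ < κ, ρ ^ #K < κ) → Dist P K κ.ord.ToType) :
    ∀ Z : Type, #Z ≤ ν → Dist P K Z := by
  have hKu : Uncountable K := hW.2
  have hK0 : ℵ₀ < #K := Cardinal.aleph0_lt_mk
  have tr : ∀ Z W : Type, #Z ≤ #W → Dist P K W → Dist P K Z := fun Z W => tr_BMain P K Z W
  suffices H : ∀ κ : Cardinal.{0}, κ ≤ ν → ∀ Z : Type, #Z = κ → Dist P K Z from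
    fun Z h => H _ h Z rfl
  intro κ
  induction κ using WellFoundedLT.induction with
  | ind κ IH =>
  intro hκν Z₀ hZ₀
  have IH' : ∀ W : Type, #W < κ → Dist P K W := fun W h => IH _ h (h.le.trans hκν) W rfl
  by_cases h1 : κ ≤ 2 ^ #K
  · refine tr Z₀ (K → Bool) ?_ (pw P K Bool hB).1
    rw [hZ₀, ← Cardinal.power_def, Cardinal.mk_bool]
    exact h1
  by_cases h2 : ∃ ρ < κ, κ ≤ ρ ^ #K
  · obtain ⟨ρ, hρ, h⟩ := h2
    refine tr Z₀ (K → ρ.out) ?_ (pw P K ρ.out (IH' _ (by rw [mk_out]; exact hρ))).1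
    rw [hZ₀, ← Cardinal.power_def, mk_out]
    exact h
  have h2' : ∀ ρ < κ, ρ ^ #K < κ := fun ρ hρ => not_le.1 fun h => h2 ⟨ρ, hρ, h⟩
  have hKκ : #K < κ := (cantor _).trans (not_le.1 h1)
  have hκ0 : ℵ₀ ≤ κ := (hK0.trans hKκ).le
  refine tr Z₀ κ.ord.ToType (by rw [hZ₀, mk_ord_toType]) ?_
  have hZ : #(κ.ord.ToType) = κ := mk_ord_toType κ
  have hIio : ∀ z : κ.ord.ToType, #(Iio z) < κ := fun z => by simpa using mk_Iio_lt z
  have hcof : Order.cof κ.ord.ToType = κ.ord.cof := Ordinal.cof_toType _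
  have hIic : ∀ z : κ.ord.ToType, #(Iic z) < κ := fun z => by
    rw [← Iio_insert]
    exact mk_insert_le.trans_lt
      (Cardinal.add_lt_of_lt hκ0 (hIio z) (Cardinal.one_lt_aleph0.trans_le hκ0))
  intro D p hFN
  by_contra hno
  have E : ∀ N : Set κ.ord.ToType, #N < #(κ.ord.ToType) →
      ∀ q ≤ p, ∃ r ≤ q, ∃ a z, D r a z ∧ z ∉ N := by
    intro N hN q hq
    by_contra hc
    have hc' : ∀ r ≤ q, ∀ a z, D r a z → z ∈ N := fun r hr a z hz =>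
      by_contra fun hn => hc ⟨r, hr, a, z, hz, hn⟩
    have hFq : FN D q := ⟨hFN.mono, hFN.func, fun q' hq' a => hFN.tot q' (hq'.trans hq) a⟩
    obtain ⟨q', hq', f, hf⟩ := tt P K _ N (IH' N (hN.trans_eq hZ)) D q N le_rfl hFq
      (fun q' hq' a => by
        obtain ⟨r, hr, z, hz⟩ := hFN.tot q' (hq'.trans hq) a
        exact ⟨r, hr, z, hc' r (hr.trans hq') a z hz, hz⟩)
    exact hno ⟨q', hq'.trans hq, f, hf⟩
  have hN : Dist P K ℕ := IH' ℕ (by rw [mk_nat]; exact hK0.trans hKκ)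
  have fin' : Comb K κ.ord.ToType → False := fun hC =>
    fin tt db pr P K _ hPr hB hN hC D p hFN E
  rcases (Ordinal.cof_ord_le κ).eq_or_lt with hc | hc
  · refine fin' (reg hull0 r1 K hW _ ?_
      (hKκ.trans_eq hZ.symm) fun z => (hIio z).trans_eq hZ.symm)
    rw [hZ]
    exact ⟨hκ0, hc.ge⟩
  by_cases h3 : κ.ord.cof ≤ ℵ₀ ∨ #K < κ.ord.cof
  · exact small tt (om hull0) P K _ hPr (fun W h => IH' W (h.trans_eq hZ)) (hKκ.trans_eq hZ.symm)
      (fun z => (hIic z).trans_eq hZ.symm) (by rw [hcof, hZ]; exact hc) (by rw [hcof]; exact h3)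
      D p hFN E
  have h4 : ℵ₀ < κ.ord.cof := not_le.1 fun h => h3 (Or.inl h)
  have h5 : κ.ord.cof = #K := le_antisymm (not_lt.1 fun h => h3 (Or.inr h))
    ((card_le_succ_Main K hW).trans (Order.succ_le_of_lt h4))
  have hκP : κ ≤ #P := by
    by_contra hlt
    have hN0 : #{z : κ.ord.ToType | ∃ q a, D q a z} ≤ #(P × K) := by
      have hch : ∀ z : {z : κ.ord.ToType | ∃ q a, D q a z}, ∃ x : P × K, D x.1 x.2 z.1 :=
        fun z => by
          obtain ⟨q, a, h⟩ := z.2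
          exact ⟨(q, a), h⟩
      choose g hg using hch
      refine mk_le_of_injective (f := g) fun z z' h => Subtype.ext ?_
      exact hFN.func _ _ _ _ (hg z) (h ▸ hg z')
    have hlt2 : #(P × K) < κ := by
      rw [← Cardinal.mul_def]
      exact Cardinal.mul_lt_of_lt hκ0 (not_le.1 hlt) hKκ
    obtain ⟨r, -, a, z, hz, hn⟩ := E _ ((hN0.trans_lt hlt2).trans_eq hZ.symm) p le_rfl
    exact hn ⟨r, a, hz⟩
  exact hno (hκ κ hκP hκν h5 h2' D p hFN)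

theorem dn : DN_st := by
  intro P _ K _ hPr hB
  have h1 : Dist P K ℕ := by
    refine tr_BMain P K ℕ (K → Bool) ?_ (pw P K Bool hB).1
    rw [← Cardinal.power_def, Cardinal.mk_bool, mk_nat]
    exact (aleph0_le_mk K).trans (cantor _).le
  refine ⟨h1, fun V D p hFN => ?_⟩
  obtain ⟨q, hq, X, hX, h⟩ := om hull0 P hPr V D p hFN
  have hFq : FN D q := ⟨hFN.mono, hFN.func, fun q' hq' a => hFN.tot q' (hq'.trans hq) a⟩
  obtain ⟨q', hq', f, hf⟩ := tt P ℕ V ℕ (pw P K ℕ h1).2 D q X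
    (by rw [mk_nat]; exact Cardinal.le_aleph0_iff_set_countable.2 hX) hFq
    fun r hr n => h n r hr
  exact ⟨q', hq'.trans hq, f, hf⟩

end

section

theorem abs_BPcf0 {G : Type} (lt : G → G → Prop) (tr : ∀ a b c, lt a b → lt b c → lt a c)
    (ir : ∀ a, ¬ lt a a) (bd : ∀ U : Set G, #U ≤ 𝔠 → ∃ g, ∀ u ∈ U, lt u g) :
    ∃ l : Cardinal.{0}, l.IsRegular ∧ 𝔠 < l ∧ ∃ h : l.ord.ToType → G,
      (∀ ξ ζ, ξ < ζ → lt (h ξ) (h ζ)) ∧ ∀ g, ∃ ξ, ¬ lt (h ξ) g := by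
  have : Nonempty G := (bd ∅ (by simp)).nonempty
  have hne : {c : Cardinal.{0} | ∃ U : Set G, (¬ ∃ g, ∀ u ∈ U, lt u g) ∧ #U = c}.Nonempty :=
    ⟨_, univ, fun ⟨g, hg⟩ => ir g (hg g trivial), rfl⟩
  obtain ⟨U, hU, hl⟩ := csInf_mem hne
  have hmin : ∀ V : Set G, #V < #U → ∃ g, ∀ v ∈ V, lt v g := fun V hV => by
    by_contra hn
    exact hV.not_ge (hl ▸ csInf_le' ⟨V, hn, rfl⟩)
  have hc : 𝔠 < #U := lt_of_not_ge fun h => hU (bd U h)
  have h0 : ℵ₀ ≤ #U := aleph0_le_continuum.trans hc.le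
  obtain ⟨e⟩ := Cardinal.eq.1 (mk_ord_toType #U)
  obtain ⟨h, h1, h2⟩ := recs (#U).ord.ToType G (· < ·) wellFounded_lt (fun ξ g => lt (e ξ) g)
    (fun _ v _ w => lt w v) fun j f _ => by
      obtain ⟨g, hg⟩ := hmin (insert (e j : G) (f '' Iio j)) (mk_insert_le.trans_lt
        (add_lt_of_lt h0 (mk_image_le.trans_lt (mk_Iio_toType_ord_lt j))
          (one_lt_aleph0.trans_le h0)))
      exact ⟨g, hg _ (mem_insert _ _), fun i hi => hg _ (mem_insert_of_mem _ ⟨i, hi, rfl⟩)⟩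
  have h3 : ∀ g, ∃ ξ, ¬ lt (h ξ) g := fun g => by
    by_contra hn
    push Not at hn
    refine hU ⟨g, fun u hu => tr _ _ _ ?_ (hn (e.symm ⟨u, hu⟩))⟩
    simpa using h1 (e.symm ⟨u, hu⟩)
  refine ⟨#U, ⟨h0, ?_⟩, hc, h, h2, h3⟩
  obtain ⟨C, hC, eC⟩ := Order.exists_cof_eq (#U).ord.ToType
  rw [← Ordinal.cof_toType, ← eC]
  by_contra hn
  obtain ⟨g, hg⟩ := hmin (h '' C) (mk_image_le.trans_lt (lt_of_not_ge hn))
  obtain ⟨ξ, hξ⟩ := h3 g
  obtain ⟨ζ, hζ, hle⟩ := hC ξ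
  rcases hle.eq_or_lt with rfl | hlt
  · exact hξ (hg _ ⟨_, hζ, rfl⟩)
  · exact hξ (tr _ _ _ (h2 _ _ hlt) (hg _ ⟨_, hζ, rfl⟩))

theorem pcf0 : PCF0_st := by
  intro L _ s hs
  obtain ⟨l, h1, h2, h, h3, h4⟩ := abs_BPcf0 (G := {g : ℕ → L // ∀ n, g n ∈ s n})
    (fun g g' => ∀ᶠ n in atTop, g.1 n < g'.1 n)
    (fun a b c h h' => (h.and h').mono fun n hn => hn.1.trans hn.2)
    (fun a h => by
      obtain ⟨n, hn⟩ := h.exists
      exact lt_irrefl _ hn)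
    (fun U hU => by
      choose z hz hz' using fun n => hs n ((fun g => g.1 n) '' U)
        (by rintro _ ⟨g, -, rfl⟩; exact g.2 n) (mk_image_le.trans hU)
      exact ⟨⟨z, hz⟩, fun u hu => Eventually.of_forall fun n => hz' n _ ⟨u, hu, rfl⟩⟩)
  exact ⟨l, h1, h2, fun ξ => (h ξ).1, fun ξ => (h ξ).2, h3, fun g hg => h4 ⟨g, hg⟩⟩

end

section

theorem bd_BPcf1 {l : Cardinal.{0}} (hl : l.IsRegular) {I : Type} (hI : #I < l)
    (f : I → l.ord.ToType) : ∃ z, ∀ i, f i < z := by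
  have h : ¬ IsCofinal (range f) := fun h => by
    have := (Order.cof_le h).trans mk_range_le
    rw [Ordinal.cof_toType, hl.cof_ord] at this
    exact this.not_gt hI
  obtain ⟨z, hz⟩ := not_isCofinal_iff.1 h
  exact ⟨z, fun i => hz _ ⟨i, rfl⟩⟩

theorem pt_BPcf1 {L : Type} [LinearOrder L] {s : ℕ → Set L} (hs : ∀ n, Bd (s n) 𝔠) {I : Type}
    (hI : #I ≤ 𝔠) (g : I → ℕ → L) (P : I → ℕ → Prop) (hg : ∀ i n, P i n → g i n ∈ s n) :
    ∃ g₀ : ℕ → L, (∀ n, g₀ n ∈ s n) ∧ ∀ i n, P i n → g i n < g₀ n := by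
  have h := fun n => hs n ((fun i => g i n) '' {i | P i n})
    (by rintro _ ⟨i, hi, rfl⟩; exact hg i n hi) (mk_image_le.trans ((mk_set_le _).trans hI))
  choose g₀ h₁ h₂ using h
  exact ⟨g₀, h₁, fun i n hi => h₂ n _ ⟨i, hi, rfl⟩⟩

theorem pcf1 (h : PCF0_st) : PCF1_st := by
  intro L _ s hs
  obtain ⟨l, hl, hc, f, hf, inc, unb⟩ := h L s hs
  have hN : #(Set ℕ) = 𝔠 := by rw [mk_set, mk_nat, two_power_aleph0]
  have hA : ∀ g : ℕ → L, ∃ A : Set ℕ, ∀ ξ, ∃ ζ, ξ < ζ ∧ {n | g n < f ζ n} = A := fun g => by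
    by_contra k
    push Not at k
    choose b hb using k
    obtain ⟨z, hz⟩ := bd_BPcf1 hl (hN.trans_lt hc) b
    exact hb _ z (hz _) rfl
  choose A hA using hA
  have sub : ∀ g ξ, ∀ᶠ n in atTop, g n < f ξ n → n ∈ A g := fun g ξ => by
    obtain ⟨ζ, hζ, e⟩ := hA g ξ
    filter_upwards [inc ξ ζ hζ] with n hn hg
    rw [← e]
    exact hg.trans hn
  have rep := fun B : {B : Set ℕ // ∃ g : ℕ → L, (∀ n, g n ∈ s n) ∧ A g = B} => B.2
  choose G hG hG' using rep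
  obtain ⟨g₀, h₀, h₁⟩ := pt_BPcf1 hs ((mk_subtype_le _).trans hN.le) G (fun _ _ => True)
    fun B n _ => hG B n
  refine ⟨A g₀, ?_, l, hl, hc, f, hf, inc, fun g hg => ?_⟩
  · obtain ⟨g', h₂, h₃⟩ := pt_BPcf1 hs (I := ℕ) (mk_nat.trans_le aleph0_le_continuum)
      (fun _ => g₀) (fun _ _ => True) fun _ n _ => h₀ n
    obtain ⟨ξ, hξ⟩ := unb g' h₂
    refine Nat.frequently_atTop_iff_infinite.1 ?_
    exact ((not_eventually.1 hξ).and_eventually (sub g₀ ξ)).mono fun n hn =>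
      hn.2 ((h₃ 0 n trivial).trans_le (not_lt.1 hn.1))
  · obtain ⟨ξ₀, -⟩ := unb g hg
    obtain ⟨ζ, -, e⟩ := hA g ξ₀
    obtain ⟨ξ, -, e₀⟩ := hA g₀ ξ₀
    refine ⟨ζ, ?_⟩
    filter_upwards [sub (G ⟨A g, g, hg, rfl⟩) ξ] with n hn hn'
    rw [← e₀] at hn'
    have := hn ((h₁ _ n trivial).trans hn')
    rw [hG'] at this
    change n ∈ A g at this
    rwa [← e] at this

theorem pcf (h : PCF1_st) : PCF_st := by
  classical
  intro L _ s hs
  obtain ⟨A, hA, l, hl, hc, f, hf, inc, dom⟩ := h L s hs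
  have ht : Tendsto (Nat.findGreatest fun n => n ∈ A) atTop atTop := tendsto_atTop.2 fun b => by
    obtain ⟨a, ha, hb⟩ := hA.exists_gt b
    filter_upwards [eventually_ge_atTop a] with j hj
    exact hb.le.trans (Nat.le_findGreatest hj ha)
  have hm : ∀ᶠ j in atTop, Nat.findGreatest (fun n => n ∈ A) j ∈ A := by
    obtain ⟨a, ha⟩ := hA.nonempty
    filter_upwards [eventually_ge_atTop a] with j hj
    exact Nat.findGreatest_spec (P := fun n => n ∈ A) hj ha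
  refine ⟨Nat.findGreatest fun n => n ∈ A, Nat.findGreatest_le, ht, l, hl, hc,
    fun ξ j => f ξ (Nat.findGreatest (fun n => n ∈ A) j), fun ξ j => hf _ _,
    fun ξ ζ k => ht.eventually (inc ξ ζ k), fun g hg => ?_⟩
  obtain ⟨g', h₂, h₃⟩ := pt_BPcf1 hs (I := ℕ) (mk_nat.trans_le aleph0_le_continuum)
    (fun i _ => g i) (fun i n => Nat.findGreatest (fun n => n ∈ A) i = n) fun i n e => e ▸ hg i
  obtain ⟨ξ, hξ⟩ := dom g' h₂
  refine ⟨ξ, ?_⟩
  filter_upwards [ht.eventually hξ, hm] with j hj hj'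
  exact (h₃ j _ rfl).trans (hj hj')

end

section

lemma rho_BBeat {K L : Type} [Infinite K] [LinearOrder L] (s : K → Set L) (F : Filter K)
    (hB : Big s F) (as : List K) : ∃ ρ : Cardinal.{0}, #(ℕ → K) ≤ ρ ∧ (∀ a ∈ as, #(s a) ≤ ρ) ∧
      {α | Bd (s α) ρ} ∈ F := by
  induction as with
  | nil =>
    obtain ⟨a⟩ : Nonempty K := inferInstance
    exact ⟨_, le_max_left _ _, fun _ h => absurd h List.not_mem_nil, hB.2 a⟩
  | cons a as ih =>
    obtain ⟨ρ, h1, h2, h3⟩ := ih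
    refine ⟨max ρ (max #(ℕ → K) #(s a)), h1.trans (le_max_left _ _), ?_, ?_⟩
    · intro b hb
      rcases List.mem_cons.1 hb with rfl | hb
      · exact (le_max_right _ _).trans (le_max_right _ _)
      · exact (h2 b hb).trans (le_max_left _ _)
    · rcases le_total ρ (max #(ℕ → K) #(s a)) with h | h
      · rw [max_eq_right h]
        exact hB.2 a
      · rw [max_eq_left h]
        exact h3

theorem beat : BEAT_st := by
  classical
  intro K L _ _ s F hB σ l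
  obtain ⟨ρ, h1, h2, h3⟩ := rho_BBeat s F hB (l.map Prod.snd)
  have hK : #K ≤ #(ℕ → K) :=
    mk_le_of_injective (f := fun (a : K) (_ : ℕ) => a) fun a b h => congrFun h 0
  have h0 : ℵ₀ ≤ ρ := ((aleph0_le_mk K).trans hK).trans h1
  let V : Set ((K → L) × K × L) :=
    {e | e.1 ∈ l.map Prod.fst ∧ e.2.1 ∈ l.map Prod.snd ∧ e.2.2 ∈ s e.2.1}
  have hV : #V ≤ ρ := by
    let A : Set ((K → L) × K) := {x | x.1 ∈ l.map Prod.fst ∧ x.2 ∈ l.map Prod.snd}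
    have hA : A.Finite :=
      ((List.finite_toSet (l.map Prod.fst)).prod (List.finite_toSet (l.map Prod.snd))).subset
        fun x hx => hx
    have hsub : V ⊆ ⋃ x : A, (fun z => (x.1.1, x.1.2, z)) '' s x.1.2 := by
      intro e he
      exact mem_iUnion.2 ⟨⟨(e.1, e.2.1), he.1, he.2.1⟩, e.2.2, he.2.2, rfl⟩
    refine (mk_le_mk_of_subset hsub).trans ((mk_iUnion_le _).trans ?_)
    refine le_trans (mul_le_mul' (hA.lt_aleph0.le.trans h0) (ciSup_le' fun x => ?_))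
      (mul_eq_self h0).le
    exact mk_image_le.trans (h2 _ x.2.2)
  let φ : (ℕ → K) × List V × ℕ → L := fun x => σ (x.1, x.2.1.map Subtype.val) x.2.2
  have hφ : #(range φ) ≤ ρ := by
    refine mk_range_le.trans ?_
    have hl : #(List V) ≤ ρ := (mk_list_le_max V).trans (max_le h0 hV)
    simp only [mk_prod, lift_id, mk_nat]
    calc #(ℕ → K) * (#(List V) * ℵ₀) ≤ ρ * (ρ * ρ) := mul_le_mul' h1 (mul_le_mul' hl h0)
      _ = ρ := by rw [mul_eq_self h0, mul_eq_self h0]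
  have hy : ∀ α, ∃ y ∈ s α, Bd (s α) ρ → ∀ t ∈ range φ ∩ s α, t < y := by
    intro α
    by_cases h : Bd (s α) ρ
    · obtain ⟨z, hz, hz'⟩ := h (range φ ∩ s α) inter_subset_right
        ((mk_le_mk_of_subset inter_subset_left).trans hφ)
      exact ⟨z, hz, fun _ => hz'⟩
    · obtain ⟨z, hz, -⟩ := hB.1 α ∅ (empty_subset _) (by simp)
      exact ⟨z, hz, fun h' => absurd h' h⟩
  choose y hy1 hy2 using hy
  refine ⟨y, hy1, mem_of_superset h3 fun α hα b l' e1 e2 m hm => ?_⟩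
  refine (hy2 α hα _ ⟨?_, hm⟩).le
  have hl' : ∀ e ∈ l', e ∈ V := fun e he =>
    ⟨e1 ▸ List.mem_map_of_mem he, (e2 e he).1, (e2 e he).2⟩
  refine ⟨(b, l'.attachWith _ hl', m), ?_⟩
  simp only [φ, List.attachWith_map_subtype_val]

theorem hop : HOP_st := by
  intro Y F₀
  have h : ∀ l : List Y, ∃ X : Set Y, #X ≤ ℵ₀ ∧
      (∀ l', (∀ x ∈ l', x ∈ X) → insert (F₀ l') {x | x ∈ l} ⊆ X) ∧
      ∀ M : Set Y, (∀ l', (∀ x ∈ l', x ∈ M) → insert (F₀ l') {x | x ∈ l} ⊆ M) → X ⊆ M := fun l =>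
    hull0 Y ℵ₀ (fun l' => insert (F₀ l') {x | x ∈ l}) le_rfl fun l' =>
      ((List.finite_toSet l).insert _).lt_aleph0.le
  choose H h1 h2 h3 using h
  refine ⟨H, fun l => ⟨le_aleph0_iff_set_countable.1 (h1 l), fun l' hl' => ?_, fun x hx => ?_⟩,
    fun l l' hl => h3 l (H l') fun l'' hl'' => ?_⟩
  · exact h2 l l' hl' (mem_insert _ _)
  · exact h2 l [] (fun _ h => absurd h List.not_mem_nil) (mem_insert_of_mem _ hx)
  · exact insert_subset (h2 l' l'' hl'' (mem_insert _ _)) hl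

theorem diag : DIAG_st := by
  intro K S F _ T hT B hB nxt
  have ht : ∀ l : List S, ∃ t : ℕ → Set K, insert Set.univ (T l) = range t := fun l =>
    ((hT l).1.insert Set.univ).exists_eq_range (insert_nonempty _ _)
  choose t ht using ht
  have htF : ∀ l j, t l j ∈ F := by
    intro l j
    have h : t l j ∈ insert Set.univ (T l) := ht l ▸ mem_range_self j
    rcases h with h | h
    · rw [h]
      exact univ_mem
    · exact (hT l).2 _ h
  have ha : ∀ l : List S, ∃ a ∈ B, ∀ l', l' <:+ l → ∀ j ≤ l.length, a ∈ t l' j := by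
    intro l
    have hfin : {l' : List S | l' <:+ l}.Finite :=
      (List.finite_toSet l.tails).subset fun l' h => (List.mem_tails _ _).2 h
    have h1 : (⋂ l' ∈ {l' : List S | l' <:+ l}, ⋂ j ∈ Iic l.length, t l' j) ∈ F :=
      (biInter_mem hfin).2 fun l' _ => (biInter_mem (finite_Iic _)).2 fun j _ => htF l' j
    obtain ⟨a, ha1, ha2⟩ := F.nonempty_of_mem (inter_mem hB h1)
    exact ⟨a, ha1, fun l' hl' j hj => mem_iInter₂.1 (mem_iInter₂.1 ha2 l' hl') j hj⟩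
  choose a ha1 ha2 using ha
  let l : ℕ → List S := fun n => Nat.rec [] (fun _ x => nxt x (a x) :: x) n
  have hl : ∀ n, l (n + 1) = nxt (l n) (a (l n)) :: l n := fun _ => rfl
  have hlen : ∀ n, (l n).length = n := by
    intro n
    induction n with
    | zero => rfl
    | succ n ih => rw [hl, List.length_cons, ih]
  have hsuf : ∀ m n, m ≤ n → l m <:+ l n := by
    intro m n h
    induction h with
    | refl => exact List.suffix_refl _
    | step _ ih => exact ih.trans (List.suffix_cons _ _)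
  refine ⟨fun n => a (l n), l, rfl, hl, fun n => ha1 _, fun m C hC => ?_⟩
  have hC' : C ∈ range (t (l m)) := ht (l m) ▸ mem_insert_of_mem _ hC
  obtain ⟨j, rfl⟩ := hC'
  filter_upwards [eventually_ge_atTop m, eventually_ge_atTop j] with n h1 h2
  exact ha2 (l n) (l m) (hsuf m n h1) j (by rw [hlen]; exact h2)

end

section

theorem r1m (Z : Type) [LinearOrder Z] [WellFoundedLT Z] (hθ : (#Z).IsRegular) (h0 : ℵ₀ < #Z)
    (hI : ∀ z : Z, #(Iio z) < #Z) (Ω : Type) [Nonempty Ω] (hΩ : #Ω ≤ #Z) :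
    ∃ c : Z → Ω, ∀ (f : Z → Z) (b : Ω), ∃ γ, c γ = b ∧
      (∀ z < γ, f z < γ) ∧ ∃ e : ℕ → Z, (∀ n, e n < γ) ∧ ∀ z < γ, ∃ n, z ≤ e n := by
  classical
  have h1 : (1 : Cardinal) < #Z := one_lt_aleph0.trans h0
  have hc : ∀ z : Z, #(Iic z) < #Z := fun z => by
    rw [← Iio_insert]
    exact mk_insert_le.trans_lt (add_lt_of_lt h0.le (hI z) h1)
  have bd : ∀ (z : Z) (g : ℕ × Iic z × Iic z → Z), ∃ y, ∀ t, g t < y := fun z g => by
    have h2 : #(ℕ × Iic z × Iic z) < #Z := by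
      simp only [mk_prod, lift_id, mk_nat]
      exact mul_lt_of_lt h0.le h0 (mul_lt_of_lt h0.le (hc z) (hc z))
    have h3 := (card_iUnion_lt_iff_forall_of_isRegular (t := fun t => Iic (g t)) hθ h2).2
      fun t => hc _
    by_contra h
    simp only [not_exists, not_forall, not_lt] at h
    rw [eq_univ_of_forall (s := ⋃ t, Iic (g t)) fun y => mem_iUnion.2 (h y), mk_univ] at h3
    exact h3.false
  obtain ⟨z₀⟩ : Nonempty Z := mk_ne_zero_iff.1 (zero_lt_one.trans h1).ne'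
  have R0 : ∀ f : Z → Z, ∃ γ, (∀ z < γ, f z < γ) ∧
      ∃ e : ℕ → Z, (∀ n, e n < γ) ∧ ∀ z < γ, ∃ n, z ≤ e n := fun f => by
    choose g hg using fun z => bd z fun t => f t.2.1
    obtain ⟨δ, hδ⟩ : ∃ δ : ℕ → Z, ∀ n, δ (n + 1) = g (δ n) :=
      ⟨fun n => g^[n] z₀, fun n => Function.iterate_succ_apply' g n z₀⟩
    obtain ⟨γ, h2, h3⟩ := WellFounded.has_min wellFounded_lt {y | ∀ n, δ n < y}
      ((bd z₀ fun t => δ t.1).imp fun y hy n => hy (n, ⟨z₀, le_rfl⟩, ⟨z₀, le_rfl⟩))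
    have h4 : ∀ z < γ, ∃ n, z ≤ δ n := fun z hz => by
      by_contra h
      simp only [not_exists, not_le] at h
      exact h3 z h hz
    refine ⟨γ, fun z hz => ?_, δ, h2, h4⟩
    obtain ⟨n, hn⟩ := h4 z hz
    exact (hg (δ n) (0, ⟨z, hn⟩, ⟨z, hn⟩)).trans (hδ n ▸ h2 (n + 1))
  obtain ⟨Sq, hSq⟩ : ∃ Sq : Z → Prop, ∀ γ, Sq γ ↔
    ∃ e : ℕ → Z, (∀ n, e n < γ) ∧ ∀ z < γ, ∃ n, z ≤ e n := ⟨_, fun _ => Iff.rfl⟩
  simp only [← hSq] at R0 ⊢
  have : Nonempty Z := ⟨z₀⟩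
  choose! e he using fun γ => (hSq γ).1
  obtain ⟨St, hSt⟩ : ∃ St : ℕ → Z → Prop, ∀ n η, St n η ↔
    ∀ f : Z → Z, ∃ γ, e γ n = η ∧ (∀ z < γ, f z < γ) ∧ Sq γ := ⟨_, fun _ _ => Iff.rfl⟩
  by_cases h : ∃ n, #Z ≤ #{η | St n η}
  · obtain ⟨n, hn⟩ := h
    obtain ⟨j⟩ := (Cardinal.le_def _ _).1 (hΩ.trans hn)
    have hj : Function.Injective fun b : Ω => (j b).1 := Subtype.val_injective.comp j.injective
    refine ⟨fun γ => Function.invFun (fun b : Ω => (j b).1) (e γ n), fun f b => ?_⟩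
    obtain ⟨γ, h5, h6⟩ := (hSt _ _).1 (j b).2 f
    refine ⟨γ, ?_, h6⟩
    show Function.invFun (fun b : Ω => (j b).1) (e γ n) = b
    rw [h5]
    exact Function.leftInverse_invFun hj b
  exfalso
  have h2 : ∀ n, ∃ η₀, ∀ η, η₀ < η →
      ∃ f : Z → Z, ∀ γ, ¬ (e γ n = η ∧ (∀ z < γ, f z < γ) ∧ Sq γ) := fun n => by
    have h3 : #{η | St n η} < #Z := not_le.1 fun k => h ⟨n, k⟩
    have h4 := (card_iUnion_lt_iff_forall_of_isRegular
      (t := fun t : {η | St n η} => Iic t.1) hθ h3).2 fun t => hc _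
    obtain ⟨η₀, h5⟩ : ∃ η₀, η₀ ∉ ⋃ t : {η | St n η}, Iic t.1 := by
      by_contra k
      simp only [not_exists, not_not] at k
      rw [eq_univ_of_forall k, mk_univ] at h4
      exact h4.false
    refine ⟨η₀, fun η h6 => by_contra fun h7 => h5 (mem_iUnion.2
      ⟨⟨η, (hSt _ _).2 fun f => ?_⟩, h6.le⟩)⟩
    exact not_forall_not.1 fun h8 => h7 ⟨f, h8⟩
  choose η₀ h2 using h2
  choose! F hF using h2
  choose f hf using fun z => bd z fun t => max (η₀ t.1) (F t.1 t.2.1 t.2.2)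
  obtain ⟨γ, h3, h4⟩ := R0 f
  obtain ⟨h5, h6⟩ := he γ h4
  obtain ⟨n, hn⟩ := h6 _ (h3 _ (h5 0))
  have h7 := (max_lt_iff.1 (hf (e γ 0) (n, ⟨_, le_rfl⟩, ⟨_, le_rfl⟩))).1
  refine hF n (e γ n) (h7.trans_le hn) γ ⟨rfl, fun z hz => ?_, h4⟩
  exact (max_lt_iff.1 (hf (max (e γ n) z) (n, ⟨_, le_max_left _ _⟩, ⟨_, le_max_right _ _⟩))).2.trans
    (h3 _ (max_lt (h5 n) hz))

theorem bd_BSc {Z : Type} [LinearOrder Z] (hθ : (#Z).IsRegular) (h0 : ℵ₀ < #Z)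
    (hI : ∀ z : Z, #(Iio z) < #Z) (z : Z) (g : List (Iic z) → Z) : ∃ y, ∀ t, g t < y := by
  have h1 : (1 : Cardinal) < #Z := one_lt_aleph0.trans h0
  have hc : ∀ z : Z, #(Iic z) < #Z := fun z => by
    rw [← Iio_insert]
    exact mk_insert_le.trans_lt (add_lt_of_lt h0.le (hI z) h1)
  have h2 : #(List (Iic z)) < #Z := (mk_list_le_max _).trans_lt (max_lt h0 (hc z))
  have h3 := (card_iUnion_lt_iff_forall_of_isRegular (t := fun t => Iic (g t)) hθ h2).2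
    fun t => hc _
  by_contra h
  simp only [not_exists, not_forall, not_lt] at h
  rw [eq_univ_of_forall (s := ⋃ t, Iic (g t)) fun y => mem_iUnion.2 (h y), mk_univ] at h3
  exact h3.false

theorem gen_BSc {Z L : Type} [LinearOrder Z] [WellFoundedLT Z] [LinearOrder L]
    (hθ : (#Z).IsRegular) (h0 : ℵ₀ < #Z) (hI : ∀ z : Z, #(Iio z) < #Z) (s : ℕ → Set L)
    (h : Z → ℕ → L) (h1 : ∀ ξ n, h ξ n ∈ s n) (h2 : ∀ ξ ζ, ξ < ζ → ∀ᶠ n in atTop, h ξ n < h ζ n)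
    (h3 : ∀ g : ℕ → L, (∀ n, g n ∈ s n) → ∃ ξ, ∀ᶠ n in atTop, g n < h ξ n)
    (Ω : Type) [Nonempty Ω] (hΩ : #Ω ≤ #Z) :
    ∃ cl : (ℕ → L) → Ω, ∀ Φ : List (ℕ → L) → ℕ → L, (∀ A n, Φ A n ∈ s n) → ∀ c : Ω,
    ∃ (u : ℕ → ℕ → L) (top : ℕ → L), (∀ k n, u k n ∈ s n) ∧
      (∀ k, ∀ᶠ n in atTop, Φ ((List.range (k + 1)).map u) n < top n) ∧
      ∀ x : ℕ → L, (∀ᶠ n in atTop, x n < top n) →
        (∀ k, ∃ k' ≥ k, ∀ᶠ n in atTop, u k' n ≤ x n) → cl x = c := by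
  obtain ⟨z₀⟩ : Nonempty Z := mk_ne_zero_iff.1 (aleph0_pos.trans h0).ne'
  have hp : ∀ x : ℕ → L, ∃ z, ∀ ξ, (∀ᶠ n in atTop, x n < h ξ n) →
      (∀ᶠ n in atTop, x n < h z n) ∧ z ≤ ξ := fun x => by
    by_cases e : ∃ ξ, ∀ᶠ n in atTop, x n < h ξ n
    · obtain ⟨z, a, b⟩ := WellFounded.has_min wellFounded_lt {ξ | ∀ᶠ n in atTop, x n < h ξ n} e
      exact ⟨z, fun ξ hξ => ⟨a, not_lt.1 (b ξ hξ)⟩⟩
    · exact ⟨z₀, fun ξ hξ => (e ⟨ξ, hξ⟩).elim⟩
  choose pos hpos using hp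
  obtain ⟨c, hc⟩ := r1m Z hθ h0 hI Ω hΩ
  refine ⟨fun x => c (pos x), fun Φ hΦ b => ?_⟩
  choose f hf using fun z : Z => bd_BSc hθ h0 hI z fun A => pos (Φ (A.map fun t => h t.1))
  obtain ⟨γ, g1, g2, e, g3, g4⟩ := hc f b
  have m1 : Monotone (partialSups e) := (partialSups e).monotone
  have m2 : ∀ k, partialSups e k < γ := fun k =>
    (partialSups_iff_forall (fun z => z < γ) max_lt_iff).2 fun j _ => g3 j
  have le : ∀ ξ ζ, ξ ≤ ζ → ∀ᶠ n in atTop, h ξ n ≤ h ζ n := fun ξ ζ l => by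
    rcases l.lt_or_eq with l | rfl
    · exact (h2 ξ ζ l).mono fun n => le_of_lt
    · exact Eventually.of_forall fun n => le_rfl
  refine ⟨fun k => h (partialSups e k), h γ, fun k n => h1 _ n, fun k => ?_, fun x hx hk => ?_⟩
  · have a1 := hf (partialSups e k) ((List.range (k + 1)).map fun j =>
      ⟨partialSups e (min j k), m1 (min_le_right j k)⟩)
    have a2 : ((List.range (k + 1)).map fun j =>
        (⟨partialSups e (min j k), m1 (min_le_right j k)⟩ : Iic (partialSups e k))).map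
        (fun t => h t.1) = (List.range (k + 1)).map fun k => h (partialSups e k) := by
      rw [List.map_map]
      refine List.map_congr_left fun j hj => ?_
      have : min j k = j := min_eq_left (Nat.lt_succ_iff.1 (List.mem_range.1 hj))
      simp only [Function.comp, this]
    rw [a2] at a1
    obtain ⟨ξ, hξ⟩ := h3 _ (hΦ ((List.range (k + 1)).map fun k => h (partialSups e k)))
    filter_upwards [(hpos _ ξ hξ).1, h2 _ _ (a1.trans (g2 _ (m2 k)))] with n p q using p.trans q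
  · obtain ⟨a1, a2⟩ := hpos x γ hx
    rcases a2.lt_or_eq with l | l
    · obtain ⟨n, hn⟩ := g4 _ l
      obtain ⟨k', b1, b2⟩ := hk n
      have b3 := le _ _ (hn.trans (le_partialSups_of_le e b1))
      obtain ⟨j, p, q, r⟩ := (a1.and (b3.and b2)).exists
      exact absurd (q.trans r) (not_le.2 p)
    · show c (pos x) = b
      rw [l, g1]

theorem sc : SC_st := by
  rintro L _ s ⟨l, hl, h0, h, h1, h2, h3⟩ Ω _ hΩ
  have e : #l.ord.ToType = l := mk_ord_toType l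
  exact gen_BSc (e.symm ▸ hl) ((aleph0_le_continuum.trans_lt h0).trans_eq e.symm)
    (fun z => (mk_Iio_toType_ord_lt z).trans_eq e.symm) s h h1 h2 h3 Ω
    ((hΩ.trans (Order.succ_le_of_lt h0)).trans_eq e.symm)

theorem slowk : SLOWK_st := by
  classical
  intro R hR
  choose m hm using fun k => eventually_atTop.1 (hR k)
  refine ⟨fun n => Nat.findGreatest (fun k => ∀ k' ≤ k, m k' ≤ n) n, fun a b l => ?_, ?_, ?_⟩
  · exact Nat.findGreatest_mono (fun k p k' q => (p k' q).trans l) l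
  · refine tendsto_atTop.2 fun b => ?_
    filter_upwards [eventually_ge_atTop b, eventually_ge_atTop ((Finset.range (b + 1)).sup m)]
      with n p q
    exact Nat.le_findGreatest p fun k' r =>
      (Finset.le_sup (f := m) (Finset.mem_range.2 (Nat.lt_succ_of_le r))).trans q
  · filter_upwards [eventually_ge_atTop (m 0)] with n p
    exact hm _ n (Nat.findGreatest_spec (P := fun k => ∀ k' ≤ k, m k' ≤ n) (Nat.zero_le n)
      (fun k' r => by rwa [Nat.le_zero.1 r]) _ le_rfl)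

end

section

/-- the list built from the first `n` values of `f` -/
def ls_BWin {E : Type} (f : ℕ → E) : ℕ → List E
  | 0 => []
  | n + 1 => f n :: ls_BWin f n

theorem len_BWin {E : Type} (f : ℕ → E) (n : ℕ) : (ls_BWin f n).length = n := by
  induction n with
  | zero => rfl
  | succ n ih => simp [ls_BWin, ih]

theorem mem_BWin {E : Type} (f : ℕ → E) (n : ℕ) : ∀ e ∈ ls_BWin f n, ∃ j < n, e = f j := by
  induction n with
  | zero => exact fun e he => absurd he List.not_mem_nil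
  | succ n ih =>
    intro e he
    rcases List.mem_cons.1 he with h | h
    · exact ⟨n, n.lt_succ_self, h⟩
    · obtain ⟨j, h1, h2⟩ := ih e h
      exact ⟨j, h1.trans n.lt_succ_self, h2⟩

theorem win2 (hB : BEAT_st) (hD : DIAG_st) (hP : PCF_st) : WIN2_st := by
  intro K L _ _ s F _ hbig B hBF Y ι ζ cq cd hζ hcd H hH1 hH2
  obtain ⟨z₀, -⟩ := hbig.1 (Classical.arbitrary K) ∅ (empty_subset _) (by simp)
  have : Nonempty (ℕ → L) := ⟨fun _ => z₀⟩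
  obtain ⟨W, σ, w1, w2, w3⟩ := game ((ℕ → K) × List ((K → L) × K × L)) (ℕ → L)
    (fun x u => ∀ n, u n ∈ s (x.1 n))
    (fun x u x' => x'.1 = x.1 ∧ Good s F ι ζ cq cd H x.1 x'.2 ∧ ∃ g z, (∀ α, g α ∈ s α) ∧
      (∀ᶠ n in atTop, u n ≤ g (x.1 n)) ∧ x'.2 = (g, x.1 x.2.length, z) :: x.2)
  choose y hy hDd using hB K L s F hbig σ
  let G : List ((K → L) × K) → List Y := fun l =>
    l.map (fun e => cq e.1) ++ l.map (fun e => ι e.2)
  obtain ⟨a, l, l0, lS, aB, hT⟩ := hD K ((K → L) × K) F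
    (fun l => insert {α | ∀ (b : ℕ → K) (l' : List ((K → L) × K × L)),
      l'.map Prod.fst = l.map Prod.fst → (∀ e ∈ l', e.2.1 ∈ l.map Prod.snd ∧ e.2.2 ∈ s e.2.1) →
      ∀ m, σ (b, l') m ∈ s α → σ (b, l') m ≤ y l α} {C | C ∈ F ∧ cd C ∈ H (G l)})
    (fun l => ⟨(((hH1 (G l)).1.preimage hcd).mono fun _ hC => hC.2).insert _, fun C hC => by
      rcases hC with rfl | hC
      exacts [hDd l, hC.1]⟩) B hBF (fun l a => (y l, a))
  obtain ⟨r, hr1, hr2, hsc⟩ := hP L (fun n => s (a n)) (fun n => hbig.1 _)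
  have hM : (⋃ n, H (G (l n))).Countable := countable_iUnion fun n => (hH1 _).1
  have hz : ∀ j, ∃ z ∈ s (a (r j)), ∀ t ∈ s (a (r j)), ζ t ∈ (⋃ n, H (G (l n))) → t < z := by
    intro j
    obtain ⟨z, h1, h2⟩ := hbig.1 (a (r j)) {t ∈ s (a (r j)) | ζ t ∈ ⋃ n, H (G (l n))}
      (fun _ h => h.1) ((le_aleph0_iff_set_countable.2
        ((hM.preimage hζ).mono fun _ h => h.2)).trans aleph0_le_continuum)
    exact ⟨z, h1, fun t h3 h4 => h2 t ⟨h3, h4⟩⟩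
  choose z hz1 hz2 using hz
  let l' : ℕ → List ((K → L) × K × L) := ls_BWin fun n => (y (l n), a (r n), z n)
  have f1 : ∀ n, (l' n).map Prod.fst = (l n).map Prod.fst := by
    intro n
    induction n with
    | zero => rw [l0]; rfl
    | succ n ih => rw [lS, List.map_cons, ← ih]; rfl
  have f2 : ∀ n, ∀ m < n, a m ∈ (l n).map Prod.snd := by
    intro n
    induction n with
    | zero => exact fun m hm => absurd hm (Nat.not_lt_zero m)
    | succ n ih =>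
      intro m hm
      rw [lS, List.map_cons]
      rcases Nat.lt_succ_iff_lt_or_eq.1 hm with h | rfl
      exacts [List.mem_cons_of_mem _ (ih m h), List.mem_cons_self]
  have f3 : ∀ n, ∀ e ∈ l' n, e.2.1 ∈ (l n).map Prod.snd ∧ e.2.2 ∈ s e.2.1 := by
    intro n e he
    obtain ⟨j, hj, rfl⟩ := mem_BWin _ n e he
    exact ⟨f2 n _ ((hr1 j).trans_lt hj), hz1 j⟩
  have f4 : ∀ n, H (gens ι cq (l' n)) ⊆ H (G (l n)) := by
    refine fun n => hH2 _ _ fun x hx => (hH1 _).2 x ?_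
    rcases List.mem_append.1 hx with h | h
    · obtain ⟨e, he, rfl⟩ := List.mem_map.1 h
      obtain ⟨e', he', h'⟩ := List.mem_map.1 (f1 n ▸ List.mem_map_of_mem (f := Prod.fst) he)
      exact List.mem_append_left _ (List.mem_map.2 ⟨e', he', by rw [h']⟩)
    · obtain ⟨e, he, rfl⟩ := List.mem_map.1 h
      obtain ⟨e', he', h'⟩ := List.mem_map.1 (f3 n e he).1
      exact List.mem_append_right _ (List.mem_map.2 ⟨e', he', by rw [h']⟩)
  have f5 : ∀ n, Good s F ι ζ cq cd H (fun j => a (r j)) (l' n) := by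
    refine fun n => ⟨fun e he => ⟨(f3 n e he).2, ?_⟩, fun C hC h =>
      hr2.eventually (hT n C (Or.inr ⟨hC, f4 n h⟩))⟩
    obtain ⟨j, -, rfl⟩ := mem_BWin _ n e he
    exact fun t h1 h2 => hz2 j t h1 (mem_iUnion.2 ⟨n, f4 n h2⟩)
  have f6 : ∀ n, ((fun j => a (r j)), l' n) ∉ W →
      ∀ᶠ m in atTop, σ ((fun j => a (r j)), l' n) m ≤ y (l n) (a (r m)) := by
    intro n hn
    filter_upwards [hr2.eventually (hT n _ (Or.inl rfl))] with m hm
    exact hm _ _ (f1 n) (f3 n) m ((w2 _ hn).1 m)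
  have f7 : ∀ n, l' (n + 1) = (y (l n), a (r (l' n).length), z n) :: l' n := by
    intro n
    rw [len_BWin]
    rfl
  have hW : ((fun j => a (r j)), l' 0) ∈ W := by
    by_contra h0
    have f8 : ∀ n, ((fun j => a (r j)), l' n) ∉ W := by
      intro n
      induction n with
      | zero => exact h0
      | succ n ih => exact (w2 _ ih).2 _ ⟨rfl, f5 _, _, _, hy _, f6 n ih, f7 n⟩
    exact w3 (fun n => ((fun j => a (r j)), l' n)) h0 fun n =>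
      ⟨rfl, f5 _, _, _, hy _, f6 n (f8 n), f7 n⟩
  refine ⟨fun j => a (r j), fun n => aB _, hsc, fun t => ((fun j => a (r j)), t) ∈ W ∧
    Good s F ι ζ cq cd H (fun j => a (r j)) t, ⟨hW, f5 0⟩, fun t ht => ⟨ht.2, fun u hu => ?_⟩⟩
  obtain ⟨⟨b', t'⟩, h1, h2, h3, g, w, h4, h5, h6⟩ := w1 _ ht.1 u hu
  dsimp only at h2 h3 h5 h6
  subst h2 h6
  exact ⟨g, w, h4, h5, h1, h3⟩

end

section

theorem lists_BCb {V : Type} (A : List V) : {A' : List V | ∀ u ∈ A', u ∈ A}.Countable := by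
  have hc : Countable {u : V // u ∈ A} := (List.finite_toSet A).countable.to_subtype
  refine (countable_range (List.map (Subtype.val : {u : V // u ∈ A} → V))).mono fun A' h => ?_
  exact CanLift.prf (β := List {u : V // u ∈ A}) A' h

theorem bound_BCb {V E L : Type} [LinearOrder L] (S : Set L) (hS : Bd S 𝔠) (play : List V → List E)
    (f : E → L) (A : List V) : ∃ t ∈ S, ∀ A' : List V, (∀ u ∈ A', u ∈ A) → ∀ e ∈ play A',
      f e ∈ S → f e < t := by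
  have hc : (S ∩ ⋃ A' ∈ {A' : List V | ∀ u ∈ A', u ∈ A}, f '' {e | e ∈ play A'}).Countable :=
    ((lists_BCb A).biUnion fun A' _ => (List.finite_toSet (play A')).countable.image f).mono
      inter_subset_right
  obtain ⟨t, ht, h⟩ := hS _ inter_subset_left
    ((le_aleph0_iff_set_countable.2 hc).trans aleph0_le_continuum)
  exact ⟨t, ht, fun A' hA e he hs => h _ ⟨hs, mem_biUnion hA ⟨e, he, rfl⟩⟩⟩

theorem union_BCb {Y : Type} (G : ℕ → Set Y) (hG : Monotone G) (l : List Y) :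
    (∀ x ∈ l, x ∈ ⋃ n, G n) → ∃ n, ∀ x ∈ l, x ∈ G n := by
  induction l with
  | nil => exact fun _ => ⟨0, by simp⟩
  | cons a l ih =>
    intro h
    obtain ⟨n, hn⟩ := ih fun x hx => h x (List.mem_cons_of_mem a hx)
    obtain ⟨m, hm⟩ := mem_iUnion.1 (h a List.mem_cons_self)
    refine ⟨max m n, fun x hx => ?_⟩
    rcases List.mem_cons.1 hx with rfl | hx
    · exact hG (le_max_left _ _) hm
    · exact hG (le_max_right _ _) (hn x hx)

theorem gens_BCb {K L Y : Type} (ι : K → Y) (cq : (K → L) → Y) (l : List ((K → L) × K × L))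
    (x : Y) : x ∈ gens ι cq l ↔ ∃ e ∈ l, cq e.1 = x ∨ ι e.2.1 = x := by
  simp only [gens, List.mem_append, List.mem_map]
  constructor
  · rintro (⟨e, h1, h2⟩ | ⟨e, h1, h2⟩)
    exacts [⟨e, h1, Or.inl h2⟩, ⟨e, h1, Or.inr h2⟩]
  · rintro ⟨e, h1, h2 | h2⟩
    exacts [Or.inl ⟨e, h1, h2⟩, Or.inr ⟨e, h1, h2⟩]

theorem cb2 (hH : HOP_st) (hW : WIN2_st) (hS : SC_st) (hK : SLOWK_st) : CB2_st := by
  intro K L _ _ s F _ Ω hΩ0 hΩ hB B hBF
  have hcl : ∀ b : ℕ → K, ∃ cl : (ℕ → L) → Ω, HasScale (fun n => s (b n)) →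
      ∀ Φ : List (ℕ → L) → ℕ → L, (∀ A n, Φ A n ∈ s (b n)) → ∀ c : Ω,
      ∃ (u : ℕ → ℕ → L) (top : ℕ → L), (∀ k n, u k n ∈ s (b n)) ∧
        (∀ k, ∀ᶠ n in atTop, Φ ((List.range (k + 1)).map u) n < top n) ∧
        ∀ x : ℕ → L, (∀ᶠ n in atTop, x n < top n) →
          (∀ k, ∃ k' ≥ k, ∀ᶠ n in atTop, u k' n ≤ x n) → cl x = c := by
    intro b
    by_cases h : HasScale fun n => s (b n)
    · obtain ⟨cl, hcl⟩ := hS L _ h Ω hΩ
      exact ⟨cl, fun _ => hcl⟩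
    · exact ⟨fun _ => hΩ0.some, fun h' => absurd h' h⟩
  choose cl hcl using hcl
  refine ⟨cl, fun Y ι ζ cq cd hζ hcd F₀ => ?_⟩
  obtain ⟨H, hH1, hH2⟩ := hH Y F₀
  obtain ⟨b, hb, hsc, W, W0, hW'⟩ := hW K L s F hB B hBF Y ι ζ cq cd hζ hcd H
    (fun l => ⟨(hH1 l).1, (hH1 l).2.2⟩) hH2
  refine ⟨b, hb, fun c => ?_⟩
  have hans : ∀ (l : List ((K → L) × K × L)) (u : ℕ → L), ∃ (g : K → L) (z : L), W l →
      (∀ n, u n ∈ s (b n)) → (∀ α, g α ∈ s α) ∧ (∀ᶠ n in atTop, u n ≤ g (b n)) ∧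
        W ((g, b l.length, z) :: l) := by
    intro l u
    by_cases h : W l ∧ ∀ n, u n ∈ s (b n)
    · obtain ⟨g, z, h'⟩ := (hW' l h.1).2 u h.2
      exact ⟨g, z, fun _ _ => h'⟩
    · exact ⟨fun _ => u 0, u 0, fun h1 h2 => absurd ⟨h1, h2⟩ h⟩
  choose g z hgz using hans
  obtain ⟨play, p0, ps⟩ : ∃ play : List (ℕ → L) → List ((K → L) × K × L), play [] = [] ∧
      ∀ u A, play (u :: A) = (g (play A) u, b (play A).length, z (play A) u) :: play A :=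
    ⟨List.foldr (fun u p => (g p u, b p.length, z p u) :: p) [], rfl, fun _ _ => rfl⟩
  choose Φ hΦ1 hΦ2 using fun (A : List (ℕ → L)) (n : ℕ) =>
    bound_BCb (s (b n)) (hB.1 (b n)) play (fun e => e.2.2) A
  obtain ⟨u, top, hu, htop, hcol⟩ := hcl b hsc Φ hΦ1 c
  obtain ⟨k, kmono, ktend, hk⟩ :=
    hK (fun k n => Φ ((List.range (k + 1)).map u) n < top n) htop
  obtain ⟨A, A0, As⟩ : ∃ A : ℕ → List (ℕ → L), A 0 = [] ∧ ∀ n, A (n + 1) = u (k n) :: A n :=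
    ⟨fun n => Nat.rec [] (fun n p => u (k n) :: p) n, rfl, fun _ => rfl⟩
  have hA : ∀ m, ∀ v ∈ A m, ∃ j < m, u (k j) = v := by
    intro m
    induction m with
    | zero => rw [A0]; simp
    | succ m ih =>
      intro v hv
      rw [As] at hv
      rcases List.mem_cons.1 hv with rfl | hv
      · exact ⟨m, Nat.lt_succ_self m, rfl⟩
      · obtain ⟨j, hj, e⟩ := ih v hv
        exact ⟨j, Nat.lt_succ_of_lt hj, e⟩
  have hP : ∀ n, (play (A n)).length = n ∧ W (play (A n)) := by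
    intro n
    induction n with
    | zero => rw [A0, p0]; exact ⟨rfl, W0⟩
    | succ n ih =>
      rw [As, ps]
      exact ⟨by rw [List.length_cons, ih.1], (hgz _ _ ih.2 (hu _)).2.2⟩
  have he : ∀ n, (g (play (A n)) (u (k n)), b n, z (play (A n)) (u (k n))) ∈ play (A (n + 1)) := by
    intro n
    rw [As, ps, (hP n).1]
    exact List.mem_cons_self
  have hmono : Monotone fun n => {e | e ∈ play (A n)} :=
    monotone_nat_of_le_succ fun n e h => by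
      show e ∈ play (A (n + 1))
      rw [As, ps]
      exact List.mem_cons_of_mem _ h
  have hG : Monotone fun n => H (gens ι cq (play (A n))) := by
    intro m n h
    refine hH2 _ _ fun x hx => (hH1 _).2.2 x ?_
    obtain ⟨e, h1, h2⟩ := (gens_BCb ι cq _ x).1 hx
    exact (gens_BCb ι cq _ x).2 ⟨e, hmono h h1, h2⟩
  refine ⟨⋃ n, H (gens ι cq (play (A n))), countable_iUnion fun n => (hH1 _).1, ?_, ?_, ?_⟩
  · intro l hl
    obtain ⟨n, hn⟩ := union_BCb _ hG l hl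
    exact mem_iUnion.2 ⟨n, (hH1 _).2.1 l hn⟩
  · intro n
    exact mem_iUnion.2 ⟨n + 1, (hH1 _).2.2 _ ((gens_BCb ι cq _ _).2 ⟨_, he n, Or.inr rfl⟩)⟩
  intro x hx hdom
  refine hcol x ?_ fun k0 => ?_
  · filter_upwards [hk] with n hn
    obtain ⟨m, hm⟩ := mem_iUnion.1 (hx n).2
    obtain ⟨h1, h2⟩ := (hW' _ (hP (max m (n + 1))).2).1.1 _ (hmono (le_max_right _ _) (he n))
    have h3 := h2 (x n) (hx n).1 (hG (le_max_left _ _) hm)
    refine (h3.trans (hΦ2 _ n (A (n + 1)) (fun v hv => ?_) _ (he n) h1)).trans hn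
    obtain ⟨j, hj, rfl⟩ := hA _ v hv
    exact List.mem_map.2 ⟨k j, List.mem_range.2
      (Nat.lt_succ_of_le (kmono (Nat.le_of_lt_succ hj))), rfl⟩
  · obtain ⟨j, hj⟩ := (ktend.eventually_ge_atTop k0).exists
    obtain ⟨h1, h2, -⟩ := hgz _ _ (hP j).2 (hu (k j))
    obtain ⟨C, hC, h3, h4⟩ := hdom _ h1 (mem_iUnion.2
      ⟨j + 1, (hH1 _).2.2 _ ((gens_BCb ι cq _ _).2 ⟨_, he j, Or.inl rfl⟩)⟩)
    obtain ⟨m, hm⟩ := mem_iUnion.1 h3
    refine ⟨k j, hj, ?_⟩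
    filter_upwards [h2, (hW' _ (hP m).2).1.2 C hC hm] with n a1 a2 using a1.trans (h4 n a2)

end

section

theorem loc_BFin {P K L : Type} [Preorder P] [Nonempty K] {D : P → K → L → Prop} {p q : P}
    (hF : FN D p) (hN : Dist P ℕ L) {T : Set K} (hT : T.Countable) (hq : q ≤ p) :
    ∃ r ≤ q, ∃ f : K → L, ∀ a ∈ T, ∀ r' ≤ r, ∃ t ≤ r', D t a (f a) := by
  obtain ⟨e, he⟩ := countable_iff_exists_subset_range.1 hT
  obtain ⟨r, hr, f, hf⟩ := hN (fun r n z => D r (e n) z) q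
    ⟨fun _ _ _ _ => hF.mono _ _ _ _, fun _ _ => hF.func _ _, fun r hr _ => hF.tot r (hr.trans hq) _⟩
  refine ⟨r, hr, fun a => f (Function.invFun e a), fun a ha r' hr' => ?_⟩
  have h := hf (Function.invFun e a) r' hr'
  rwa [Function.invFun_eq (he ha)] at h

/-- The auxiliary name used in `fin2`. -/
def D_BFin {P K L Y : Type} [Preorder P] [LinearOrder L] (D : P → K → L → Prop) (p : P)
    (F : Filter K) (s : K → Set L) (ι : K → Y) (ζ : L → Y) (cq : (K → L) → Y) (cd : Set K → Y)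
    (a₀ : K) (r : P) (l : List Y) (y : Y) : Prop :=
  (∃ a z, l = [ι a] ∧ D r a z ∧ y = ζ z) ∨
  (∃ g y₁ C, l = [cq g, y₁] ∧ (∀ α, g α ∈ s α) ∧ y = cd C ∧ r ≤ p ∧ C ∈ F ∧
    (∀ a ∈ C, ∀ r' ≤ r, ∀ z, D r' a z → g a ≤ z) ∧
    ∀ a ∉ C, ∀ r' ≤ r, ∀ z, D r' a z → z < g a) ∨
  ((¬ ∃ a, l = [ι a]) ∧ (¬ ∃ g y₁, l = [cq g, y₁] ∧ ∀ α, g α ∈ s α) ∧ y = ι a₀)

theorem fn_BFin {P K L Y : Type} [Preorder P] [LinearOrder L] {D : P → K → L → Prop} {p q₀ : P}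
    {F : Filter K} {s : K → Set L} {ι : K → Y} (ζ : L → Y) {cq : (K → L) → Y} (cd : Set K → Y)
    (a₀ : K) (hι : Function.Injective ι) (hc : Function.Injective cq) (hD : FN D p)
    (hq : q₀ ≤ p) (hB : Dist P K Bool) (E : Dom D p F s) :
    FN (D_BFin D p F s ι ζ cq cd a₀) q₀ := by
  refine ⟨?_, ?_, ?_⟩
  · intro q r l y hr h
    rcases h with ⟨a, z, h1, h2, h3⟩ | ⟨g, y₁, C, h1, h2, h3, h4, h5, h6, h7⟩ | h
    · exact Or.inl ⟨a, z, h1, hD.mono _ _ _ _ hr h2, h3⟩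
    · exact Or.inr (Or.inl ⟨g, y₁, C, h1, h2, h3, hr.trans h4, h5,
        fun a ha r' hr' => h6 a ha r' (hr'.trans hr), fun a ha r' hr' => h7 a ha r' (hr'.trans hr)⟩)
    · exact Or.inr (Or.inr h)
  · intro q l y y' h h'
    rcases h with ⟨a, z, h1, h2, h3⟩ | ⟨g, y₁, C, h1, h2, h3, h4, -, h6, h7⟩ | ⟨h1, h2, h3⟩
    · rcases h' with ⟨a', z', g1, g2, g3⟩ | ⟨g', y₁', C', g1, -⟩ | ⟨g1, -⟩
      · have e : a = a' := hι (by rw [h1] at g1; simpa using g1)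
        subst e
        rw [h3, g3, hD.func _ _ _ _ h2 g2]
      · rw [h1] at g1; simp at g1
      · exact absurd ⟨a, h1⟩ g1
    · rcases h' with ⟨a', z', g1, -⟩ | ⟨g', y₁', C', g1, -, g3, -, -, g6, g7⟩ | ⟨-, g1, -⟩
      · rw [h1] at g1; simp at g1
      · have e : g = g' := hc (by rw [h1] at g1; exact (List.cons.inj g1).1)
        subst e
        rw [h3, g3]
        congr 1
        ext a
        obtain ⟨r, hr, z, hz⟩ := hD.tot q h4 a
        exact ⟨fun k => by_contra fun k' => (h6 a k r hr z hz).not_gt (g7 a k' r hr z hz),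
          fun k => by_contra fun k' => (g6 a k r hr z hz).not_gt (h7 a k' r hr z hz)⟩
      · exact absurd ⟨g, y₁, h1, h2⟩ g1
    · rcases h' with ⟨a', z', g1, -⟩ | ⟨g', y₁', C', g1, g2, -⟩ | ⟨-, -, g1⟩
      · exact absurd ⟨a', g1⟩ h1
      · exact absurd ⟨g', y₁', g1, g2⟩ h2
      · rw [h3, g1]
  · intro q hq' l
    by_cases c1 : ∃ a, l = [ι a]
    · obtain ⟨a, ha⟩ := c1
      obtain ⟨r, hr, z, hz⟩ := hD.tot q (hq'.trans hq) a
      exact ⟨r, hr, ζ z, Or.inl ⟨a, z, ha, hz, rfl⟩⟩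
    by_cases c2 : ∃ g y₁, l = [cq g, y₁] ∧ ∀ α, g α ∈ s α
    · obtain ⟨g, y₁, hl, hg⟩ := c2
      obtain ⟨r', hr', C, hC, h1⟩ := E g hg q (hq'.trans hq)
      obtain ⟨r, hr, h2⟩ := db P K hB (fun r a => ∃ z, D r a z ∧ z < g a)
        (fun q r a h ⟨z, k1, k2⟩ => ⟨z, hD.mono _ _ _ _ h k1, k2⟩) r'
      refine ⟨r, hr.trans hr', cd {a | ∀ t ≤ r, ¬ ∃ z, D t a z ∧ z < g a}, Or.inr (Or.inl
        ⟨g, y₁, _, hl, hg, rfl, hr.trans (hr'.trans (hq'.trans hq)),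
          mem_of_superset hC fun a ha t ht ⟨z, k1, k2⟩ => (h1 a ha t (ht.trans hr) z k1).not_gt k2,
          fun a ha t ht z hz => not_lt.1 fun k => ha t ht ⟨z, hz, k⟩, fun a ha t ht z hz => ?_⟩)⟩
      obtain ⟨t', ht', z', k1, k2⟩ := (h2 a).resolve_right ha t ht
      rwa [hD.func _ _ _ _ (hD.mono _ _ _ _ ht' hz) k1]
    · exact ⟨q, le_rfl, ι a₀, Or.inr (Or.inr ⟨c1, c2, rfl⟩)⟩

theorem fin2 : FIN2_st := by
  classical
  intro P _ K _ hW L _ s F B hPr hB hN Ω hΩ hψ hC D p hF hs E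
  obtain ⟨col, hC⟩ := hC
  have := hW.2
  obtain ⟨a₀⟩ : Nonempty K := inferInstance
  have hch : ∀ G : (ℕ → K) → Ω, ∃ ω, ∀ b, G b ≠ ω := fun G => by
    by_contra h
    push Not at h
    exact (mk_le_of_surjective (f := G) h).not_gt hΩ
  choose ch hch using hch
  obtain ⟨ω₀⟩ : Nonempty Ω := mk_ne_zero_iff.1 ((zero_le).trans_lt hΩ).ne'
  obtain ⟨q₀, hq₀, ψ, hψ⟩ := hψ (fun r i ψ => ∃ f : K → L,
      (∀ a < i, ∀ r' ≤ r, ∃ t ≤ r', D t a (f a)) ∧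
        ψ = ch fun b => if ∀ n, b n < i then col b (fun n => f (b n)) else ω₀) p
    ⟨fun q r i ψ hr ⟨f, h1, h2⟩ => ⟨f, fun a ha r' hr' => h1 a ha r' (hr'.trans hr), h2⟩,
      fun q i ψ ψ' ⟨f, h1, h2⟩ ⟨f', h3, h4⟩ => by
        rw [h2, h4]
        congr 1
        funext b
        split_ifs with h
        · congr 1
          funext n
          obtain ⟨t, ht, k⟩ := h1 (b n) (h n) q le_rfl
          obtain ⟨t', ht', k'⟩ := h3 (b n) (h n) t ht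
          exact hF.func _ _ _ _ (hF.mono _ _ _ _ ht' k) k'
        · rfl,
      fun q hq i => by
        obtain ⟨r, hr, f, hf⟩ := loc_BFin hF hN (hW.1 i) hq
        exact ⟨r, hr, _, f, hf, rfl⟩⟩
  obtain ⟨Y, ι, ζ, cq, cd, i1, i2, i3, i4⟩ : ∃ (Y : Type) (ι : K → Y) (ζ : L → Y)
      (cq : (K → L) → Y) (cd : Set K → Y), Function.Injective ι ∧ Function.Injective ζ ∧
        Function.Injective cq ∧ Function.Injective cd :=
    ⟨K ⊕ L ⊕ (K → L) ⊕ Set K, .inl, .inr ∘ .inl, .inr ∘ .inr ∘ .inl, .inr ∘ .inr ∘ .inr,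
      Sum.inl_injective, Sum.inr_injective.comp Sum.inl_injective,
      Sum.inr_injective.comp (Sum.inr_injective.comp Sum.inl_injective),
      Sum.inr_injective.comp (Sum.inr_injective.comp Sum.inr_injective)⟩
  obtain ⟨F₀, hFF⟩ := pr P hPr Y _ q₀ (fn_BFin ζ cd a₀ i1 i3 hF hq₀ hB E)
  obtain ⟨b, hb, hc⟩ := hC Y ι ζ cq cd i2 i4 F₀
  obtain ⟨i, hi⟩ : ∃ i, ∀ n, b n < i := by
    by_contra h
    refine not_countable_univ (α := K) ((countable_iUnion fun n =>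
      (hW.1 (b n)).insert (b n)).mono fun i _ => ?_)
    obtain ⟨n, hn⟩ := not_forall.1 (not_exists.1 h i)
    exact mem_iUnion.2 ⟨n, (not_lt.1 hn).eq_or_lt⟩
  have key : False := by
    obtain ⟨X, hX, hcl, hι, hcol⟩ := hc (ψ i)
    obtain ⟨q, hq, hg⟩ := hFF X hX hcl
    obtain ⟨t, ht, f, hf, e⟩ := hψ i q hq
    refine hch _ b (Eq.trans ?_ e)
    refine (if_pos hi).trans (hcol _ (fun n => ?_) fun g h1 h2 => ?_)
    · obtain ⟨t', ht', y, hy, h⟩ := hg [ι (b n)] (by simpa using hι n) t ht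
      obtain ⟨u, hu, k⟩ := hf (b n) (hi n) t' ht'
      refine ⟨hs _ (hb n) u (hu.trans (ht'.trans (ht.trans (hq.trans hq₀)))) _ k, ?_⟩
      rcases h with ⟨a', z, h1, h2, h3⟩ | ⟨g, y₁, C, h1, -⟩ | ⟨h1, -⟩
      · have e : b n = a' := i1 (by simpa using h1)
        subst e
        rw [hF.func _ _ _ _ k (hF.mono _ _ _ _ hu h2), ← h3]
        exact hy
      · simp at h1
      · exact absurd ⟨_, rfl⟩ h1
    · obtain ⟨t', ht', y, hy, h⟩ := hg [cq g, cq g] (by simpa using h2) t ht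
      rcases h with ⟨a', z, k1, -⟩ | ⟨g', y₁, C, k1, -, k3, -, k5, k6, -⟩ | ⟨-, k1, -⟩
      · simp at k1
      · have e : g = g' := i3 (List.cons.inj k1).1
        subst e
        refine ⟨C, k5, k3 ▸ hy, fun n hn => ?_⟩
        obtain ⟨u, hu, k⟩ := hf (b n) (hi n) t' ht'
        exact k6 _ hn u hu _ k
      · exact absurd ⟨g, _, rfl, h1⟩ k1
  exact key

end

section

theorem const2 : CONST_st := by
  intro P _ K _ _ hK L _ s F _ B κ hB hκ hKκ hs hP hb hn D p hD hsB hDom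
  have hZ : #κ.ord.ToType = κ := mk_ord_toType κ
  have he : ∀ a, Nonempty (κ.ord.ToType ≃ s a) := fun a => Cardinal.eq.1 (hZ.trans (hs a).1.symm)
  have e : ∀ a, κ.ord.ToType ≃ s a := fun a => (he a).some
  obtain ⟨x0⟩ : Nonempty κ.ord.ToType := mk_ne_zero_iff.1 (hZ.symm ▸ hκ.pos.ne')
  have := hK.2
  have key : ∀ a ∈ B, ∀ q ≤ p, ∃ r ≤ q, ∃ x, D r a (e a x) := fun a ha q hq => by
    obtain ⟨r, hr, z, hz⟩ := hD.tot q hq a
    exact ⟨r, hr, (e a).symm ⟨z, hsB a ha r (hr.trans hq) z hz⟩, by simpa using hz⟩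
  refine fin tt db pr P K κ.ord.ToType hP hb hn
    (reg hull0 r1 K hK _ (hZ.symm ▸ hκ) (hZ.symm ▸ hKκ) fun z => ?_)
    (fun r a x => (a ∈ B ∧ D r a (e a x)) ∨ (a ∉ B ∧ x = x0)) p ⟨?_, ?_, ?_⟩ ?_
  · rw [hZ]
    exact mk_Iio_toType_ord_lt z
  · rintro q r a z h (⟨h1, h2⟩ | h1)
    · exact Or.inl ⟨h1, hD.mono q r a _ h h2⟩
    · exact Or.inr h1
  · rintro q a z z' (⟨h1, h2⟩ | ⟨h1, h2⟩) (⟨h3, h4⟩ | ⟨h3, h4⟩)
    · exact (e a).injective (Subtype.ext (hD.func q a _ _ h2 h4))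
    · exact absurd h1 h3
    · exact absurd h3 h1
    · exact h2.trans h4.symm
  · intro q hq a
    by_cases ha : a ∈ B
    · obtain ⟨r, hr, x, hx⟩ := key a ha q hq
      exact ⟨r, hr, x, Or.inl ⟨ha, hx⟩⟩
    · exact ⟨q, le_rfl, x0, Or.inr ⟨ha, rfl⟩⟩
  · intro N hN q hq
    rw [hZ] at hN
    choose g hg1 hg2 using fun a => (hs a).2 _ hN ((fun x => (e a x : L)) '' N)
      (by rintro _ ⟨x, -, rfl⟩; exact (e a x).2) mk_image_le
    obtain ⟨r, hr, C, hC, h⟩ := hDom g hg1 q hq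
    obtain ⟨a, ha1, ha2⟩ := Filter.nonempty_of_mem (inter_mem hC hB)
    obtain ⟨r', hr', x, hx⟩ := key a ha2 r (hr.trans hq)
    exact ⟨r', hr'.trans hr, a, x, Or.inl ⟨ha2, hx⟩,
      fun hxN => (hg2 a _ ⟨x, hxN, rfl⟩).not_ge (h a ha1 r' hr' _ hx)⟩

end

section

theorem cofset_BRed {L : Type} [LinearOrder L] [WellFoundedLT L] (I : Set L) :
    ∃ s ⊆ I, (∀ ρ < #s, Bd s ρ) ∧ (ℵ₀ < #s → (#s).IsRegular) ∧ ∀ z ∈ I, ∃ w ∈ s, z ≤ w := by
  obtain ⟨t, ht, hc⟩ := Order.exists_cof_eq I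
  have hs : #(Subtype.val '' t : Set L) = Order.cof I := by
    rw [Cardinal.mk_image_eq Subtype.val_injective, hc]
  refine ⟨Subtype.val '' t, ?_, ?_, ?_, ?_⟩
  · rintro _ ⟨y, -, rfl⟩
    exact y.2
  · intro ρ hρ T hT hTρ
    have h1 : #(Subtype.val ⁻¹' T : Set I) ≤ #T :=
      Cardinal.mk_preimage_of_injective _ _ Subtype.val_injective
    have h2 : ¬ IsCofinal (Subtype.val ⁻¹' T : Set I) := by
      intro h
      have := Order.cof_le h
      rw [hs] at hρ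
      exact absurd (this.trans (h1.trans hTρ)) (not_le.2 hρ)
    obtain ⟨x, hx⟩ := not_isCofinal_iff.1 h2
    obtain ⟨w, hw, hxw⟩ := ht x
    refine ⟨w.1, ⟨w, hw, rfl⟩, fun y hy => ?_⟩
    obtain ⟨y', -, rfl⟩ := hT hy
    exact lt_of_lt_of_le (hx y' hy) hxw
  · intro h
    rw [hs] at h ⊢
    exact ⟨h.le, (Order.cof_ord_cof I).ge⟩
  · intro z hz
    obtain ⟨w, hw, hxw⟩ := ht ⟨z, hz⟩
    exact ⟨w.1, ⟨w, hw, rfl⟩, hxw⟩

theorem red : RED_st := by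
  intro P _ K L _ _ F hD hF D p hFN S hS
  classical
  let T : Type := {x : P × Set K × (K → WithTop L) // x.1 ≤ p ∧ x.2.1 ⊆ S ∧
    ∀ a ∈ x.2.1, ∀ r ≤ x.1, ∀ z, D r a z → (z : WithTop L) < x.2.2 a}
  have h0 := nd K (WithTop L) T F hF (fun τ => τ.1.2.1) (fun τ => τ.1.2.2)
    ⟨(p, S, fun _ => ⊤), le_rfl, subset_rfl, fun _ _ _ _ z _ => WithTop.coe_lt_top z⟩ hS
  push Not at h0
  obtain ⟨⟨⟨q, B0, e⟩, hq, hB0, he⟩, B, hB, hBF, hmin⟩ := h0
  simp only at hq hB0 he hB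
  choose s hsI hs1 hs2 hs3 using fun a => cofset_BRed {z : L | (z : WithTop L) < e a}
  choose! u hu1 hu2 using hs3
  refine ⟨q, hq, B, hB.trans hB0, hBF, s, u, hs1, hs2, ?_, ?_⟩
  · intro a ha r hr z hz
    have := he a (hB ha) r hr z hz
    exact ⟨hu2 a z this, hu1 a z this⟩
  · intro g hg r hr
    obtain ⟨r', hr', hdb⟩ := db P K hD (fun r a => ∃ z, D r a z ∧ z < g a)
      (fun q r a hrq ⟨z, hz, hz'⟩ => ⟨z, hFN.mono q r a z hrq hz, hz'⟩) r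
    let A : Set K := {a | a ∈ B ∧ ∀ r₁ ≤ r', ∃ r₂ ≤ r₁, ∃ z, D r₂ a z ∧ z < g a}
    have hA : Aᶜ ∈ F := by
      by_contra hA
      have hτ : ∀ a ∈ A, ∀ r₁ ≤ r', ∀ z, D r₁ a z → (z : WithTop L) < (g a : WithTop L) := by
        intro a ha r₁ hr₁ z hz
        obtain ⟨r₂, h₂, z', hz', hlt⟩ := ha.2 r₁ hr₁
        rw [hFN.func r₂ a z z' (hFN.mono _ _ _ _ h₂ hz) hz']
        exact WithTop.coe_lt_coe.2 hlt
      obtain ⟨j, hj, hle⟩ := hmin ⟨(r', A, fun a => (g a : WithTop L)), hr'.trans (hr.trans hq),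
        fun a ha => hB0 (hB ha.1), hτ⟩ (fun a ha => ha.1) hA
      exact absurd (hsI j (hg j hj.1)) (not_lt.2 hle)
    refine ⟨r', hr', Aᶜ, hA, fun a ha r'' hr'' z hz => ?_⟩
    rcases hdb a with h | h
    · exact absurd ⟨ha.2, h⟩ ha.1
    · by_contra hlt
      exact h r'' hr'' ⟨z, hz, not_le.1 hlt⟩

end

section

theorem fn_BPo {P K L V : Type} [Preorder P] {D : P → K → L → Prop} {p q : P} (hD : FN D p)
    (hq : q ≤ p) (u : K → L → V) : FN (fun r a w => ∃ z, D r a z ∧ w = u a z) q where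
  mono := fun _ _ _ _ h ⟨z, h1, h2⟩ => ⟨z, hD.mono _ _ _ _ h h1, h2⟩
  func := fun _ _ _ _ ⟨_, h1, h2⟩ ⟨_, h3, h4⟩ => by rw [h2, h4, hD.func _ _ _ _ h1 h3]
  tot := fun r hr a => by
    obtain ⟨t, ht, z, hz⟩ := hD.tot r (hr.trans hq) a
    exact ⟨t, ht, u a z, z, hz, rfl⟩

theorem card_BPo (K : Type) [Infinite K] :
    #K ≤ #(ℕ → K) ∧ 𝔠 ≤ #(ℕ → K) := by
  refine ⟨mk_le_of_injective (f := fun a _ => a) fun a b h => congrFun h 0, ?_⟩
  rw [← power_def, mk_nat, ← two_power_aleph0]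
  exact power_le_power_right ((natCast_lt_aleph0 (n := 2)).le.trans (aleph0_le_mk K))

theorem inj_BPo {L V : Type} [Inhabited V] (s : Set L) :
    ∃ j : L → V, #s ≤ #V → InjOn j s := by
  classical
  by_cases h : #s ≤ #V
  · obtain ⟨e⟩ := (Cardinal.le_def _ _).1 h
    refine ⟨fun z => if h : z ∈ s then e ⟨z, h⟩ else default, fun _ a ha b hb hab => ?_⟩
    simp only [dif_pos ha, dif_pos hb] at hab
    exact congrArg Subtype.val (e.injective hab)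
  · exact ⟨fun _ => default, fun h' => absurd h' h⟩

theorem po (hR : RED_st) (hC : CONST_st) (hB : CB2_st) (hF : FIN2_st) (hN : DN_st) : PO_st := by
  classical
  intro P _ K _ _ hW F hP hb Ω _ k3 hΩ hν hpr L _ _ D p hD S hS
  obtain ⟨q, hq, B, hBS, hBp, s, u, c1, c2, c3, c4⟩ := hR P K L F hb hpr D p hD S hS
  have : Uncountable K := hW.2
  obtain ⟨k1, k2⟩ := card_BPo K
  by_cases hA : {a ∈ B | #(s a) ≤ #Ω}ᶜ ∈ F
  swap
  · choose j hj using fun a => inj_BPo (V := Ω) (s a)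
    obtain ⟨q', hq', f, hf⟩ := hν _ q (fn_BPo hD hq fun a z => j a (u a z))
    have h1 : ∀ a, ∃ w, (a ∈ B → w ∈ s a) ∧ (a ∈ B → #(s a) ≤ #Ω →
        ∀ r ≤ q', ∃ t ≤ r, ∃ z, D t a z ∧ u a z = w) := by
      intro a
      obtain ⟨t, ht, z, h1, h2⟩ := hf a q' le_rfl
      refine ⟨u a z, fun ha => (c3 a ha t (ht.trans hq') z h1).2, fun ha hs r hr => ?_⟩
      obtain ⟨t', ht', z', h3, h4⟩ := hf a r hr
      exact ⟨t', ht', z', h3, hj a hs (c3 a ha t' (ht'.trans (hr.trans hq')) z' h3).2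
        (c3 a ha t (ht.trans hq') z h1).2 (h4.symm.trans h2)⟩
    choose g g1 g2 using h1
    obtain ⟨r', hr', C, hCF, h2⟩ := c4 g g1 q' hq'
    refine ⟨r', hr'.trans (hq'.trans hq), C ∩ {a ∈ B | #(s a) ≤ #Ω},
      fun a ha => hBS ha.2.1, fun h => hA ?_, g, fun a ha r hr => ?_⟩
    · filter_upwards [h, hCF] with a h3 h4 h5 using h3 ⟨h4, h5⟩
    · obtain ⟨t, ht, z, h3, h4⟩ := g2 a ha.2.1 ha.2.2 r (hr.trans hr')
      have h5 := (c3 a ha.2.1 t (ht.trans (hr.trans (hr'.trans hq'))) z h3).1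
      rw [h4] at h5
      exact ⟨t, ht, le_antisymm h5 (h2 a ⟨ha.1, ha.2.1⟩ t (ht.trans hr) z h3) ▸ h3⟩
  exfalso
  have hD1 := fn_BPo hD hq u
  have he : ∀ a, ∃ w, a ∈ B → w ∈ s a := fun a => by
    obtain ⟨t, ht, z, hz⟩ := hD.tot q hq a
    exact ⟨u a z, fun ha => (c3 a ha t ht z hz).2⟩
  choose e he using he
  have key : ∀ B0 ⊆ B, B0ᶜ ∉ F → ∃ s' : K → Set L, (∀ a, ∃ a1 ∈ B0, s' a = s a1) ∧
      (∀ a ∈ B0, s' a = s a) ∧ (F ⊓ 𝓟 B0).NeBot ∧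
      (∀ a ∈ B0, ∀ r ≤ q, ∀ w, (∃ z, D r a z ∧ w = u a z) → w ∈ s' a) ∧
      Dom (fun r a w => ∃ z, D r a z ∧ w = u a z) q (F ⊓ 𝓟 B0) s' := by
    intro B0 h0 hp
    obtain ⟨a0, ha0⟩ : B0.Nonempty := by
      by_contra h
      rw [not_nonempty_iff_eq_empty.1 h, compl_empty] at hp
      exact hp univ_mem
    refine ⟨fun a => if a ∈ B0 then s a else s a0, fun a => ?_, fun a ha => if_pos ha,
      ⟨fun h => hp (inf_principal_eq_bot.1 h)⟩, ?_, fun g hg r hr => ?_⟩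
    · by_cases ha : a ∈ B0
      exacts [⟨a, ha, if_pos ha⟩, ⟨a0, ha0, if_neg ha⟩]
    · rintro a ha r hr _ ⟨z, hz, rfl⟩
      simp only [if_pos ha]
      exact (c3 a (h0 ha) r hr z hz).2
    · obtain ⟨r', hr', C, hCF, h2⟩ := c4 (fun a => if a ∈ B0 then g a else e a) (fun a ha => by
        by_cases h : a ∈ B0
        · simpa only [if_pos h] using hg a
        · simpa only [if_neg h] using he a ha) r hr
      refine ⟨r', hr', C ∩ B0, inter_mem_inf hCF (mem_principal_self _), ?_⟩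
      rintro a ha t ht _ ⟨z, hz, rfl⟩
      have h3 := h2 a ⟨ha.1, h0 ha.2⟩ t ht z hz
      simp only [if_pos ha.2] at h3
      exact h3.trans (c3 a (h0 ha.2) t (ht.trans (hr'.trans hr)) z hz).1
  obtain ⟨κ, hκ, hmin⟩ := Cardinal.lt_wf.has_min
    {κ | {a ∈ B | #Ω < #(s a) ∧ #(s a) ≤ κ}ᶜ ∉ F} ⟨#L, fun h => hBp (by
      filter_upwards [h, hA] with a h1 h2 h3
      exact h1 ⟨h3, not_le.1 fun h4 => h2 ⟨h3, h4⟩, mk_set_le _⟩)⟩
  by_cases h2 : {a ∈ B | #Ω < #(s a) ∧ #(s a) = κ}ᶜ ∈ F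
  swap
  · obtain ⟨s', s1, -, s3, s4, s5⟩ := key _ (fun _ h => h.1) h2
    obtain ⟨a0, ⟨-, h3, h4⟩, -⟩ := s1 (Classical.arbitrary K)
    have h5 : #K < #(s a0) := k1.trans_lt (k3.trans h3)
    refine hC P K hW L s' _ _ κ (mem_inf_of_right (mem_principal_self _))
      (h4 ▸ c2 a0 ((aleph0_le_mk K).trans_lt h5)) (h4 ▸ h5) (fun a => ?_) hP hb
      (hN P K hP hb).1 _ q hD1 s4 s5
    obtain ⟨a1, ⟨-, -, h6⟩, h7⟩ := s1 a
    rw [h7]
    exact ⟨h6, fun ρ hρ => c1 a1 ρ (h6 ▸ hρ)⟩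
  have h3 : {a ∈ B | #Ω < #(s a) ∧ #(s a) < κ}ᶜ ∉ F := fun h => hκ (by
    filter_upwards [h, h2] with a h4 h5 h6
    exact h6.2.2.lt_or_eq.elim (fun h7 => h4 ⟨h6.1, h6.2.1, h7⟩) fun h7 => h5 ⟨h6.1, h6.2.1, h7⟩)
  obtain ⟨s', s1, s2, s3, s4, s5⟩ := key _ (fun _ h => h.1) h3
  refine hF P K hW L s' _ _ hP hb ((hN P K hP hb).2 L) Ω k3 hν
    (hB K L s' _ Ω hΩ ⟨fun a => ?_, fun a => ?_⟩ _ (mem_inf_of_right (mem_principal_self _)))
    _ q hD1 s4 s5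
  · obtain ⟨a1, ⟨-, h4, -⟩, h5⟩ := s1 a
    rw [h5]
    exact c1 a1 _ (k2.trans_lt (k3.trans h4))
  · obtain ⟨a1, ⟨-, h4, h5⟩, h6⟩ := s1 a
    have h7 : max #(ℕ → K) #(s' a) < κ := max_lt (k3.trans (h4.trans h5)) (h6 ▸ h5)
    have h8 := not_not.1 fun h => hmin _ h h7
    rw [mem_inf_principal]
    filter_upwards [h8] with b h9 hb
    rw [s2 b hb]
    exact c1 b _ (not_le.1 fun h => h9 ⟨hb.1, hb.2.1, h⟩)

end

section

theorem least_BPb {P K L : Type} [Preorder P] [LinearOrder L] [WellFoundedLT L] {F : Filter K}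
    (hO : PO P F) (Q : P → K → L → Prop) (hQ : ∀ q r a v, r ≤ q → Q q a v → Q r a v) (p : P)
    (tot : ∀ q ≤ p, ∀ a, ∃ r ≤ q, ∃ v, Q r a v) (S : Set K) (hS : Sᶜ ∉ F) :
    ∃ q ≤ p, ∃ S' ⊆ S, S'ᶜ ∉ F ∧ ∃ f : K → L, ∀ a ∈ S',
      (∀ r ≤ q, ∃ s ≤ r, Q s a (f a)) ∧ ∀ v < f a, ∀ r ≤ q, ¬ Q r a v := by
  obtain ⟨q, hq, S', h1, h2, f, hf⟩ := hO L
    (fun r a β => Q r a β ∧ ∀ v < β, ∀ r' ≤ r, ¬ Q r' a v) p
    ⟨fun q r a z h k => ⟨hQ q r a z h k.1, fun v hv r' hr' => k.2 v hv r' (hr'.trans h)⟩,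
      fun q a z z' k k' => le_antisymm (not_lt.1 fun c => k.2 z' c q le_rfl k'.1)
        (not_lt.1 fun c => k'.2 z c q le_rfl k.1),
      fun q hq a => by
        obtain ⟨r, hr, v, e⟩ := tot q hq a
        obtain ⟨β, ⟨r₁, hr₁, e₁⟩, hm⟩ := (wellFounded_lt (α := L)).has_min
          {β | ∃ r ≤ q, Q r a β} ⟨v, r, hr, e⟩
        exact ⟨r₁, hr₁, β, e₁, fun v hv r' hr' e' => hm v ⟨r', hr'.trans hr₁, e'⟩ hv⟩⟩ S hS
  refine ⟨q, hq, S', h1, h2, f, fun a ha => ⟨fun r hr => ?_, fun v hv r hr e => ?_⟩⟩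
  · obtain ⟨s, hs, e⟩ := hf a ha r hr
    exact ⟨s, hs, e.1⟩
  · obtain ⟨s, hs, e'⟩ := hf a ha r hr
    exact e'.2 v hv s le_rfl (hQ r s a v hs e)

theorem pb2 : PB2_st := by
  intro P _ K F hD hO hF W p S hSF mono sub dis mx ref
  obtain ⟨L, _, _, ⟨l0⟩, hb⟩ := long_PB (P × Set K)
  have : Nonempty L := ⟨l0⟩
  choose R hR using rank_PB (L := L) W
  have Rm : ∀ α β q r n X, r ≤ q → R α β q n X → R α β r n X := fun α β q r n X h k =>
    (hR α β r n X).2 fun X' r' hr' => (hR α β q n X).1 k X' r' (hr'.trans h)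
  by_cases h1 : ∃ q ≤ p, ∃ X α, α ∈ X ∧ W q 0 X ∧ ∀ r ≤ q, ∀ β, ¬ R α β r 0 X
  · obtain ⟨q, hq, X, α, hα, hW, hn⟩ := h1
    obtain ⟨q', hq', x, hx⟩ := sel P (Set K) (hD _)
      (fun r n X => W r n X ∧ α ∈ X ∧ ∀ r' ≤ r, ∀ β, ¬ R α β r' n X) (fun X X' => X' ⊆ X)
      (fun q r n X h k => ⟨mono q r n X h k.1, k.2.1, fun r' hr' => k.2.2 r' (hr'.trans h)⟩)
      q X ⟨hW, hα, hn⟩ (by
        intro q' _ n Y hY
        by_contra hc
        have key : ∀ t : P × Set K, t.1 ≤ q' → W t.1 (n + 1) t.2 → α ∈ t.2 → t.2 ⊆ Y →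
            ∃ β, ∃ s ≤ t.1, R α β s (n + 1) t.2 := by
          intro t a1 a2 a3 a4
          by_contra hk
          exact hc ⟨t.1, a1, t.2, ⟨a2, a3, fun r' hr' β e => hk ⟨β, r', hr', e⟩⟩, a4⟩
        choose! g hg using key
        obtain ⟨b, hb⟩ := hb g
        refine hY.2.2 q' le_rfl b ((hR α b q' n Y).2 fun X' r a1 a2 a3 a4 => ?_)
        obtain ⟨s, hs, e⟩ := hg (r, X') a1 a2 a3 a4
        exact ⟨s, hs, g (r, X'), hb _, e⟩)
    refine ⟨q', hq'.trans hq, x, α, fun n => ⟨?_, (hx n).1, fun r hr => ?_⟩⟩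
    · obtain ⟨s, -, e⟩ := (hx n).2 q' le_rfl
      exact e.2.1
    · obtain ⟨s, hs, e⟩ := (hx n).2 r hr
      exact ⟨s, hs, e.1⟩
  exfalso
  have all : ∀ n, ∀ q ≤ p, ∀ X α, α ∈ X → W q n X → ∃ r ≤ q, ∃ β, R α β r n X := by
    intro n
    induction n with
    | zero =>
      intro q hq X α hα hW
      by_contra hc
      exact h1 ⟨q, hq, X, α, hα, hW, fun r hr β e => hc ⟨r, hr, β, e⟩⟩
    | succ n ih =>
      intro q hq X α hα hW
      obtain ⟨r, hr, Y, hY, hXY⟩ := ref q hq n X hW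
      obtain ⟨r₁, hr₁, β, e⟩ := ih r (hr.trans hq) Y α (hXY hα) hY
      obtain ⟨s, hs, β', -, e'⟩ := (hR α β r₁ n Y).1 e X r₁ le_rfl
        (mono q r₁ _ X (hr₁.trans hr) hW) hα hXY
      exact ⟨s, hs.trans (hr₁.trans hr), β', e'⟩
  have lst : ∀ q ≤ p, ∀ n X, W q n X → ∀ S' : Set K, S'ᶜ ∉ F →
      ∃ q' ≤ q, ∃ S'' ⊆ S', S''ᶜ ∉ F ∧ ∃ f : K → L, ∀ a ∈ S'',
      (∀ r ≤ q', ∃ s ≤ r, (a ∈ X → R a (f a) s n X)) ∧
        ∀ v < f a, ∀ r ≤ q', ¬ (a ∈ X → R a v r n X) := fun q hq n X hW S' hS' =>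
    least_BPb hO (fun r a β => a ∈ X → R a β r n X)
      (fun q r a v h k ha => Rm a v q r n X h (k ha)) q (fun q' hq' a => by
        by_cases ha : a ∈ X
        · obtain ⟨r, hr, β, e⟩ := all n q' (hq'.trans hq) X a ha (mono q q' n X hq' hW)
          exact ⟨r, hr, β, fun _ => e⟩
        · exact ⟨q', le_rfl, l0, fun k => (ha k).elim⟩) S' hS'
  obtain ⟨r₀, hr₀, X₀, hW₀, hp₀⟩ := mx p le_rfl 0 S Subset.rfl hSF
  obtain ⟨q₀, hq₀, B₀, hB₀, hp₁, f₀, hf₀⟩ := lst r₀ hr₀ 0 X₀ hW₀ _ hp₀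
  refine nd K L {t : P × ℕ × Set K × (K → L) × Set K // t.1 ≤ p ∧ W t.1 t.2.1 t.2.2.1 ∧
      t.2.2.2.2 ⊆ t.2.2.1 ∧ ∀ a ∈ t.2.2.2.2,
        (∀ r ≤ t.1, ∃ s ≤ r, (a ∈ t.2.2.1 → R a (t.2.2.2.1 a) s t.2.1 t.2.2.1)) ∧
        ∀ v < t.2.2.2.1 a, ∀ r ≤ t.1, ¬ (a ∈ t.2.2.1 → R a v r t.2.1 t.2.2.1)} F hF
    (fun t => t.1.2.2.2.2) (fun t => t.1.2.2.2.1)
    ⟨(q₀, 0, X₀, f₀, B₀), hq₀.trans hr₀, mono r₀ q₀ 0 X₀ hq₀ hW₀,
      hB₀.trans inter_subset_left, hf₀⟩ hp₁ ?_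
  rintro ⟨⟨q, n, X, f, B⟩, hq, hW, hB, hf⟩ S' hS' hpos
  have hSX : S' ⊆ X := hS'.trans hB
  obtain ⟨r, hr, X', hW', hp'⟩ := mx q hq (n + 1) S' (hSX.trans (sub q hq n X hW)) hpos
  obtain ⟨r', hr', Y, hY, hXY⟩ := ref r (hr.trans hq) n X' hW'
  have hr'p : r' ≤ p := hr'.trans (hr.trans hq)
  obtain rfl : X = Y := by
    by_contra hne
    refine hp' (Filter.mem_of_superset
      (dis r' hr'p n X Y (mono q r' n X (hr'.trans hr) hW) hY hne) (compl_subset_compl.2 ?_))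
    exact fun a ha => ⟨hSX ha.2, hXY ha.1⟩
  obtain ⟨q', hq', B', hB', hp'', f', hf'⟩ :=
    lst r' hr'p (n + 1) X' (mono r r' _ X' hr' hW') _ hp'
  have hq'r : q' ≤ r := hq'.trans hr'
  refine ⟨⟨(q', n + 1, X', f', B'), hq'.trans hr'p, mono r q' _ X' hq'r hW',
    hB'.trans inter_subset_left, hf'⟩, hB'.trans inter_subset_right, hp'', fun j hj => ?_⟩
  have hj' : j ∈ X' ∩ S' := hB' hj
  obtain ⟨s, hs, e⟩ := (hf j (hS' hj'.2)).1 q' (hq'r.trans hr)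
  obtain ⟨s', hs', β, hβ, e'⟩ := (hR j (f j) s n X).1 (e (hXY hj'.1)) X' s le_rfl
    (mono r s _ X' (hs.trans hq'r) hW') hj'.1 hXY
  exact (not_lt.1 fun c => (hf' j hj).2 β c s' (hs'.trans hs) fun _ => e').trans_lt hβ

end

theorem poS : PO_st :=
  po red const2 (cb2 hop (win2 beat diag (pcf (pcf1 pcf0))) sc slowk) fin2 dn

end Pool.Agent.MP_249dba_lc
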