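import Pool.Agent.MP_249dba_lc.Pr.St3

namespace Pool.Agent.MP_249dba_lc

open Cardinal Set Filter Pool.Agent.MP_e34318_lc

section

theorem PrL.mono {P : Type} [Preorder P] {μ ν : Cardinal.{0}} (h : PrL P μ) (k : ν ≤ μ) :
    PrL P ν := fun Z hZ => h Z (hZ.trans k)

theorem prB {P : Type} [Preorder P] {Y : Type} (hP : PrL P #Y) (D : P → List Y → Y → Prop)
    (p : P) (hD : FN D p) : ∃ F : List Y → Y, ∀ X : Set Y, X.Countable → Closed F X →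
    ∃ q ≤ p, ∀ l, (∀ x ∈ l, x ∈ X) → ∀ r ≤ q, ∃ s ≤ r, ∃ z ∈ X, D s l z := by
  by_contra hn
  obtain ⟨q, hq, X, hX, h⟩ := hP Y le_rfl p {X | X.Countable ∧
      ¬ ∃ q ≤ p, ∀ l, (∀ x ∈ l, x ∈ X) → ∀ r ≤ q, ∃ s ≤ r, ∃ z ∈ X, D s l z}
    (fun _ h => h.1) (fun F => by
      by_contra h
      refine hn ⟨F, fun X h1 h2 => ?_⟩
      by_contra h3
      exact h ⟨X, ⟨h1, h3⟩, h2⟩) D p le_rfl hD
  exact hX.2 ⟨q, hq, h⟩

theorem omB {P : Type} [Preorder P] {Y : Type} (hP : PrL P #Y) (D : P → ℕ → Y → Prop) (p : P)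
    (hD : FN D p) :
    ∃ q ≤ p, ∃ X : Set Y, X.Countable ∧ ∀ n, ∀ r ≤ q, ∃ s ≤ r, ∃ y ∈ X, D s n y := by
  obtain ⟨q, hq, X, hX, h1⟩ := hP Y le_rfl p {X | X.Countable} (fun _ h => h) (fun F => by
      obtain ⟨X, a, b, -⟩ := hull0 Y ℵ₀ (fun l => {F l}) le_rfl fun l => by simp
      exact ⟨X, le_aleph0_iff_set_countable.1 a, fun l hl => b l hl rfl⟩)
    (fun q l y => D q l.length y) p le_rfl ⟨fun q r a z => hD.mono q r _ z,
      fun q a z z' => hD.func q _ z z', fun q hq a => hD.tot q hq _⟩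
  obtain ⟨-, -, z, hz, -⟩ := h1 [] (fun _ h => absurd h List.not_mem_nil) q le_rfl
  refine ⟨q, hq, X, hX, fun n r hr => ?_⟩
  have := h1 (List.replicate n z) (fun x hx => (List.eq_of_mem_replicate hx).symm ▸ hz) r hr
  rwa [List.length_replicate] at this

def CombB (K Z : Type) [LinearOrder K] : Prop :=
  ∃ (Y : Type) (ι : K → Y) (ζ : Z → Y) (dec : Y → Set Z) (col : K → Set Z → Bool),
    #Y ≤ #Z ∧ Function.Injective ι ∧ Function.Injective ζ ∧ (∀ y, #(dec y) < #Z) ∧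
    ∀ F : List Y → Y, ∃ d : K, ∀ b : Bool, ∃ X : Set Y, X.Countable ∧ Closed F X ∧
      (∀ a, ι a ∈ X ↔ a < d) ∧
      ∀ x : Set Z, (∀ z ∈ x, ζ z ∈ X) → (∀ y ∈ X, ¬ x ⊆ dec y) → col d x = b

theorem regB (K : Type) [LinearOrder K] [WellFoundedLT K] (hK : W1 K) (Z : Type) [LinearOrder Z]
    [WellFoundedLT Z] (hθ : (#Z).IsRegular) (hKZ : #K < #Z) (hI : ∀ z : Z, #(Iio z) < #Z) :
    CombB K Z := by
  have h0 := hull0
  have h1 := r1
  classical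
  have := hK.2
  have hℵ : ℵ₀ < #Z := aleph0_lt_mk.trans hKZ
  have : Nonempty Z := mk_ne_zero_iff.1 (aleph0_pos.trans hℵ).ne'
  obtain ⟨ι⟩ := (le_def K Z).1 hKZ.le
  obtain ⟨c, hc⟩ := h1 Z hθ hℵ hI
  obtain ⟨lub, hlub⟩ : ∃ lub : Set Z → Z, ∀ (x : Set Z) (γ : Z), (∀ z ∈ x, z < γ) →
      (∀ δ < γ, ∃ z ∈ x, δ ≤ z) → lub x = γ := by
    have : ∀ x : Set Z, ∃ u : Z, ∀ γ : Z, (∀ z ∈ x, z < γ) → (∀ δ < γ, ∃ z ∈ x, δ ≤ z) →
        u = γ := fun x => by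
      by_cases h : ∃ γ : Z, (∀ z ∈ x, z < γ) ∧ ∀ δ < γ, ∃ z ∈ x, δ ≤ z
      · obtain ⟨u, u1, u2⟩ := h
        refine ⟨u, fun γ a1 a2 => le_antisymm (not_lt.1 fun e => ?_) (not_lt.1 fun e => ?_)⟩
        · obtain ⟨z, hz, k⟩ := u2 γ e
          exact (a1 z hz).not_ge k
        · obtain ⟨z, hz, k⟩ := a2 u e
          exact (u1 z hz).not_ge k
      · exact ⟨Classical.arbitrary Z, fun γ a1 a2 => absurd ⟨γ, a1, a2⟩ h⟩
    exact ⟨fun x => (this x).choose, fun x => (this x).choose_spec⟩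
  refine ⟨Z, ι, id, Iic, fun _ x => c (lub x), le_rfl, ι.injective, Function.injective_id,
    iic_Reg hθ hI, fun F => ?_⟩
  have hf : ∀ z : Z, ∃ y, (∀ a, ι a < y) ∧ ∀ l : List Z, (∀ x ∈ l, x ≤ z) → F l < y := fun z => by
    obtain ⟨y, hy⟩ := bound_Reg hθ hI
      (A := range ι ∪ range fun t : List (Iic z) => F (t.map Subtype.val))
      ((mk_union_le _ _).trans_lt (add_lt_of_lt hℵ.le (mk_range_le.trans_lt hKZ)
        (mk_range_le.trans_lt ((mk_list_le_max _).trans_lt (max_lt hℵ (iic_Reg hθ hI z))))))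
    refine ⟨y, fun a => hy _ (Or.inl ⟨a, rfl⟩), fun l hl => hy _ (Or.inr ?_)⟩
    lift l to List (Iic z) using hl
    exact ⟨l, rfl⟩
  choose f f1 f2 using hf
  choose γ g1 g2 e e1 e2 using hc f
  have i1 : ∀ b a, ι a < γ b := fun b a => (f1 _ a).trans (g2 b _ (e1 b 0))
  have i2 : ∀ b (l : List Z), (∀ x ∈ l, x < γ b) → F l < γ b := fun b l hl => by
    obtain ⟨z, hz, h⟩ := list_Reg (e1 b 0) l hl
    exact (f2 z l h).trans (g2 b z hz)
  obtain ⟨H, c1, c2, c3⟩ := h0 (Bool × Z) ℵ₀ (fun l =>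
    (fun b => (b, F (l.map Prod.snd))) '' {b | ∀ x ∈ l, x.1 = b} ∪
    (fun q : Bool × K => (q.1, ι q.2)) ''
      (Set.univ ×ˢ ⋃ x ∈ {x | x ∈ l}, ⋃ a ∈ ι ⁻¹' {x.2}, Iic a) ∪
    range fun q : Bool × ℕ => (q.1, e q.1 q.2)) le_rfl fun l => by
      refine le_aleph0_iff_set_countable.2 ((((to_countable _).image _).union
        ((countable_univ.prod (l.finite_toSet.countable.biUnion fun x _ =>
          ((countable_singleton _).preimage ι.injective).biUnion fun a _ => ?_)).image _)).union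
        (countable_range _))
      rw [← Iio_insert]
      exact (hK.1 a).insert a
  have cH := le_aleph0_iff_set_countable.1 c1
  have hM : ∀ q ∈ H, q.2 < γ q.1 := c3 {q | q.2 < γ q.1} fun l hl => by
    rintro _ ((⟨b, hb, rfl⟩ | ⟨q, -, rfl⟩) | ⟨q, rfl⟩)
    · refine i2 b _ fun x hx => ?_
      obtain ⟨y, hy, rfl⟩ := List.mem_map.1 hx
      exact hb y hy ▸ hl y hy
    · exact i1 _ _
    · exact e1 _ _
  have hD : ∀ b b' a a', (b, ι a) ∈ H → a' ≤ a → (b', ι a') ∈ H := fun b b' a a' h k =>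
    c2 [(b, ι a)] (by simpa using h) (Or.inl (Or.inr ⟨(b', a'), ⟨trivial, by simpa using k⟩, rfl⟩))
  have hne : {a : K | (true, ι a) ∉ H}.Nonempty := by
    by_contra h
    refine not_countable_univ (α := K) ((cH.preimage (f := fun a => (true, ι a))
      fun a a' k => ι.injective (Prod.ext_iff.1 k).2).mono fun a _ => ?_)
    exact not_not.1 fun k => h ⟨a, k⟩
  refine ⟨wellFounded_lt.min _ hne, fun b => ⟨{z | (b, z) ∈ H},
    cH.preimage (f := fun z => (b, z)) fun z z' k => (Prod.ext_iff.1 k).2, fun l hl => ?_,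
    fun a => ⟨fun h => not_le.1 fun k => wellFounded_lt.min_mem _ hne (hD b true a _ h k),
      fun h => hD true b a a (not_not.1 fun k => wellFounded_lt.not_lt_min _ k h) le_rfl⟩,
    fun x hx hy => ?_⟩⟩
  · refine c2 (l.map fun z => (b, z)) (fun q hq => ?_) (Or.inl (Or.inl ⟨b, fun q hq => ?_, ?_⟩))
    · obtain ⟨z, hz, rfl⟩ := List.mem_map.1 hq
      exact hl z hz
    · obtain ⟨z, -, rfl⟩ := List.mem_map.1 hq
      rfl
    · simp [Function.comp_def]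
  · change c (lub x) = b
    rw [hlub x (γ b) (fun z hz => hM _ (hx z hz)) fun δ hδ => ?_, g1]
    obtain ⟨n, hn⟩ := e2 b δ hδ
    obtain ⟨z, hz, k⟩ := not_subset.1 (hy (e b n) (c2 [] (by simp) (Or.inr ⟨(b, n), rfl⟩)))
    exact ⟨z, hz, hn.trans (not_le.1 k).le⟩

theorem finB (P : Type) [Preorder P] (K : Type) [LinearOrder K] [WellFoundedLT K] [Nonempty K]
    (Z : Type) (hPr : PrL P #Z) (hB : Dist P K Bool) (hN : Dist P K ℕ) (hC : CombB K Z)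
    (D : P → K → Z → Prop) (p : P) (hF : FN D p) :
    ¬ ∀ N : Set Z, #N < #Z → ∀ q ≤ p, ∃ r ≤ q, ∃ a z, D r a z ∧ z ∉ N := by
  intro E
  have hT := tt
  have hD := db
  obtain ⟨Y, ι, ζ, dec, col, hY, hι, hζ, hdec, hC⟩ := hC
  obtain ⟨a₀⟩ : Nonempty K := inferInstance
  obtain ⟨-, -, z₀, -⟩ := hF.tot p le_rfl a₀
  obtain ⟨q₀, hq₀, hdb⟩ := hD P K hB
    (fun r d => ∃ f : K → Z, (∀ a < d, ∀ r' ≤ r, ∃ s ≤ r', D s a (f a)) ∧
      col d (f '' Iio d) = true)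
    (fun q r d hr ⟨f, h1, h2⟩ => ⟨f, fun a ha r' hr' => h1 a ha r' (hr'.trans hr), h2⟩) p
  have hfn := fn_Fin D ι ζ dec a₀ p q₀ hι hF hq₀ (fun y => E _ (hdec y))
  obtain ⟨F, hFF⟩ := prB (hPr.mono hY) _ q₀ hfn
  obtain ⟨d, hd⟩ := hC F
  have key : ∀ b : Bool, ∃ r ≤ q₀, ∃ f : K → Z,
      (∀ a < d, ∀ r' ≤ r, ∃ s ≤ r', D s a (f a)) ∧ col d (f '' Iio d) = b := by
    intro b
    obtain ⟨X, hX, hcl, hiff, hcol⟩ := hd b
    obtain ⟨q, hq, hg⟩ := hFF X hX hcl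
    have one : ∀ a < d, ∀ r ≤ q, ∃ s ≤ r, ∃ z, ζ z ∈ X ∧ D s a z := by
      intro a ha r hr
      obtain ⟨s, hs, y, hy, h⟩ := hg [ι a] (by simpa using (hiff a).2 ha) r hr
      rcases h with ⟨a', z, h1, h2, h3⟩ | ⟨y₀, y₁, a', h1, -⟩ | ⟨h1, -⟩
      · have e : a = a' := hι (by simpa using h1)
        subst e
        exact ⟨s, hs, z, h3 ▸ hy, h2⟩
      · simp at h1
      · exact absurd ⟨a, rfl⟩ h1
    have two : ∀ y ∈ X, ∀ r ≤ q, ∃ s ≤ r, ∃ a < d, ∃ z, D s a z ∧ z ∉ dec y := by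
      intro y hy r hr
      obtain ⟨s, hs, y', hy', h⟩ := hg [y, y] (by simpa using hy) r hr
      rcases h with ⟨a', z, h1, -⟩ | ⟨y₀, y₁, a, h1, h2, h3, -⟩ | ⟨-, h1, -⟩
      · simp at h1
      · have e : y = y₀ := (List.cons.inj h1).1
        subst e
        exact ⟨s, hs, a, (hiff a).1 (h2 ▸ hy'), h3⟩
      · exact absurd ⟨y, y, rfl⟩ h1
    have hNc : (insert z₀ (ζ ⁻¹' X)).Countable := (hX.preimage_of_injOn hζ.injOn).insert z₀
    obtain ⟨r, hr, f, hf⟩ := hT P K Z ℕ hN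
      (fun r a z => (a < d ∧ D r a z) ∨ (¬ a < d ∧ z = z₀)) q (insert z₀ (ζ ⁻¹' X))
      (by rw [Cardinal.mk_nat]; exact hNc.le_aleph0)
      ⟨by
        intro q r a z hr h
        rcases h with ⟨h1, h2⟩ | h
        · exact Or.inl ⟨h1, hF.mono _ _ _ _ hr h2⟩
        · exact Or.inr h,
       by
        intro q a z z' h h'
        rcases h with ⟨h1, h2⟩ | ⟨h1, h2⟩ <;> rcases h' with ⟨g1, g2⟩ | ⟨g1, g2⟩
        · exact hF.func _ _ _ _ h2 g2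
        · exact absurd h1 g1
        · exact absurd g1 h1
        · rw [h2, g2],
       by
        intro q' hq' a
        by_cases ha : a < d
        · obtain ⟨s, hs, z, -, hz⟩ := one a ha q' hq'
          exact ⟨s, hs, z, Or.inl ⟨ha, hz⟩⟩
        · exact ⟨q', le_rfl, z₀, Or.inr ⟨ha, rfl⟩⟩⟩
      (by
        intro q' hq' a
        by_cases ha : a < d
        · obtain ⟨s, hs, z, hz', hz⟩ := one a ha q' hq'
          exact ⟨s, hs, z, Or.inr hz', Or.inl ⟨ha, hz⟩⟩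
        · exact ⟨q', le_rfl, z₀, Or.inl rfl, Or.inr ⟨ha, rfl⟩⟩)
    have hf' : ∀ a < d, ∀ r' ≤ r, ∃ s ≤ r', D s a (f a) := by
      intro a ha r' hr'
      obtain ⟨s, hs, h⟩ := hf a r' hr'
      rcases h with ⟨-, h⟩ | ⟨h, -⟩
      · exact ⟨s, hs, h⟩
      · exact absurd ha h
    refine ⟨r, hr.trans hq, f, hf', hcol _ ?_ ?_⟩
    · rintro _ ⟨a, ha, rfl⟩
      obtain ⟨s, hs, h⟩ := hf' a ha r le_rfl
      obtain ⟨s', hs', z, hz, h'⟩ := one a ha s (hs.trans hr)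
      rwa [hF.func _ _ _ _ (hF.mono _ _ _ _ hs' h) h']
    · intro y hy hsub
      obtain ⟨s, hs, a, ha, z, h, hz⟩ := two y hy r hr
      obtain ⟨s', hs', h'⟩ := hf' a ha s hs
      exact hz (hsub ⟨a, ha, hF.func _ _ _ _ h' (hF.mono _ _ _ _ hs' h)⟩)
  rcases hdb d with h | h
  · obtain ⟨r, hr, f, hf, hc⟩ := key false
    obtain ⟨s, hs, f', hf', hc'⟩ := h r hr
    have e : f '' Iio d = f' '' Iio d := by
      refine Set.image_congr ?_
      intro a ha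
      obtain ⟨s₁, hs₁, h₁⟩ := hf' a ha s le_rfl
      obtain ⟨s₂, hs₂, h₂⟩ := hf a ha s₁ (hs₁.trans hs)
      exact hF.func _ _ _ _ h₂ (hF.mono _ _ _ _ hs₂ h₁)
    rw [e, hc'] at hc
    exact Bool.noConfusion hc
  · obtain ⟨r, hr, hQ⟩ := key true
    exact h r hr hQ

theorem dn1B (P : Type) [Preorder P] (K : Type) [Infinite K] (hB : Dist P K Bool) (V : Type)
    (h : #V ≤ 2 ^ #K) : Dist P K V := by
  refine tr_BMain P K V (K → Bool) ?_ (pw P K Bool hB).1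
  rwa [← Cardinal.power_def, Cardinal.mk_bool]

theorem dn0B (P : Type) [Preorder P] (K : Type) [Infinite K] (hB : Dist P K Bool) :
    Dist P K ℕ := dn1B P K hB ℕ (mk_nat.trans_le ((aleph0_le_mk K).trans (cantor _).le))

theorem dn2B (P : Type) [Preorder P] (K : Type) [Infinite K] (hB : Dist P K Bool) (V : Type)
    (hPr : PrL P #V) : Dist P ℕ V := by
  intro D p hFN
  obtain ⟨q, hq, X, hX, h⟩ := omB hPr D p hFN
  have hFq : FN D q := ⟨hFN.mono, hFN.func, fun q' hq' a => hFN.tot q' (hq'.trans hq) a⟩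
  obtain ⟨q', hq', f, hf⟩ := tt P ℕ V ℕ (pw P K ℕ (dn0B P K hB)).2 D q X
    (by rw [mk_nat]; exact Cardinal.le_aleph0_iff_set_countable.2 hX) hFq
    fun r hr n => h n r hr
  exact ⟨q', hq'.trans hq, f, hf⟩

theorem omegaB (P : Type) [Preorder P] (K : Type) [LinearOrder K] [WellFoundedLT K] (hW : W1 K)
    (hB : Dist P K Bool) (c : Cardinal.{0}) (h0 : #K ≤ c) (hc : c ≤ 2 ^ #K)
    (hPr : PrL P (Order.succ c)) : Dist P K (Order.succ c).ord.ToType := by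
  have := hW.2
  have hZ : #(Order.succ c).ord.ToType = Order.succ c := mk_ord_toType _
  intro D p hFN
  by_contra hno
  refine finB P K _ (hZ.symm ▸ hPr) hB (dn0B P K hB) (regB K hW _
    (hZ.symm ▸ isRegular_succ ((aleph0_le_mk K).trans h0))
    (hZ.symm ▸ h0.trans_lt (Order.lt_succ c))
    fun z => (mk_Iio_toType_ord_lt z).trans_eq hZ.symm) D p hFN fun N hN q hq => ?_
  by_contra hc1
  have hc' : ∀ r ≤ q, ∀ a z, D r a z → z ∈ N := fun r hr a z hz =>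
    by_contra fun hn => hc1 ⟨r, hr, a, z, hz, hn⟩
  have hFq : FN D q := ⟨hFN.mono, hFN.func, fun q' hq' a => hFN.tot q' (hq'.trans hq) a⟩
  obtain ⟨q', hq', f, hf⟩ := tt P K _ N
    (dn1B P K hB N ((Order.lt_succ_iff.1 (hN.trans_eq hZ)).trans hc)) D q N le_rfl hFq
    (fun q' hq' a => by
      obtain ⟨r, hr, z, hz⟩ := hFN.tot q' (hq'.trans hq) a
      exact ⟨r, hr, z, hc' r (hr.trans hq') a z hz, hz⟩)
  exact hno ⟨q', hq'.trans hq, f, hf⟩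

theorem constB (P : Type) [Preorder P] (K : Type) [LinearOrder K] [WellFoundedLT K] (hK : W1 K)
    (L : Type) [LinearOrder L] (s : K → Set L) (F : Filter K) [F.NeBot] (B : Set K)
    (κ : Cardinal.{0}) (hB : B ∈ F) (hκ : κ.IsRegular) (hKκ : #K < κ)
    (hs : ∀ α, #(s α) = κ ∧ ∀ ρ < κ, Bd (s α) ρ) (hP : PrL P κ) (hb : Dist P K Bool)
    (hn : Dist P K ℕ) (D : P → K → L → Prop) (p : P) (hD : FN D p)
    (hsB : ∀ α ∈ B, ∀ r ≤ p, ∀ z, D r α z → z ∈ s α) : ¬ Dom D p F s := by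
  intro hDom
  have hZ : #κ.ord.ToType = κ := mk_ord_toType κ
  have he : ∀ a, Nonempty (κ.ord.ToType ≃ s a) := fun a => Cardinal.eq.1 (hZ.trans (hs a).1.symm)
  have e : ∀ a, κ.ord.ToType ≃ s a := fun a => (he a).some
  obtain ⟨x0⟩ : Nonempty κ.ord.ToType := mk_ne_zero_iff.1 (hZ.symm ▸ hκ.pos.ne')
  have := hK.2
  have key : ∀ a ∈ B, ∀ q ≤ p, ∃ r ≤ q, ∃ x, D r a (e a x) := fun a ha q hq => by
    obtain ⟨r, hr, z, hz⟩ := hD.tot q hq a
    exact ⟨r, hr, (e a).symm ⟨z, hsB a ha r (hr.trans hq) z hz⟩, by simpa using hz⟩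
  refine finB P K κ.ord.ToType (hZ.symm ▸ hP) hb hn
    (regB K hK _ (hZ.symm ▸ hκ) (hZ.symm ▸ hKκ) fun z => ?_)
    (fun r a x => (a ∈ B ∧ D r a (e a x)) ∨ (a ∉ B ∧ x = x0)) p ⟨?_, ?_, ?_⟩ ?_
  · rw [hZ]
    exact mk_Iio_toType_ord_lt z
  · rintro q r a z h (⟨h1, h2⟩ | h1)
    · exact Or.inl ⟨h1, hD.mono q r a _ h h2⟩
    · exact Or.inr h1
  · rintro q a z z' (⟨h1, h2⟩ | ⟨h1, h2⟩) (⟨h3, h4⟩ | ⟨h3, h4⟩)
    · exact (e a).injective (Subtype.ext (hD.func q a _ _ h2 h4))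
    · exact absurd h1 h3
    · exact absurd h3 h1
    · exact h2.trans h4.symm
  · intro q hq a
    by_cases ha : a ∈ B
    · obtain ⟨r, hr, x, hx⟩ := key a ha q hq
      exact ⟨r, hr, x, Or.inl ⟨ha, hx⟩⟩
    · exact ⟨q, le_rfl, x0, Or.inr ⟨ha, rfl⟩⟩
  · intro N hN q hq
    rw [hZ] at hN
    choose g hg1 hg2 using fun a => (hs a).2 _ hN ((fun x => (e a x : L)) '' N)
      (by rintro _ ⟨x, -, rfl⟩; exact (e a x).2) mk_image_le
    obtain ⟨r, hr, C, hC, h⟩ := hDom g hg1 q hq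
    obtain ⟨a, ha1, ha2⟩ := Filter.nonempty_of_mem (inter_mem hC hB)
    obtain ⟨r', hr', x, hx⟩ := key a ha2 r (hr.trans hq)
    exact ⟨r', hr'.trans hr, a, x, Or.inl ⟨ha2, hx⟩,
      fun hxN => (hg2 a _ ⟨x, hxN, rfl⟩).not_ge (h a ha1 r' hr' _ hx)⟩

theorem fin2B (P : Type) [Preorder P] (K : Type) [LinearOrder K] (hW : W1 K) (L : Type)
    [LinearOrder L] (s : K → Set L) (F : Filter K) (B : Set K)
    (hPr : PrL P #(K ⊕ L ⊕ (K → L) ⊕ Set K)) (hB : Dist P K Bool) (hN : Dist P ℕ L) (Ω : Type)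
    (hΩ : #(ℕ → K) < #Ω) (hψ : Dist P K Ω) (hC : Comb2 Ω s F B) (D : P → K → L → Prop) (p : P)
    (hF : FN D p) (hs : ∀ α ∈ B, ∀ r ≤ p, ∀ z, D r α z → z ∈ s α) : ¬ Dom D p F s := by
  classical
  intro E
  obtain ⟨col, hC⟩ := hC
  have := hW.2
  obtain ⟨a₀⟩ : Nonempty K := inferInstance
  have hch : ∀ G : (ℕ → K) → Ω, ∃ ω, ∀ b, G b ≠ ω := fun G => by
    by_contra h
    push Not at h
    exact (mk_le_of_surjective (f := G) h).not_gt hΩ
  choose ch hch using hch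
  obtain ⟨ω₀⟩ : Nonempty Ω := mk_ne_zero_iff.1 ((zero_le).trans_lt hΩ).ne'
  obtain ⟨q₀, hq₀, ψ, hψ⟩ := hψ (fun r i ψ => ∃ f : K → L,
      (∀ a < i, ∀ r' ≤ r, ∃ t ≤ r', D t a (f a)) ∧
        ψ = ch fun b => if ∀ n, b n < i then col b (fun n => f (b n)) else ω₀) p
    ⟨fun q r i ψ hr ⟨f, h1, h2⟩ => ⟨f, fun a ha r' hr' => h1 a ha r' (hr'.trans hr), h2⟩,
      fun q i ψ ψ' ⟨f, h1, h2⟩ ⟨f', h3, h4⟩ => by
        rw [h2, h4]
        congr 1
        funext b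
        split_ifs with h
        · congr 1
          funext n
          obtain ⟨t, ht, k⟩ := h1 (b n) (h n) q le_rfl
          obtain ⟨t', ht', k'⟩ := h3 (b n) (h n) t ht
          exact hF.func _ _ _ _ (hF.mono _ _ _ _ ht' k) k'
        · rfl,
      fun q hq i => by
        obtain ⟨r, hr, f, hf⟩ := loc_BFin hF hN (hW.1 i) hq
        exact ⟨r, hr, _, f, hf, rfl⟩⟩
  obtain ⟨Y, ι, ζ, cq, cd, hY, i1, i2, i3, i4⟩ : ∃ (Y : Type) (ι : K → Y) (ζ : L → Y)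
      (cq : (K → L) → Y) (cd : Set K → Y), PrL P #Y ∧ Function.Injective ι ∧ Function.Injective ζ ∧
        Function.Injective cq ∧ Function.Injective cd :=
    ⟨K ⊕ L ⊕ (K → L) ⊕ Set K, .inl, .inr ∘ .inl, .inr ∘ .inr ∘ .inl, .inr ∘ .inr ∘ .inr,
      hPr, Sum.inl_injective, Sum.inr_injective.comp Sum.inl_injective,
      Sum.inr_injective.comp (Sum.inr_injective.comp Sum.inl_injective),
      Sum.inr_injective.comp (Sum.inr_injective.comp Sum.inr_injective)⟩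
  obtain ⟨F₀, hFF⟩ := prB hY _ q₀ (fn_BFin ζ cd a₀ i1 i3 hF hq₀ hB E)
  obtain ⟨b, hb, hc⟩ := hC Y ι ζ cq cd i2 i4 F₀
  obtain ⟨i, hi⟩ : ∃ i, ∀ n, b n < i := by
    by_contra h
    refine not_countable_univ (α := K) ((countable_iUnion fun n =>
      (hW.1 (b n)).insert (b n)).mono fun i _ => ?_)
    obtain ⟨n, hn⟩ := not_forall.1 (not_exists.1 h i)
    exact mem_iUnion.2 ⟨n, (not_lt.1 hn).eq_or_lt⟩
  have key : False := by
    obtain ⟨X, hX, hcl, hι, hcol⟩ := hc (ψ i)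
    obtain ⟨q, hq, hg⟩ := hFF X hX hcl
    obtain ⟨t, ht, f, hf, e⟩ := hψ i q hq
    refine hch _ b (Eq.trans ?_ e)
    refine (if_pos hi).trans (hcol _ (fun n => ?_) fun g h1 h2 => ?_)
    · obtain ⟨t', ht', y, hy, h⟩ := hg [ι (b n)] (by simpa using hι n) t ht
      obtain ⟨u, hu, k⟩ := hf (b n) (hi n) t' ht'
      refine ⟨hs _ (hb n) u (hu.trans (ht'.trans (ht.trans (hq.trans hq₀)))) _ k, ?_⟩
      rcases h with ⟨a', z, h1, h2, h3⟩ | ⟨g, y₁, C, h1, -⟩ | ⟨h1, -⟩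
      · have e : b n = a' := i1 (by simpa using h1)
        subst e
        rw [hF.func _ _ _ _ k (hF.mono _ _ _ _ hu h2), ← h3]
        exact hy
      · simp at h1
      · exact absurd ⟨_, rfl⟩ h1
    · obtain ⟨t', ht', y, hy, h⟩ := hg [cq g, cq g] (by simpa using h2) t ht
      rcases h with ⟨a', z, k1, -⟩ | ⟨g', y₁, C, k1, -, k3, -, k5, k6, -⟩ | ⟨-, k1, -⟩
      · simp at k1
      · have e : g = g' := i3 (List.cons.inj k1).1
        subst e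
        refine ⟨C, k5, k3 ▸ hy, fun n hn => ?_⟩
        obtain ⟨u, hu, k⟩ := hf (b n) (hi n) t' ht'
        exact k6 _ hn u hu _ k
      · exact absurd ⟨g, _, rfl, h1⟩ k1
  exact key

theorem poB (P : Type) [Preorder P] (K : Type) [LinearOrder K] [WellFoundedLT K] (hW : W1 K)
    (F : Filter K) (hb : Dist P K Bool) (Ω : Type) [Inhabited Ω] (k3 : #(ℕ → K) < #Ω)
    (hΩ : #Ω ≤ Order.succ 𝔠) (hν : Dist P K Ω) (hpr : Precipitous F) (L : Type) [LinearOrder L]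
    [WellFoundedLT L] (hP : PrL P #(K ⊕ L ⊕ (K → L) ⊕ Set K)) (hPL : PrL P #L) (q0 : P) :
    POB P F L q0 := by
  classical
  have hR := red
  have hB := cb2 hop (win2 beat diag (pcf (pcf1 pcf0))) sc slowk
  intro D p _ hD S hS
  obtain ⟨q, hq, B, hBS, hBp, s, u, c1, c2, c3, c4⟩ := hR P K L F hb hpr D p hD S hS
  have : Uncountable K := hW.2
  obtain ⟨k1, k2⟩ := card_BPo K
  by_cases hA : {a ∈ B | #(s a) ≤ #Ω}ᶜ ∈ F
  swap
  · choose j hj using fun a => inj_BPo (V := Ω) (s a)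
    obtain ⟨q', hq', f, hf⟩ := hν _ q (fn_BPo hD hq fun a z => j a (u a z))
    have h1 : ∀ a, ∃ w, (a ∈ B → w ∈ s a) ∧ (a ∈ B → #(s a) ≤ #Ω →
        ∀ r ≤ q', ∃ t ≤ r, ∃ z, D t a z ∧ u a z = w) := by
      intro a
      obtain ⟨t, ht, z, h1, h2⟩ := hf a q' le_rfl
      refine ⟨u a z, fun ha => (c3 a ha t (ht.trans hq') z h1).2, fun ha hs r hr => ?_⟩
      obtain ⟨t', ht', z', h3, h4⟩ := hf a r hr
      exact ⟨t', ht', z', h3, hj a hs (c3 a ha t' (ht'.trans (hr.trans hq')) z' h3).2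
        (c3 a ha t (ht.trans hq') z h1).2 (h4.symm.trans h2)⟩
    choose g g1 g2 using h1
    obtain ⟨r', hr', C, hCF, h2⟩ := c4 g g1 q' hq'
    refine ⟨r', hr'.trans (hq'.trans hq), C ∩ {a ∈ B | #(s a) ≤ #Ω},
      fun a ha => hBS ha.2.1, fun h => hA ?_, g, fun a ha r hr => ?_⟩
    · filter_upwards [h, hCF] with a h3 h4 h5 using h3 ⟨h4, h5⟩
    · obtain ⟨t, ht, z, h3, h4⟩ := g2 a ha.2.1 ha.2.2 r (hr.trans hr')
      have h5 := (c3 a ha.2.1 t (ht.trans (hr.trans (hr'.trans hq'))) z h3).1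
      rw [h4] at h5
      exact ⟨t, ht, le_antisymm h5 (h2 a ⟨ha.1, ha.2.1⟩ t (ht.trans hr) z h3) ▸ h3⟩
  exfalso
  have hD1 := fn_BPo hD hq u
  have he : ∀ a, ∃ w, a ∈ B → w ∈ s a := fun a => by
    obtain ⟨t, ht, z, hz⟩ := hD.tot q hq a
    exact ⟨u a z, fun ha => (c3 a ha t ht z hz).2⟩
  choose e he using he
  have key : ∀ B0 ⊆ B, B0ᶜ ∉ F → ∃ s' : K → Set L, (∀ a, ∃ a1 ∈ B0, s' a = s a1) ∧
      (∀ a ∈ B0, s' a = s a) ∧ (F ⊓ 𝓟 B0).NeBot ∧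
      (∀ a ∈ B0, ∀ r ≤ q, ∀ w, (∃ z, D r a z ∧ w = u a z) → w ∈ s' a) ∧
      Dom (fun r a w => ∃ z, D r a z ∧ w = u a z) q (F ⊓ 𝓟 B0) s' := by
    intro B0 h0 hp
    obtain ⟨a0, ha0⟩ : B0.Nonempty := by
      by_contra h
      rw [not_nonempty_iff_eq_empty.1 h, compl_empty] at hp
      exact hp univ_mem
    refine ⟨fun a => if a ∈ B0 then s a else s a0, fun a => ?_, fun a ha => if_pos ha,
      ⟨fun h => hp (inf_principal_eq_bot.1 h)⟩, ?_, fun g hg r hr => ?_⟩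
    · by_cases ha : a ∈ B0
      exacts [⟨a, ha, if_pos ha⟩, ⟨a0, ha0, if_neg ha⟩]
    · rintro a ha r hr _ ⟨z, hz, rfl⟩
      simp only [if_pos ha]
      exact (c3 a (h0 ha) r hr z hz).2
    · obtain ⟨r', hr', C, hCF, h2⟩ := c4 (fun a => if a ∈ B0 then g a else e a) (fun a ha => by
        by_cases h : a ∈ B0
        · simpa only [if_pos h] using hg a
        · simpa only [if_neg h] using he a ha) r hr
      refine ⟨r', hr', C ∩ B0, inter_mem_inf hCF (mem_principal_self _), ?_⟩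
      rintro a ha t ht _ ⟨z, hz, rfl⟩
      have h3 := h2 a ⟨ha.1, h0 ha.2⟩ t ht z hz
      simp only [if_pos ha.2] at h3
      exact h3.trans (c3 a (h0 ha.2) t (ht.trans (hr'.trans hr)) z hz).1
  obtain ⟨κ, hκ, hmin⟩ := Cardinal.lt_wf.has_min
    {κ | {a ∈ B | #Ω < #(s a) ∧ #(s a) ≤ κ}ᶜ ∉ F} ⟨#L, fun h => hBp (by
      filter_upwards [h, hA] with a h1 h2 h3
      exact h1 ⟨h3, not_le.1 fun h4 => h2 ⟨h3, h4⟩, mk_set_le _⟩)⟩
  by_cases h2 : {a ∈ B | #Ω < #(s a) ∧ #(s a) = κ}ᶜ ∈ F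
  swap
  · obtain ⟨s', s1, -, s3, s4, s5⟩ := key _ (fun _ h => h.1) h2
    obtain ⟨a0, ⟨-, h3, h4⟩, -⟩ := s1 (Classical.arbitrary K)
    have h5 : #K < #(s a0) := k1.trans_lt (k3.trans h3)
    refine constB P K hW L s' _ _ κ (mem_inf_of_right (mem_principal_self _))
      (h4 ▸ c2 a0 ((aleph0_le_mk K).trans_lt h5)) (h4 ▸ h5) (fun a => ?_)
      (hPL.mono (h4 ▸ mk_set_le _)) hb (dn0B P K hb) _ q hD1 s4 s5
    obtain ⟨a1, ⟨-, -, h6⟩, h7⟩ := s1 a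
    rw [h7]
    exact ⟨h6, fun ρ hρ => c1 a1 ρ (h6 ▸ hρ)⟩
  have h3 : {a ∈ B | #Ω < #(s a) ∧ #(s a) < κ}ᶜ ∉ F := fun h => hκ (by
    filter_upwards [h, h2] with a h4 h5 h6
    exact h6.2.2.lt_or_eq.elim (fun h7 => h4 ⟨h6.1, h6.2.1, h7⟩) fun h7 => h5 ⟨h6.1, h6.2.1, h7⟩)
  obtain ⟨s', s1, s2, s3, s4, s5⟩ := key _ (fun _ h => h.1) h3
  refine fin2B P K hW L s' _ _ hP hb (dn2B P K hb L hPL) Ω k3 hν
    (hB K L s' _ Ω hΩ ⟨fun a => ?_, fun a => ?_⟩ _ (mem_inf_of_right (mem_principal_self _)))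
    _ q hD1 s4 s5
  · obtain ⟨a1, ⟨-, h4, -⟩, h5⟩ := s1 a
    rw [h5]
    exact c1 a1 _ (k2.trans_lt (k3.trans h4))
  · obtain ⟨a1, ⟨-, h4, h5⟩, h6⟩ := s1 a
    have h7 : max #(ℕ → K) #(s' a) < κ := max_lt (k3.trans (h4.trans h5)) (h6 ▸ h5)
    have h8 := not_not.1 fun h => hmin _ h h7
    rw [mem_inf_principal]
    filter_upwards [h8] with b h9 hb
    rw [s2 b hb]
    exact c1 b _ (not_le.1 fun h => h9 ⟨hb.1, hb.2.1, h⟩)

theorem po3 : PO3_st := by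
  intro P _ K _ _ hW F L _ _ hP hb hF hL q
  have := hW.2
  have k0 : ℵ₀ ≤ #K := aleph0_le_mk K
  have k1 : #K < #L := (cantor _).trans hL
  have k2 : #L ≤ #(K → L) :=
    mk_le_of_injective (f := fun z _ => z) fun a b h => congrFun h (Classical.arbitrary K)
  have k3 : ℵ₀ ≤ #(K → L) := k0.trans (k1.le.trans k2)
  have k4 : #K ≤ 𝔠 := (card_le_succ_Main K hW).trans (Order.succ_le_of_lt aleph0_lt_continuum)
  have k5 : (𝔠 : Cardinal.{0}) ≤ 2 ^ #K := by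
    rw [← two_power_aleph0]
    exact power_le_power_left two_ne_zero k0
  have eΩ : #(Order.succ 𝔠 : Cardinal.{0}).ord.ToType = Order.succ 𝔠 := mk_ord_toType _
  have hk : #(ℕ → K) < #(Order.succ 𝔠 : Cardinal.{0}).ord.ToType := by
    rw [← power_def, mk_nat, eΩ, Order.lt_succ_iff]
    exact (power_le_power_right k4).trans continuum_power_aleph0.le
  have : Inhabited (Order.succ 𝔠 : Cardinal.{0}).ord.ToType :=
    ⟨(mk_ne_zero_iff.1 ((zero_le).trans_lt hk).ne').some⟩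
  refine poB P K hW F hb _ hk eΩ.le (omegaB P K hW hb 𝔠 k4 k5
    (hP.mono ((Order.succ_le_of_lt (k5.trans_lt hL)).trans k2))) hF L (hP.mono ?_) (hP.mono k2) q
  simp only [mk_sum, lift_id, mk_set]
  exact add_le_of_le k3 (k1.le.trans k2)
    (add_le_of_le k3 k2 (add_le_of_le k3 le_rfl (hL.le.trans k2)))

end

section

theorem one_CLift {Y : Type} [Nonempty Y] (G : List Y → Set Y) (hG : ∀ l, (G l).Countable) :
    ∃ F : List Y → Y, ∀ X, Closed F X → ∀ l, (∀ x ∈ l, x ∈ X) → G l ⊆ X := by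
  choose g hg using fun l => Set.countable_iff_exists_subset_range.1 (hG l)
  refine ⟨fun L => g (L.take L.length.unpair.1) L.length.unpair.2, fun X hX l hl y hy => ?_⟩
  obtain ⟨n, rfl⟩ := hg l hy
  obtain ⟨x₀, hx₀⟩ : X.Nonempty := ⟨_, hX [] fun _ h => absurd h List.not_mem_nil⟩
  have hlen : (l ++ List.replicate (Nat.pair l.length n - l.length) x₀).length =
      Nat.pair l.length n := by
    rw [List.length_append, List.length_replicate]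
    exact Nat.add_sub_cancel' (Nat.left_le_pair _ _)
  have h := hX (l ++ List.replicate (Nat.pair l.length n - l.length) x₀) fun x hx => by
    rcases List.mem_append.1 hx with h | h
    · exact hl x h
    · rw [List.eq_of_mem_replicate h]
      exact hx₀
  simp only [hlen, Nat.unpair_pair, List.take_left'] at h
  exact h

theorem lift3 : LIFT_st := by
  intro P _ Z Y p hYZ hZ S hSc hSs D q hq hD
  obtain ⟨-, -, y₀, -⟩ := hD.tot q le_rfl []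
  have : Nonempty Y := ⟨y₀⟩
  obtain ⟨e⟩ := (Cardinal.le_def _ _).1 hYZ
  have hr : Function.LeftInverse (Function.invFun e) e := Function.leftInverse_invFun e.injective
  have hst : ∀ F' : List Z → Z, ∃ X' ∈ {X' : Set Z | X'.Countable ∧ e ⁻¹' X' ∈ S},
      Closed F' X' := by
    intro F'
    obtain ⟨H, h1, h2⟩ := hop Z F'
    obtain ⟨F, hF⟩ := one_CLift (fun l : List Y => e ⁻¹' H (l.map e))
      fun l => (h1 _).1.preimage e.injective
    obtain ⟨X, hX, hcl⟩ := hSs F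
    have : Countable X := (hSc X hX).to_subtype
    have heq : e ⁻¹' (⋃ l : List X, H ((l.map Subtype.val).map e)) = X := by
      ext y
      simp only [mem_preimage, mem_iUnion]
      constructor
      · rintro ⟨l, hl⟩
        refine hF X hcl (l.map Subtype.val) (fun x hx => ?_) hl
        obtain ⟨a, -, rfl⟩ := List.mem_map.1 hx
        exact a.2
      · intro hy
        exact ⟨[⟨y, hy⟩], (h1 _).2.2 _ (by simp)⟩
    refine ⟨⋃ l : List X, H ((l.map Subtype.val).map e),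
      ⟨countable_iUnion fun l => (h1 _).1, by rwa [heq]⟩, fun m hm => ?_⟩
    have key : ∃ l : List X, ∀ x ∈ m, x ∈ H ((l.map Subtype.val).map e) := by
      induction m with
      | nil => exact ⟨[], fun _ h => absurd h List.not_mem_nil⟩
      | cons a m ih =>
        obtain ⟨l₂, hl₂⟩ := ih fun x hx => hm x (List.mem_cons_of_mem _ hx)
        obtain ⟨l₁, hl₁⟩ := mem_iUnion.1 (hm a List.mem_cons_self)
        refine ⟨l₁ ++ l₂, fun x hx => ?_⟩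
        rcases List.mem_cons.1 hx with rfl | hx
        · refine h2 _ _ (fun z hz => (h1 _).2.2 z ?_) hl₁
          rw [List.map_append, List.map_append]
          exact List.mem_append_left _ hz
        · refine h2 _ _ (fun z hz => (h1 _).2.2 z ?_) (hl₂ x hx)
          rw [List.map_append, List.map_append]
          exact List.mem_append_right _ hz
    obtain ⟨l, hl⟩ := key
    exact mem_iUnion.2 ⟨l, (h1 _).2.1 m hl⟩
  have hD' : FN (fun s (l : List Z) z => ∃ y, D s (l.map (Function.invFun e)) y ∧ z = e y) q := by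
    refine ⟨?_, ?_, ?_⟩
    · rintro s t a _ hts ⟨y, hy, rfl⟩
      exact ⟨y, hD.mono s t _ y hts hy, rfl⟩
    · rintro s a _ _ ⟨y, hy, rfl⟩ ⟨y', hy', rfl⟩
      rw [hD.func s _ y y' hy hy']
    · intro s hs a
      obtain ⟨t, ht, y, hy⟩ := hD.tot s hs (a.map (Function.invFun e))
      exact ⟨t, ht, e y, y, hy, rfl⟩
  obtain ⟨r, hrq, X', hX', h⟩ := hZ _ (fun X' hX' => hX'.1) hst _ q hq hD'
  refine ⟨r, hrq, e ⁻¹' X', hX'.2, fun l hl s hs => ?_⟩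
  obtain ⟨t, ht, z, hz, y, hy, rfl⟩ := h (l.map e) (fun x hx => by
    obtain ⟨a, ha, rfl⟩ := List.mem_map.1 hx
    exact hl a ha) s hs
  rw [List.map_map, hr.comp_eq_id, List.map_id] at hy
  exact ⟨t, ht, y, hz, hy⟩

end

section

/-- `r` decides the composite of the named function with `h` to be `g`. -/
def dec_CColl {P K A L : Type} [Preorder P] (D : P → A → L → Prop) (r : P) (h : K → A)
    (g : K → L) : Prop := ∀ k, ∀ r' ≤ r, ∃ s ≤ r', D s (h k) (g k)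

theorem coll3 : COLL_st := by
  intro P _ K A L hL D p hK hD hO
  obtain ⟨z⟩ := hL
  refine ⟨fun r h g => dec_CColl D r h g ∨
    ((∀ r' ≤ r, ∀ g', ¬ dec_CColl D r' h g') ∧ g = fun _ => z), ⟨?_, ?_, ?_⟩, ?_⟩
  · rintro q r h g hr (H | ⟨H, rfl⟩)
    · exact Or.inl fun k r' hr' => H k r' (hr'.trans hr)
    · exact Or.inr ⟨fun r' hr' => H r' (hr'.trans hr), rfl⟩
  · rintro q h g g' (H | ⟨H, rfl⟩) (H' | ⟨H', rfl⟩)
    · funext k
      obtain ⟨s, hs, h1⟩ := H k q le_rfl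
      obtain ⟨s', hs', h2⟩ := H' k s hs
      exact hD.func s' _ _ _ (hD.mono s s' _ _ hs' h1) h2
    · exact absurd H (H' q le_rfl g)
    · exact absurd H' (H q le_rfl g')
    · rfl
  · intro q _ h
    by_cases H : ∃ r ≤ q, ∃ g, dec_CColl D r h g
    · obtain ⟨r, hr, g, hg⟩ := H
      exact ⟨r, hr, g, Or.inl hg⟩
    · exact ⟨q, le_rfl, fun _ => z, Or.inr ⟨fun r hr g hg => H ⟨r, hr, g, hg⟩, rfl⟩⟩
  · intro g q hq
    have hE : FN (fun r k x => D r x (g k) ∧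
        ∀ x', WellOrderingRel x' x → ∀ r' ≤ r, ¬ D r' x' (g k)) q := by
      refine ⟨fun s r k x hr H => ⟨hD.mono s r _ _ hr H.1,
        fun x' hx r' hr' => H.2 x' hx r' (hr'.trans hr)⟩, fun s k x x' H H' => ?_,
        fun q' hq' k => ?_⟩
      · rcases trichotomous_of WellOrderingRel x x' with h | h | h
        · exact absurd H.1 (H'.2 x h s le_rfl)
        · exact h
        · exact absurd H'.1 (H.2 x' h s le_rfl)
      · obtain ⟨r, hr, a, ha⟩ := hO (g k) q' (hq'.trans hq)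
        obtain ⟨x, ⟨s, hs, hx⟩, hm⟩ := (IsWellFounded.wf (r := WellOrderingRel)).has_min
          {x : A | ∃ s ≤ q', D s x (g k)} ⟨a, r, hr, ha⟩
        exact ⟨s, hs, x, hx, fun x' h r' hr' H => hm x' ⟨r', hr'.trans hs, H⟩ h⟩
    obtain ⟨r, hr, f, hf⟩ := hK _ q hE
    refine ⟨r, hr, f, Or.inl fun k r' hr' => ?_⟩
    obtain ⟨s, hs, H⟩ := hf k r' hr'
    exact ⟨s, hs, H.1⟩

theorem rng3 : RNG_st := by
  rintro P _ A L _ _ D p hdown ⟨b, hb⟩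
  obtain ⟨v₀, ⟨q, hq, hv⟩, hm⟩ := (wellFounded_lt (α := L)).has_min
    {v | ∃ q ≤ p, ∀ r ≤ q, ∀ a, ¬ D r a v}
    ⟨b, p, le_rfl, fun r _ a H => lt_irrefl _ (hb r a b H)⟩
  refine ⟨q, hq, v₀, fun r hr a v H => ?_, fun u hu r hr => ?_⟩
  · rcases lt_trichotomy v v₀ with h | h | h
    · exact h
    · exact absurd (h ▸ H) (hv r hr a)
    · obtain ⟨s, hs, a', H'⟩ := hdown r (hr.trans hq) a v H v₀ h
      exact absurd H' (hv s (hs.trans hr) a')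
  · by_contra H
    exact hm u ⟨r, hr.trans hq, fun s hs a h => H ⟨s, hs, a, h⟩⟩ hu

end

section

theorem fn_ext_CTop {P A Z : Type} [Preorder P] (q : P) (D : {r : P // r ≤ q} → A → Z → Prop)
    (p : {r : P // r ≤ q}) (h : FN D p) :
    FN (fun r a z => ∃ hr : r ≤ q, D ⟨r, hr⟩ a z) p.1 := by
  refine ⟨?_, ?_, ?_⟩
  · rintro q₁ r a z hr ⟨h₁, hD⟩
    exact ⟨hr.trans h₁, h.mono ⟨q₁, h₁⟩ ⟨r, hr.trans h₁⟩ a z hr hD⟩
  · rintro q₁ a z z' ⟨h₁, hD⟩ ⟨_, hD'⟩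
    exact h.func ⟨q₁, h₁⟩ a z z' hD hD'
  · intro q₁ hq a
    obtain ⟨r, hr, z, hz⟩ := h.tot ⟨q₁, hq.trans p.2⟩ hq a
    exact ⟨r.1, hr, z, r.2, hz⟩

theorem dist_sub_CTop {P A Z : Type} [Preorder P] (q : P) (h : Dist P A Z) :
    Dist {r : P // r ≤ q} A Z := by
  intro D p hFN
  obtain ⟨q₁, hq₁, f, hf⟩ := h _ p.1 (fn_ext_CTop q D p hFN)
  refine ⟨⟨q₁, hq₁.trans p.2⟩, hq₁, f, fun a r hr => ?_⟩
  obtain ⟨s, hs, h₁, hD⟩ := hf a r.1 hr
  exact ⟨⟨s, h₁⟩, hs, hD⟩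

theorem proper_sub_CTop {P Z : Type} [Preorder P] (q : P) (h : ProperAt P Z q)
    (p : {r : P // r ≤ q}) : ProperAt {r : P // r ≤ q} Z p := by
  intro S hS hst D q₁ _ hFN
  obtain ⟨r, hr, X, hX, hl⟩ := h S hS hst _ q₁.1 q₁.2 (fn_ext_CTop q D q₁ hFN)
  refine ⟨⟨r, hr.trans q₁.2⟩, hr, X, hX, fun l hlX s hs => ?_⟩
  obtain ⟨t, ht, z, hz, h₁, hD⟩ := hl l hlX s.1 hs
  exact ⟨⟨t, h₁⟩, ht, z, hz, hD⟩

theorem pob_sub_CTop {P K L : Type} [Preorder P] (F : Filter K) (q : P)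
    (h : POB {r : P // r ≤ q} F L ⟨q, le_rfl⟩) : POB P F L q := by
  intro D p hp hFN S hS
  have hFN' : FN (fun (r : {r : P // r ≤ q}) a z => D r.1 a z) ⟨p, hp⟩ := by
    refine ⟨fun q₁ r a z hr hD => hFN.mono q₁.1 r.1 a z hr hD,
      fun q₁ a z z' h₁ h₂ => hFN.func q₁.1 a z z' h₁ h₂, fun q₁ hq a => ?_⟩
    obtain ⟨r, hr, z, hz⟩ := hFN.tot q₁.1 hq a
    exact ⟨⟨r, hr.trans q₁.2⟩, hr, z, hz⟩
  obtain ⟨r, hr, S', hS', hpos, f, hf⟩ := h _ ⟨p, hp⟩ hp hFN' S hS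
  refine ⟨r.1, hr, S', hS', hpos, f, fun α hα r' hr' => ?_⟩
  obtain ⟨s, hs, hD⟩ := hf α hα ⟨r', hr'.trans r.2⟩ hr'
  exact ⟨s.1, hs, hD⟩

theorem top3 (hL : LIFT_st) (hC : COLL_st) (hO : PO3_st) : TOP_st := by
  intro P _ K _ _ hW F hB hF hPr A L _ _ D q hA hFN hOn
  have : Uncountable K := hW.2
  have hK : ℵ₀ ≤ #K := aleph0_le_mk K
  have hKB : #(K → Bool) = 2 ^ #K := by
    rw [← power_def]; simp
  have hV : ∀ V : Type, #V ≤ 2 ^ #K → Dist P K V := fun V hV =>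
    tr_BMain P K V (K → Bool) (by rw [hKB]; exact hV) (pw P K Bool hB).1
  rw [mk_set] at hA
  by_cases hLs : #L ≤ 2 ^ #K
  · intro D₁ p _ hFN₁ S hS
    obtain ⟨r, hr, f, hf⟩ := hV L hLs D₁ p hFN₁
    exact ⟨r, hr, S, Subset.rfl, hS, f, fun α _ => hf α⟩
  have hLb : 2 ^ #K < #L := lt_of_not_ge hLs
  have : Nonempty L := mk_ne_zero_iff.mp (lt_of_le_of_lt (zero_le) hLb).ne'
  obtain ⟨D', hFN', hOn'⟩ := hC P K A L D q (hV A hA) hFN hOn
  have : Nonempty A := by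
    obtain ⟨r, _, a, _⟩ := hOn (Classical.arbitrary L) q le_rfl
    exact ⟨a⟩
  have hKA : #(K → A) ≤ #(Set K) := by
    rw [← power_def, mk_set]
    calc #A ^ #K ≤ (2 ^ #K) ^ #K := power_le_power_right hA
      _ = 2 ^ #K := by rw [← power_mul, mul_eq_self hK]
  obtain ⟨e⟩ := (Cardinal.le_def _ _).mp hKA
  have hπ : Function.Surjective (Function.invFun e) := Function.invFun_surjective e.injective
  have hKL : #L ≤ #(K → L) := mk_le_of_injective (f := fun z _ => z) fun z z' h =>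
    congrFun h (Classical.arbitrary K)
  have hPA : ProperAt P (K → L) q := by
    refine hPr (K → L) (fun r x g => D' r (Function.invFun e x) g) q (hLb.trans_le hKL)
      ⟨fun q₁ r a z => hFN'.mono q₁ r _ z, fun q₁ a z z' => hFN'.func q₁ _ z z',
        fun q₁ hq a => hFN'.tot q₁ hq _⟩ fun z q₁ hq => ?_
    obtain ⟨r, hr, a, ha⟩ := hOn' z q₁ hq
    obtain ⟨x, rfl⟩ := hπ a
    exact ⟨r, hr, x, ha⟩
  exact pob_sub_CTop F q (hO {r : P // r ≤ q} K hW F L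
    (fun Z hZ p => proper_sub_CTop q (hL P (K → L) Z q hZ hPA) p)
    (dist_sub_CTop q hB) hF hLb ⟨q, le_rfl⟩)

end

section

/-- The name of the least rank of `X` at the point `a`. -/
def Dr_CPb {P K L : Type} [Preorder P] [LinearOrder L] (W : P → ℕ → Set K → Prop)
    (R : K → L → P → ℕ → Set K → Prop) (r : P) (x : K × ℕ × Set K) (v : L) : Prop :=
  (W r x.2.1 x.2.2 ∧ x.1 ∈ x.2.2 ∧ R x.1 v r x.2.1 x.2.2 ∧
    ∀ u < v, ∀ r' ≤ r, ¬ R x.1 u r' x.2.1 x.2.2) ∨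
  ((∀ r' ≤ r, ¬ (W r' x.2.1 x.2.2 ∧ x.1 ∈ x.2.2)) ∧ ∀ u, v ≤ u)

theorem card_CPb (K : Type) [Infinite K] : #(K × ℕ × Set K) ≤ #(Set K) := by
  have h1 : #K ≤ #(Set K) := by
    rw [mk_set]
    exact (cantor _).le
  have h0 : ℵ₀ ≤ #(Set K) := (aleph0_le_mk K).trans h1
  simp only [mk_prod, lift_id, mk_nat]
  exact (mul_le_mul' h1 ((mul_le_mul' h0 le_rfl).trans (mul_eq_self h0).le)).trans
    (mul_eq_self h0).le

theorem pb3 (hR' : RNG_st) : PB3_st := by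
  intro P _ K _ F hBo hF hO W p S hSF mono sub dis mx ref
  have hD : Dist P ℕ (Set K) := tr_BMain P ℕ (Set K) (K → Bool) (by simp)
    (pw P K _ (pw P K Bool hBo).1).2
  obtain ⟨L, _, _, ⟨l0⟩, hb0⟩ := long_PB (P × (K × ℕ × Set K))
  have hb : ∀ g : P × Set K → L, ∃ b, ∀ t, g t < b := fun g => by
    obtain ⟨b, hb⟩ := hb0 fun t => g (t.1, t.2.2.2)
    exact ⟨b, fun t => hb (t.1, Classical.arbitrary K, 0, t.2)⟩
  have : Nonempty L := ⟨l0⟩
  choose R hR using rank_PB (L := L) W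
  have Rm : ∀ α β q r n X, r ≤ q → R α β q n X → R α β r n X := fun α β q r n X h k =>
    (hR α β r n X).2 fun X' r' hr' => (hR α β q n X).1 k X' r' (hr'.trans h)
  by_cases h1 : ∃ q ≤ p, ∃ X α, α ∈ X ∧ W q 0 X ∧ ∀ r ≤ q, ∀ β, ¬ R α β r 0 X
  · obtain ⟨q, hq, X, α, hα, hW, hn⟩ := h1
    obtain ⟨q', hq', x, hx⟩ := sel P (Set K) hD
      (fun r n X => W r n X ∧ α ∈ X ∧ ∀ r' ≤ r, ∀ β, ¬ R α β r' n X) (fun X X' => X' ⊆ X)
      (fun q r n X h k => ⟨mono q r n X h k.1, k.2.1, fun r' hr' => k.2.2 r' (hr'.trans h)⟩)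
      q X ⟨hW, hα, hn⟩ (by
        intro q' _ n Y hY
        by_contra hc
        have key : ∀ t : P × Set K, t.1 ≤ q' → W t.1 (n + 1) t.2 → α ∈ t.2 → t.2 ⊆ Y →
            ∃ β, ∃ s ≤ t.1, R α β s (n + 1) t.2 := by
          intro t a1 a2 a3 a4
          by_contra hk
          exact hc ⟨t.1, a1, t.2, ⟨a2, a3, fun r' hr' β e => hk ⟨β, r', hr', e⟩⟩, a4⟩
        choose! g hg using key
        obtain ⟨b, hb⟩ := hb g
        refine hY.2.2 q' le_rfl b ((hR α b q' n Y).2 fun X' r a1 a2 a3 a4 => ?_)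
        obtain ⟨s, hs, e⟩ := hg (r, X') a1 a2 a3 a4
        exact ⟨s, hs, g (r, X'), hb _, e⟩)
    refine ⟨q', hq'.trans hq, x, α, fun n => ⟨?_, (hx n).1, fun r hr => ?_⟩⟩
    · obtain ⟨s, -, e⟩ := (hx n).2 q' le_rfl
      exact e.2.1
    · obtain ⟨s, hs, e⟩ := (hx n).2 r hr
      exact ⟨s, hs, e.1⟩
  exfalso
  have all : ∀ n, ∀ q ≤ p, ∀ X α, α ∈ X → W q n X → ∃ r ≤ q, ∃ β, R α β r n X := by
    intro n
    induction n with
    | zero =>
      intro q hq X α hα hW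
      by_contra hc
      exact h1 ⟨q, hq, X, α, hα, hW, fun r hr β e => hc ⟨r, hr, β, e⟩⟩
    | succ n ih =>
      intro q hq X α hα hW
      obtain ⟨r, hr, Y, hY, hXY⟩ := ref q hq n X hW
      obtain ⟨r₁, hr₁, β, e⟩ := ih r (hr.trans hq) Y α (hXY hα) hY
      obtain ⟨s, hs, β', -, e'⟩ := (hR α β r₁ n Y).1 e X r₁ le_rfl
        (mono q r₁ _ X (hr₁.trans hr) hW) hα hXY
      exact ⟨s, hs.trans (hr₁.trans hr), β', e'⟩
  have fn : FN (Dr_CPb W R) p := by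
    refine ⟨fun q r x v h k => ?_, fun q x v v' k k' => ?_, fun q hq x => ?_⟩
    · rcases k with k | k
      · exact Or.inl ⟨mono q r _ _ h k.1, k.2.1, Rm _ _ q r _ _ h k.2.2.1,
          fun u hu r' hr' => k.2.2.2 u hu r' (hr'.trans h)⟩
      · exact Or.inr ⟨fun r' hr' => k.1 r' (hr'.trans h), k.2⟩
    · rcases k with k | k <;> rcases k' with k' | k'
      · exact le_antisymm (not_lt.1 fun c => k.2.2.2 v' c q le_rfl k'.2.2.1)
          (not_lt.1 fun c => k'.2.2.2 v c q le_rfl k.2.2.1)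
      · exact (k'.1 q le_rfl ⟨k.1, k.2.1⟩).elim
      · exact (k.1 q le_rfl ⟨k'.1, k'.2.1⟩).elim
      · exact le_antisymm (k.2 v') (k'.2 v)
    · by_cases h : ∃ r' ≤ q, W r' x.2.1 x.2.2 ∧ x.1 ∈ x.2.2
      · obtain ⟨r₁, hr₁, hW, ha⟩ := h
        obtain ⟨r₂, hr₂, β, e⟩ := all _ r₁ (hr₁.trans hq) _ _ ha hW
        obtain ⟨β₀, ⟨r₃, hr₃, e₃⟩, hm⟩ := (wellFounded_lt (α := L)).has_min
          {β | ∃ r ≤ r₁, R x.1 β r x.2.1 x.2.2} ⟨β, r₂, hr₂, e⟩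
        exact ⟨r₃, hr₃.trans hr₁, β₀, Or.inl ⟨mono r₁ r₃ _ _ hr₃ hW, ha, e₃,
          fun u hu r' hr' e' => hm u ⟨r', hr'.trans hr₃, e'⟩ hu⟩⟩
      · obtain ⟨m, -, hm⟩ := (wellFounded_lt (α := L)).has_min univ ⟨l0, trivial⟩
        exact ⟨q, le_rfl, m, Or.inr ⟨fun r' hr' k => h ⟨r', hr', k⟩,
          fun u => not_lt.1 (hm u trivial)⟩⟩
  have bnd : ∃ b, ∀ r x v, Dr_CPb W R r x v → v < b := by
    have key : ∀ t : P × (K × ℕ × Set K), ∃ w, ∀ v, Dr_CPb W R t.1 t.2 v → v = w := fun t => by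
      by_cases h : ∃ w, Dr_CPb W R t.1 t.2 w
      · obtain ⟨w, hw⟩ := h
        exact ⟨w, fun v hv => fn.func _ _ _ _ hv hw⟩
      · exact ⟨l0, fun v hv => (h ⟨v, hv⟩).elim⟩
    choose g hg using key
    obtain ⟨b, hb⟩ := hb0 g
    exact ⟨b, fun r x v hv => (hg (r, x) v hv).trans_lt (hb _)⟩
  have ini : ∀ v, ∀ r ≤ p, ∀ x, Dr_CPb W R r x v → ∀ u < v,
      ∃ s ≤ r, ∃ x', Dr_CPb W R s x' u := by
    intro v
    induction v using WellFoundedLT.induction with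
    | ind v ih =>
      rintro r hr ⟨a, n, X⟩ (k | k) u hu
      · have c := k.2.2.2 u hu r le_rfl
        rw [hR] at c
        push Not at c
        obtain ⟨X', r₁, hr₁, hW, ha, hX, hn⟩ := c
        obtain ⟨s, hs, β, hβ, e⟩ := (hR a v r n X).1 k.2.2.1 X' r₁ hr₁ hW ha hX
        obtain ⟨s', hs', v', k'⟩ := fn.tot s (hs.trans (hr₁.trans hr)) (a, n + 1, X')
        have hs1 : s' ≤ r₁ := hs'.trans hs
        rcases k' with k' | k'
        · have h1 : u ≤ v' := not_lt.1 fun c => hn s' hs1 v' c k'.2.2.1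
          have h2 : v' ≤ β := not_lt.1 fun c => k'.2.2.2 β c s' le_rfl (Rm _ _ s s' _ _ hs' e)
          rcases h1.eq_or_lt with rfl | h1
          · exact ⟨s', hs1.trans hr₁, _, Or.inl k'⟩
          · obtain ⟨s'', hs'', y⟩ := ih v' (h2.trans_lt hβ) s' (hs1.trans (hr₁.trans hr)) _
              (Or.inl k') u h1
            exact ⟨s'', hs''.trans (hs1.trans hr₁), y⟩
        · exact (k'.1 s' le_rfl ⟨mono r₁ s' _ _ hs1 hW, ha⟩).elim
      · exact (hu.not_ge (k.2 u)).elim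
  obtain ⟨q1, hq1, v0, lt0, on0⟩ := hR' P _ L (Dr_CPb W R) p
    (fun r hr x v => ini v r hr x) bnd
  have fn1 : FN (fun r x (v : {v : L // v < v0}) => r ≤ q1 ∧ Dr_CPb W R r x v.1) q1 :=
    ⟨fun q r x v h k => ⟨h.trans k.1, fn.mono q r x _ h k.2⟩,
      fun q x v v' k k' => Subtype.ext (fn.func q x _ _ k.2 k'.2), fun q hq x => by
        obtain ⟨r, hr, v, e⟩ := fn.tot q (hq.trans hq1) x
        exact ⟨r, hr, ⟨v, lt0 r (hr.trans hq) x v e⟩, hr.trans hq, e⟩⟩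
  have pob : POB P F {v : L // v < v0} q1 := hO _ _ _ q1 (card_CPb K) fn1 fun z q hq => by
    obtain ⟨s, hs, x, e⟩ := on0 z.1 z.2 q hq
    exact ⟨s, hs, x, hs.trans hq, e⟩
  have lst : ∀ q ≤ q1, ∀ n X, W q n X → ∀ S' : Set K, S' ⊆ X → S'ᶜ ∉ F →
      ∃ q' ≤ q, ∃ S'' ⊆ S', S''ᶜ ∉ F ∧ ∃ f : K → L, ∀ a ∈ S'',
      (∀ r ≤ q', ∃ s ≤ r, R a (f a) s n X) ∧ ∀ v < f a, ∀ r ≤ q', ¬ R a v r n X := by
    intro q hq n X hW S' hX hS'
    obtain ⟨q', hq', S'', g1, g2, f, hf⟩ := pob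
      (fun r a v => r ≤ q1 ∧ Dr_CPb W R r (a, n, X) v.1) q hq
      ⟨fun q r a v => fn1.mono q r (a, n, X) v, fun q a => fn1.func q (a, n, X),
        fun r hr a => fn1.tot r (hr.trans hq) (a, n, X)⟩ S' hS'
    have key : ∀ a ∈ S'', ∀ r ≤ q', ∃ s ≤ r, R a (f a).1 s n X ∧
        ∀ u < (f a).1, ∀ r' ≤ s, ¬ R a u r' n X := fun a ha r hr => by
      obtain ⟨s, hs, -, e | e⟩ := hf a ha r hr
      · exact ⟨s, hs, e.2.2⟩
      · exact (e.1 s le_rfl ⟨mono q s n X (hs.trans (hr.trans hq')) hW, hX (g1 ha)⟩).elim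
    refine ⟨q', hq', S'', g1, g2, fun a => (f a).1, fun a ha =>
      ⟨fun r hr => ?_, fun v hv r hr e => ?_⟩⟩
    · obtain ⟨s, hs, e⟩ := key a ha r hr
      exact ⟨s, hs, e.1⟩
    · obtain ⟨s, hs, e'⟩ := key a ha r hr
      exact e'.2 v hv s le_rfl (Rm a v r s n X hs e)
  obtain ⟨r₀, hr₀, X₀, hW₀, hp₀⟩ := mx q1 hq1 0 S Subset.rfl hSF
  obtain ⟨q₀, hq₀, B₀, hB₀, hp₁, f₀, hf₀⟩ := lst r₀ hr₀ 0 X₀ hW₀ _ inter_subset_left hp₀
  refine nd K L {t : P × ℕ × Set K × (K → L) × Set K // t.1 ≤ q1 ∧ W t.1 t.2.1 t.2.2.1 ∧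
      t.2.2.2.2 ⊆ t.2.2.1 ∧ ∀ a ∈ t.2.2.2.2,
        (∀ r ≤ t.1, ∃ s ≤ r, R a (t.2.2.2.1 a) s t.2.1 t.2.2.1) ∧
        ∀ v < t.2.2.2.1 a, ∀ r ≤ t.1, ¬ R a v r t.2.1 t.2.2.1} F hF
    (fun t => t.1.2.2.2.2) (fun t => t.1.2.2.2.1)
    ⟨(q₀, 0, X₀, f₀, B₀), hq₀.trans hr₀, mono r₀ q₀ 0 X₀ hq₀ hW₀,
      hB₀.trans inter_subset_left, hf₀⟩ hp₁ ?_
  rintro ⟨⟨q, n, X, f, B⟩, hq, hW, hB, hf⟩ S' hS' hpos
  have hSX : S' ⊆ X := hS'.trans hB
  have hqp : q ≤ p := le_trans hq hq1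
  obtain ⟨r, hr, X', hW', hp'⟩ := mx q hqp (n + 1) S' (hSX.trans (sub q hqp n X hW)) hpos
  obtain ⟨r', hr', Y, hY, hXY⟩ := ref r (hr.trans hqp) n X' hW'
  have hr'p : r' ≤ q1 := hr'.trans (hr.trans hq)
  obtain rfl : X = Y := by
    by_contra hne
    refine hp' (Filter.mem_of_superset
      (dis r' (hr'p.trans hq1) n X Y (mono q r' n X (hr'.trans hr) hW) hY hne)
      (compl_subset_compl.2 ?_))
    exact fun a ha => ⟨hSX ha.2, hXY ha.1⟩
  obtain ⟨q', hq', B', hB', hp'', f', hf'⟩ :=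
    lst r' hr'p (n + 1) X' (mono r r' _ X' hr' hW') _ inter_subset_left hp'
  have hq'r : q' ≤ r := hq'.trans hr'
  refine ⟨⟨(q', n + 1, X', f', B'), hq'.trans hr'p, mono r q' _ X' hq'r hW',
    hB'.trans inter_subset_left, hf'⟩, hB'.trans inter_subset_right, hp'', fun j hj => ?_⟩
  have hj' : j ∈ X' ∩ S' := hB' hj
  obtain ⟨s, hs, e⟩ := (hf j (hS' hj'.2)).1 q' (hq'r.trans hr)
  obtain ⟨s', hs', β, hβ, e'⟩ := (hR j (f j) s n X).1 e X' s le_rfl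
    (mono r s _ X' (hs.trans hq'r) hW') hj'.1 hXY
  exact (not_lt.1 fun c => (hf' j hj).2 β c s' (hs'.trans hs) e').trans_lt hβ

end

end Pool.Agent.MP_249dba_lc
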