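import Pool.Agent.MP_c6cf52_lc.Tools
import Pool.Agent.MP_249dba_lc.MDefs
import Pool.Agent.MP_249dba_lc.Pr.All3

namespace Pool.Agent.MP_249dba_lc

open Pool.Agent.MP_c6cf52_lc Pool.Agent.MP_e34318_lc Name Gen Cardinal Set

variable {P : Type} [Preorder P] [OrderTop P] {g : Gen P}
variable {K : Type} [LinearOrder K] [WellFoundedLT K] {F : Filter K}

noncomputable def oN (a : K) : Name P := ordN (wellFounded_lt (α := K)) a

theorem E_sN {A : Set K} (h : sN P A ∈ g.N) {x : g.M} :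
    g.E x (g.v (sN P A)) ↔ ∃ a ∈ A, oN a ∈ g.N ∧ g.v (oN a) = x := E_setN _ h

theorem oN_mem {A : Set K} {a : K} (ha : oN a ∈ g.N) (h : sN P A ∈ g.N) :
    g.E (g.v (oN a)) (g.v (sN P A)) ↔ a ∈ A := ord_mem_setN_iff _ lt_trichotomy ha h

theorem again {Ψ : ∀ (M : Type 1), (M → M → Prop) → (ℕ → M) → Prop} (h : UDef Ψ)
    {l : List (Name P)} (hl : ∀ x ∈ l, x ∈ g.N) (hΨ : Ψ g.M g.E (g.w l)) (τ : Name P) :
    ∃ g' : Gen P, τ ∈ g'.N ∧ (∀ x ∈ l, x ∈ g'.N) ∧ Ψ g'.M g'.E (g'.w l) := by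
  obtain ⟨r, -, H⟩ := transfer h hl hΨ
  obtain ⟨g', h1, h2⟩ := exists_gen r {x | x ∈ τ :: l} (List.finite_toSet _).countable
  have h3 : ∀ x ∈ l, x ∈ g'.N := fun x hx => h2 (List.mem_cons_of_mem _ hx)
  exact ⟨g', h2 List.mem_cons_self, h3, H g' h1 h3⟩

theorem udef_sub (i j : ℕ) : UDef.{1} (fun _ E w => Sub E (w i) (w j)) := by
  unfold Sub
  repeat' first | exact UDef.mem _ _ | apply UDef.imp | apply UDef.all

theorem udef_null (i j k : ℕ) : UDef.{1} (fun _ E w => Null E (w i) (w j) (w k)) := by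
  unfold Null
  repeat' first
    | exact UDef.mem _ _ | apply UDef.and | apply UDef.iff | apply UDef.all | apply UDef.ex

theorem udef_part (i j k : ℕ) : UDef.{1} (fun _ E w => PartM E (w i) (w j) (w k)) := by
  unfold PartM
  repeat' first
    | exact UDef.mem _ _ | exact UDef.ne _ _ | exact udef_sub _ _ | exact udef_null _ _ _
    | apply UDef.and | apply UDef.not | apply UDef.imp | apply UDef.all | apply UDef.ex

theorem sub_iff {A B : Set K} (hA : sN P A ∈ g.N) (hB : sN P B ∈ g.N) :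
    Sub g.E (g.v (sN P A)) (g.v (sN P B)) ↔ A ⊆ B := by
  refine ⟨fun h a ha => ?_, fun h x hx => ?_⟩
  · obtain ⟨g', h1, h2, h3⟩ := again (udef_sub 0 1) (l2 hA hB) h (oN a)
    exact (oN_mem h1 (h2 _ (by simp))).1 (h3 _ ((oN_mem h1 (h2 _ (by simp))).2 ha))
  · obtain ⟨a, ha, h1, rfl⟩ := (E_sN hA).1 hx
    exact (oN_mem h1 hB).2 (h ha)

theorem sN_inj {A B : Set K} (hA : sN P A ∈ g.N) (hB : sN P B ∈ g.N)
    (h : g.v (sN P A) = g.v (sN P B)) : A = B :=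
  Subset.antisymm ((sub_iff hA hB).1 fun _ hx => h ▸ hx) ((sub_iff hB hA).1 fun _ hx => h ▸ hx)

theorem mem_idl {A : Set K} (hA : sN P A ∈ g.N) (hI : idl P F ∈ g.N) :
    g.E (g.v (sN P A)) (g.v (idl P F)) ↔ Aᶜ ∈ F := by
  unfold idl at hI ⊢
  rw [E_fam hI]
  exact ⟨fun ⟨B, h1, h2⟩ => sN_inj h1 hA h2 ▸ B.2, fun h => ⟨⟨A, h⟩, hA, rfl⟩⟩

theorem null_iff {A B : Set K} (hA : sN P A ∈ g.N) (hB : sN P B ∈ g.N)
    (hC : sN P (A ∩ B) ∈ g.N) (hI : idl P F ∈ g.N) :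
    Null g.E (g.v (idl P F)) (g.v (sN P A)) (g.v (sN P B)) ↔ (A ∩ B)ᶜ ∈ F := by
  have e : ∀ x, g.E x (g.v (sN P (A ∩ B))) ↔ g.E x (g.v (sN P A)) ∧ g.E x (g.v (sN P B)) := by
    refine fun x => ⟨fun h => ⟨(sub_iff hC hA).2 inter_subset_left x h,
      (sub_iff hC hB).2 inter_subset_right x h⟩, fun h => ?_⟩
    obtain ⟨a, ha, h1, rfl⟩ := (E_sN hA).1 h.1
    exact (oN_mem h1 hC).2 ⟨ha, (oN_mem h1 hB).1 h.2⟩
  rw [← mem_idl hC hI]
  refine ⟨fun ⟨c, h1, h2⟩ => ?_, fun h => ⟨_, h, e⟩⟩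
  rwa [← Gen.ext fun x => (h2 x).trans (e x).symm]

theorem dec (hD : DB_st) (h : Dist P K Bool) (τ : Name P) (r : P) : ∃ s ≤ r, ∃ A : Set K,
    ∀ g : Gen P, s ∈ g.G → τ ∈ g.N → sN P (univ : Set K) ∈ g.N → sN P A ∈ g.N →
      Sub g.E (g.v τ) (g.v (sN P (univ : Set K))) → g.v τ = g.v (sN P A) := by
  obtain ⟨s, hs, H⟩ := hD P K h (fun q a => FMem (oN a) τ q) (fun q r a hr h => h.mono hr) r
  refine ⟨s, hs, {a | FMem (oN a) τ s}, fun g h1 h2 h3 h4 h5 => Gen.ext fun x => ⟨fun hx => ?_,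
    fun hx => ?_⟩⟩
  · obtain ⟨a, -, ha, rfl⟩ := (E_sN h3).1 (h5 x hx)
    obtain ⟨t, ht, e⟩ := (v_mem_iff ha h2).1 hx
    obtain ⟨u, -, u1, u2⟩ := g.dir ht h1
    exact (oN_mem ha h4).2 ((H a).elim FMem.reg fun H => absurd (e.mono u1) (H u u2))
  · obtain ⟨a, ha, h6, rfl⟩ := (E_sN h4).1 hx
    exact (v_mem_iff h6 h2).2 ⟨s, h1, ha⟩

def Hyp {M : Type 1} (E : M → M → Prop) (w k I S f D : M) : Prop :=
  Sub E S k ∧ ¬ E S I ∧ IsFun E f w D ∧ (∀ n W, App E f n W → PartM E I S W) ∧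
    ∀ n m W W', E n m → App E f n W → App E f m W' → ∀ X, E X W' → ∃ Y, E Y W ∧ Sub E X Y

def Con {M : Type 1} (E : M → M → Prop) (w f : M) : Prop :=
  ∃ x D', IsFun E x w D' ∧ (∀ n W X, App E f n W → App E x n X → E X W) ∧
    (∀ n m X Y, E n m → App E x n X → App E x m Y → Sub E Y X) ∧
    ∃ a, ∀ n X, App E x n X → E a X

def InW {M : Type 1} (E : M → M → Prop) (f n X : M) : Prop := ∃ W, App E f n W ∧ E X W

theorem udef_hyp : UDef.{1} (fun _ E w => Hyp E (w 0) (w 1) (w 2) (w 3) (w 4) (w 5)) := by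
  unfold Hyp
  repeat' first
    | exact UDef.mem _ _ | exact udef_sub _ _ | exact udef_part _ _ _ | exact UDef.app _ _ _
    | exact UDef.isFun _ _ _
    | apply UDef.and | apply UDef.not | apply UDef.imp | apply UDef.all | apply UDef.ex

theorem udef_con (i j : ℕ) : UDef.{1} (fun _ E w => Con E (w i) (w j)) := by
  unfold Con
  repeat' first
    | exact UDef.mem _ _ | exact udef_sub _ _ | exact UDef.app _ _ _ | exact UDef.isFun _ _ _
    | apply UDef.and | apply UDef.imp | apply UDef.all | apply UDef.ex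

theorem udef_inw (i j k : ℕ) : UDef.{1} (fun _ E w => InW E (w i) (w j) (w k)) := by
  unfold InW
  repeat' first | exact UDef.mem _ _ | exact UDef.app _ _ _ | apply UDef.and | apply UDef.ex

theorem udef_prec : UDef.{1} (fun _ E w => PrecM E (w 0) (w 1) (w 2)) := by
  unfold PrecM
  repeat' first
    | exact UDef.mem _ _ | exact udef_sub _ _ | exact udef_part _ _ _ | exact UDef.app _ _ _
    | exact UDef.isFun _ _ _
    | apply UDef.and | apply UDef.not | apply UDef.imp | apply UDef.all | apply UDef.ex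

section Key

variable (F) (S f D : Name P)

noncomputable def lst : List (Name P) :=
  [sN P (univ : Set ℕ), sN P (univ : Set K), idl P F, S, f, D]

def In (g : Gen P) : Prop := ∀ x ∈ lst F S f D, x ∈ g.N

def HH (g : Gen P) : Prop := Hyp g.E (g.v (sN P (univ : Set ℕ))) (g.v (sN P (univ : Set K)))
  (g.v (idl P F)) (g.v S) (g.v f) (g.v D)

def WW (r : P) (n : ℕ) (X : Set K) : Prop := ∀ g : Gen P, r ∈ g.G → In F S f D g →
  sN P X ∈ g.N → InW g.E (g.v f) (g.v (oN n)) (g.v (sN P X))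

variable {F S f D}

theorem In.w (h : In F S f D g) : sN P (univ : Set ℕ) ∈ g.N := h _ (by simp [lst])
theorem In.k (h : In F S f D g) : sN P (univ : Set K) ∈ g.N := h _ (by simp [lst])
theorem In.i (h : In F S f D g) : idl P F ∈ g.N := h _ (by simp [lst])
theorem In.s (h : In F S f D g) : S ∈ g.N := h _ (by simp [lst])
theorem In.ff (h : In F S f D g) : f ∈ g.N := h _ (by simp [lst])
theorem In.o (h : In F S f D g) (n : ℕ) : oN n ∈ g.N :=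
  setN_mem _ h.w (Set.to_countable _) (mem_univ n)

theorem gen (r : P) (l : List (Name P)) :
    ∃ g : Gen P, r ∈ g.G ∧ In F S f D g ∧ ∀ x ∈ l, x ∈ g.N := by
  obtain ⟨g, h1, h2⟩ := exists_gen r {x | x ∈ lst F S f D ++ l} (List.finite_toSet _).countable
  exact ⟨g, h1, fun x hx => h2 (List.mem_append_left _ hx),
    fun x hx => h2 (List.mem_append_right _ hx)⟩

theorem ww_of {q : P} {n : ℕ} {X : Set K} (h : ∀ r ≤ q, ∃ s ≤ r, ∃ l : List (Name P),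
    ∀ g : Gen P, s ∈ g.G → In F S f D g → (∀ x ∈ l, x ∈ g.N) → sN P X ∈ g.N →
      InW g.E (g.v f) (g.v (oN n)) (g.v (sN P X))) : WW F S f D q n X := by
  intro g h1 h2 h3
  refine dens (udef_inw 0 1 2) (l3 h2.ff (h2.o n) h3) fun p hp => ?_
  obtain ⟨r, -, r1, r2⟩ := g.dir hp h1
  obtain ⟨s, hs, l, H⟩ := h r r2
  exact ⟨s, hs.trans r1, {x | x ∈ lst F S f D ++ l}, (List.finite_toSet _).countable,
    fun g' a1 a2 a3 => H g' a1 (fun x hx => a2 (List.mem_append_left _ hx))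
      (fun x hx => a2 (List.mem_append_right _ hx)) (a3 _ (by simp))⟩

theorem pull (hD : DB_st) (h : Dist P K Bool) {q r : P}
    (H : ∀ g : Gen P, q ∈ g.G → In F S f D g → HH F S f D g) (hr : r ≤ q)
    {Θ : ∀ (M : Type 1), (M → M → Prop) → M → M → M → Prop}
    (hΘ : UDef.{1} fun M E w => Θ M E (w 2) (w 3) (w 4)) (h1 : r ∈ g.G) (h2 : In F S f D g)
    {a : Name P} (ha : a ∈ g.N) {n : ℕ} {x : g.M} (h3 : InW g.E (g.v f) (g.v (oN n)) x)
    (h4 : Θ g.M g.E x (g.v a) (g.v (idl P F))) : ∃ s ≤ r, ∃ X, WW F S f D s n X ∧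
      ∀ c : Name P, ∃ g' : Gen P, In F S f D g' ∧ a ∈ g'.N ∧ c ∈ g'.N ∧ sN P X ∈ g'.N ∧
        Θ g'.M g'.E (g'.v (sN P X)) (g'.v a) (g'.v (idl P F)) := by
  obtain ⟨τ, hτ, rfl⟩ := exists_v x
  obtain ⟨s₀, b1, b2⟩ := transfer ((udef_inw 0 1 2).and hΘ)
    (lcons h2.ff (l4 (h2.o n) hτ ha h2.i)) ⟨h3, h4⟩
  obtain ⟨s₁, -, c1, c2⟩ := g.dir b1 h1
  obtain ⟨s, hs, X, hX⟩ := dec hD h τ s₁
  have key : ∀ g' : Gen P, s ∈ g'.G → In F S f D g' → τ ∈ g'.N → a ∈ g'.N → sN P X ∈ g'.N →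
      InW g'.E (g'.v f) (g'.v (oN n)) (g'.v (sN P X)) ∧
        Θ g'.M g'.E (g'.v (sN P X)) (g'.v a) (g'.v (idl P F)) := by
    intro g' d1 d2 d3 d4 d5
    obtain ⟨e1, e2⟩ := b2 g' (g'.up d1 (hs.trans c1)) (lcons d2.ff (l4 (d2.o n) d3 d4 d2.i))
    obtain ⟨k1, -, -, k2, -⟩ := H g' (g'.up d1 (hs.trans (c2.trans hr))) d2
    have := e1
    obtain ⟨W, w1, w2⟩ := this
    rw [← hX g' d1 d3 d2.k d5 fun y hy => k1 y (((k2 _ _ w1).1 _ w2).1 y hy)]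
    exact ⟨e1, e2⟩
  refine ⟨s, hs.trans c2, X, ww_of fun t ht => ⟨t, le_rfl, [τ, a], fun g' d1 d2 d3 d4 =>
    (key g' (g'.up d1 ht) d2 (d3 _ (by simp)) (d3 _ (by simp)) d4).1⟩, fun c => ?_⟩
  obtain ⟨g', d1, d2, d3⟩ := gen (F := F) (S := S) (f := f) (D := D) s [τ, a, c, sN P X]
  exact ⟨g', d2, d3 _ (by simp), d3 _ (by simp), d3 _ (by simp),
    (key g' d1 d2 (d3 _ (by simp)) (d3 _ (by simp)) (d3 _ (by simp))).2⟩

theorem keyC (hD : DB_st) (h : Dist P K Bool) (hB : PBc P F) {q₀ : P}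
    (H : ∀ g : Gen P, q₀ ∈ g.G → In F S f D g → HH F S f D g) :
    ∃ q ≤ q₀, ∃ C : Set (Name P), C.Countable ∧ ∀ g : Gen P, q ∈ g.G → C ⊆ g.N →
      In F S f D g → Con g.E (g.v (sN P (univ : Set ℕ))) (g.v f) := by
  obtain ⟨p, hp₀, S₀, hS⟩ := dec hD h S q₀
  have G : ∀ r ≤ p, ∀ l : List (Name P), ∃ g : Gen P, r ∈ g.G ∧ In F S f D g ∧
      (∀ x ∈ l, x ∈ g.N) ∧ HH F S f D g ∧ sN P S₀ ∈ g.N ∧ g.v S = g.v (sN P S₀) := by
    intro r hr l
    obtain ⟨g, a1, a2, a3⟩ := gen (F := F) (S := S) (f := f) (D := D) r (sN P S₀ :: l)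
    have a4 := H g (g.up a1 (hr.trans hp₀)) a2
    exact ⟨g, a1, a2, fun x hx => a3 x (List.mem_cons_of_mem _ hx), a4, a3 _ (by simp),
      hS g (g.up a1 hr) a2.s a2.k (a3 _ (by simp)) a4.1⟩
  have ex : ∀ {g : Gen P}, In F S f D g → HH F S f D g → ∀ n : ℕ,
      ∃ W, App g.E (g.v f) (g.v (oN n)) W := fun a b n =>
    (fun_ex b.2.2.1 ((oN_mem (a.o n) a.w).2 (mem_univ n))).imp fun _ h => h.2
  obtain ⟨q, hq, X, α, hX⟩ := hB (WW F S f D) p S₀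
    (by
      obtain ⟨g, -, a2, -, a4, a5, a6⟩ := G p le_rfl []
      exact fun c => a4.2.1 (a6 ▸ (mem_idl a5 a2.i).2 c))
    (fun q r n X hr h g hg => h g (g.up hg hr))
    (by
      intro q hq n X hW
      obtain ⟨g, a1, a2, a3, a4, a5, a6⟩ := G q hq [sN P X]
      obtain ⟨W, w1, w2⟩ := hW g a1 a2 (a3 _ (by simp))
      exact (sub_iff (a3 _ (by simp)) a5).1 (a6 ▸ ((a4.2.2.2.1 _ _ w1).1 _ w2).1))
    (by
      intro q hq n X Y hW hW' hne
      obtain ⟨g, a1, a2, a3, a4, -, -⟩ := G q hq [sN P X, sN P Y, sN P (X ∩ Y)]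
      obtain ⟨W, w1, w2⟩ := hW g a1 a2 (a3 _ (by simp))
      obtain ⟨W', w3, w4⟩ := hW' g a1 a2 (a3 _ (by simp))
      obtain rfl := fun_uniq a4.2.2.1 w1 w3
      exact (null_iff (a3 _ (by simp)) (a3 _ (by simp)) (a3 _ (by simp)) a2.i).1
        ((a4.2.2.2.1 _ _ w1).2.1 _ _ w2 w4 fun e =>
          hne (sN_inj (a3 _ (by simp)) (a3 _ (by simp)) e)))
    (by
      intro q hq n Y hY hpos
      obtain ⟨g, a1, a2, a3, a4, a5, a6⟩ := G q hq [sN P Y]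
      have a7 : sN P Y ∈ g.N := a3 _ (by simp)
      obtain ⟨W, w1⟩ := ex a2 a4 n
      obtain ⟨x, w2, w3⟩ := (a4.2.2.2.1 _ _ w1).2.2 (g.v (sN P Y))
        (a6 ▸ (sub_iff a7 a5).2 hY) fun c => hpos ((mem_idl a7 a2.i).1 c)
      obtain ⟨s, hs, X, b1, b2⟩ := pull hD h H (hq.trans hp₀)
        (Θ := fun _ E x y z => ¬ Null E z x y) (udef_null 4 2 3).not a1 a2 a7 ⟨W, w1, w2⟩ w3
      obtain ⟨g', c1, c2, c3, c4, c5⟩ := b2 (sN P (X ∩ Y))
      exact ⟨s, hs, X, b1, fun c => c5 ((null_iff c4 c2 c3 c1.i).2 c)⟩)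
    (by
      intro q hq n X hW
      obtain ⟨g, a1, a2, a3, a4, -, -⟩ := G q hq [sN P X]
      have a7 : sN P X ∈ g.N := a3 _ (by simp)
      obtain ⟨W', w1, w2⟩ := hW g a1 a2 a7
      obtain ⟨W, w3⟩ := ex a2 a4 n
      obtain ⟨y, w4, w5⟩ := a4.2.2.2.2 _ _ _ _
        (ord_lt_of _ (a2.o n) (a2.o (n + 1)) (Nat.lt_succ_self n)) w3 w1 _ w2
      obtain ⟨s, hs, Y, b1, b2⟩ := pull hD h H (hq.trans hp₀)
        (Θ := fun _ E x y _ => Sub E y x) (udef_sub 3 2) a1 a2 a7 ⟨W, w3, w4⟩ w5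
      obtain ⟨g', c1, c2, -, c4, c5⟩ := b2 (sN P X)
      exact ⟨s, hs, Y, b1, (sub_iff c2 c4).1 c5⟩)
  have hW : ∀ n, WW F S f D q n (X n) := fun n => ww_of fun r hr => by
    obtain ⟨s, hs, e⟩ := (hX n).2.2 r hr
    exact ⟨s, hs, [], fun g a b _ c => e g a b c⟩
  have hA : Antitone X := antitone_nat_of_succ_le fun n => (hX n).2.1
  refine ⟨q, hq.trans hp₀, {relN (fun n : ℕ => oN n) (fun n => sN P (X n)) fun _ => ⊤,
    fam fun n => sN P (X n), oN α}, (Set.toFinite _).countable, fun g a1 a2 a3 => ?_⟩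
  have b1 : relN (fun n : ℕ => (oN n : Name P)) (fun n => sN P (X n)) (fun _ => ⊤) ∈ g.N :=
    a2 (by simp)
  have b2 : fam (fun n => sN P (X n)) ∈ g.N := a2 (by simp)
  have b3 : oN α ∈ g.N := a2 (by simp)
  have b4 : ∀ n, sN P (X n) ∈ g.N := fam_mem b2
  have b5 := H g (g.up a1 (hq.trans hp₀)) a3
  have ap : ∀ s t, App g.E (g.v (relN (fun n : ℕ => (oN n : Name P)) (fun n => sN P (X n))
      fun _ => ⊤)) s t ↔ ∃ n : ℕ, s = g.v (oN n) ∧ t = g.v (sN P (X n)) := fun s t => by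
    rw [app_relN b1]
    exact exists_congr fun n => ⟨fun h => h.2.2.2, fun h => ⟨g.top, a3.o n, b4 n, h⟩⟩
  refine ⟨g.v (relN (fun n : ℕ => (oN n : Name P)) (fun n => sN P (X n)) fun _ => ⊤),
    g.v (fam fun n => sN P (X n)), ⟨fun z hz => ?_, fun s hs => ?_⟩,
    fun s W t c1 c2 => ?_, fun s s' t t' c0 c1 c2 => ?_, g.v (oN α), fun s t c => ?_⟩
  · obtain ⟨n, -, -, -, rfl⟩ := (E_relN b1).1 hz
    exact ⟨_, _, (oN_mem (a3.o n) a3.w).2 (mem_univ n), (E_fam b2).2 ⟨n, b4 n, rfl⟩,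
      isPair_pr _ _⟩
  · obtain ⟨n, -, -, rfl⟩ := (E_sN a3.w).1 hs
    refine ⟨_, (ap _ _).2 ⟨n, rfl, rfl⟩, fun t ht => ?_⟩
    obtain ⟨m, e, rfl⟩ := (ap _ _).1 ht
    rw [ord_inj _ lt_trichotomy (a3.o n) (a3.o m) e]
  · obtain ⟨n, rfl, rfl⟩ := (ap _ _).1 c2
    obtain ⟨W', w1, w2⟩ := hW n g a1 a3 (b4 n)
    rwa [fun_uniq b5.2.2.1 c1 w1]
  · obtain ⟨n, rfl, rfl⟩ := (ap _ _).1 c1
    obtain ⟨m, rfl, rfl⟩ := (ap _ _).1 c2
    exact (sub_iff (b4 m) (b4 n)).2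
      (hA ((ord_lt_iff _ lt_trichotomy (a3.o n) (a3.o m)).1 c0).le)
  · obtain ⟨n, rfl, rfl⟩ := (ap _ _).1 c
    exact (oN_mem b3 (b4 n)).2 (hX n).1

end Key

theorem prec_gen (hD : DB_st) (h : Dist P K Bool) (hB : PBc P F)
    (h0 : sN P (univ : Set ℕ) ∈ g.N) (h1 : sN P (univ : Set K) ∈ g.N)
    (h2 : idl P F ∈ g.N) :
    PrecM g.E (g.v (sN P (univ : Set ℕ))) (g.v (sN P (univ : Set K))) (g.v (idl P F)) := by
  intro S f D a1 a2 a3 a4 a5
  obtain ⟨S, m1, rfl⟩ := exists_v S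
  obtain ⟨f, m2, rfl⟩ := exists_v f
  obtain ⟨D, m3, rfl⟩ := exists_v D
  refine dens (udef_hyp.imp (udef_con 0 4)) (l := lst F S f D)
    (lcons h0 (lcons h1 (l4 h2 m1 m2 m3))) (fun p _ => ?_) ⟨a1, a2, a3, a4, a5⟩
  by_cases hc : ∃ q₀ ≤ p, ∀ g : Gen P, q₀ ∈ g.G → In F S f D g → HH F S f D g
  · obtain ⟨q₀, b1, b2⟩ := hc
    obtain ⟨q, b3, C, b4, b5⟩ := keyC hD h hB b2
    exact ⟨q, b3.trans b1, C, b4, fun g' c1 c2 c3 _ => b5 g' c1 c2 c3⟩
  · refine ⟨p, le_rfl, ∅, countable_empty, fun g' c1 _ c3 c4 => (hc ?_).elim⟩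
    obtain ⟨r, d1, d2⟩ := transfer udef_hyp c3 c4
    obtain ⟨s, -, d3, d4⟩ := g'.dir d1 c1
    exact ⟨s, d4, fun g'' e1 e2 => d2 g'' (g''.up e1 d3) e2⟩

omit [OrderTop P] in
theorem forces_rename : ∀ (φ : Fml) (f : ℕ → ℕ) (w : ℕ → Name P) (p : P),
    Forces (φ.rename f) w p ↔ Forces φ (fun k => w (f k)) p := by
  intro φ
  induction φ with
  | mem i j => intro f w p; rfl
  | eq i j => intro f w p; rfl
  | bot => intro f w p; rfl
  | imp φ ψ ih₁ ih₂ => intro f w p; simp only [Fml.rename, Forces, ih₁, ih₂]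
  | all φ ih =>
    intro f w p
    simp only [Fml.rename, Forces, ih]
    refine forall_congr' fun x => ?_
    have : (fun k => cons x w (liftIdx f k)) = cons x (fun k => w (f k)) := by
      funext k; cases k <;> rfl
    rw [this]

theorem partC (hD : DB_st) (h : Dist P K Bool) (hB : PBc P F) : ∃ φ : Fml,
    (∀ (M : Type 1) (E : M → M → Prop) (w : ℕ → M), Sat E φ w ↔ PrecM E (w 0) (w 1) (w 2)) ∧
    ∀ w : ℕ → Name P, w 0 = sN P (univ : Set ℕ) → w 1 = sN P (univ : Set K) → w 2 = idl P F →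
      ∀ p : P, Forces φ w p := by
  obtain ⟨φ, hφ⟩ := udef_prec
  have hS : ∀ (M : Type 1) (E : M → M → Prop) (w : ℕ → M),
      Sat E (φ.rename fun k => min k 2) w ↔ PrecM E (w 0) (w 1) (w 2) := fun M E w => by
    rw [sat_rename, hφ]; rfl
  refine ⟨φ.rename fun k => min k 2, hS, fun w h0 h1 h2 p => ?_⟩
  have e : (fun k => w (min k 2)) = fun k =>
      env emp [sN P (univ : Set ℕ), sN P (univ : Set K), idl P F] (min k 2) := by
    funext k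
    rcases k with _ | _ | k
    · exact h0
    · exact h1
    · rw [min_eq_right (Nat.le_add_left 2 k)]; exact h2
  rw [forces_rename, e, ← forces_rename]
  refine Forces.reg fun q _ => ?_
  obtain ⟨g, hq, hC⟩ := exists_gen q {sN P (univ : Set ℕ), sN P (univ : Set K), idl P F}
    (Set.toFinite _).countable
  have k0 : sN P (univ : Set ℕ) ∈ g.N := hC (by simp)
  have k1 : sN P (univ : Set K) ∈ g.N := hC (by simp)
  have k2 : idl P F ∈ g.N := hC (by simp)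
  obtain ⟨r, hr, f⟩ := (truth _ (l3 k0 k1 k2)).1 ((hS _ _ _).2 (prec_gen hD h hB k0 k1 k2))
  obtain ⟨s, -, k₁, k₂⟩ := g.dir hr hq
  exact ⟨s, k₂, f.mono k₁⟩

theorem w1_omega : W1 (Ordinal.omega.{0} 1).ToType := by
  have e : #(Ordinal.omega.{0} 1).ToType = ℵ₁ := by simp
  refine ⟨fun a => ?_, ?_⟩
  · rw [← le_aleph0_iff_set_countable, ← Order.lt_succ_iff, succ_aleph0, ← e]
    exact mk_Iio_lt a (by simp)
  · rw [← aleph0_lt_mk_iff, e]
    exact aleph0_lt_aleph_one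

theorem main (hd : Dist P (Ordinal.omega.{0} 1).ToType Bool)
    (hp : ∀ (Z : Type) (D : P → Set (Ordinal.omega.{0} 1).ToType → Z → Prop) (p : P),
      2 ^ ℵ₁ < #Z → FN D p → Onto D p → ProperAt P Z p)
    (F : Filter (Ordinal.omega.{0} 1).ToType) (hF : Precipitous F) : ∃ φ : Fml,
      (∀ (M : Type 1) (E : M → M → Prop) (w : ℕ → M), Sat E φ w ↔ PrecM E (w 0) (w 1) (w 2)) ∧
      ∀ w : ℕ → Name P, w 0 = sN P (univ : Set ℕ) →
        w 1 = sN P (univ : Set (Ordinal.omega.{0} 1).ToType) → w 2 = idl P F →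
        ∀ p : P, Forces φ w p := by
  have e : #(Ordinal.omega.{0} 1).ToType = ℵ₁ := by simp
  have := w1_omega.2
  exact partC db hd (pb3 rng3 P _ F hd hF
    (top3 lift3 coll3 po3 P _ w1_omega F hd hF (by rw [e]; exact hp)))

end Pool.Agent.MP_249dba_lc
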