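import Pool.Agent.MP_249dba_lc.Pr.All

namespace Pool.Agent.MP_249dba_lc

open Cardinal Set Filter Pool.Agent.MP_e34318_lc

/-- Subsets of `S` of size at most `ρ` are strictly bounded in `S`. -/
def Bd {L : Type} [LinearOrder L] (S : Set L) (ρ : Cardinal.{0}) : Prop :=
  ∀ T ⊆ S, #T ≤ ρ → ∃ z ∈ S, ∀ t ∈ T, t < z

def HasScale {L : Type} [LinearOrder L] (s : ℕ → Set L) : Prop :=
  ∃ l : Cardinal.{0}, l.IsRegular ∧ 𝔠 < l ∧ ∃ h : l.ord.ToType → ℕ → L,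
    (∀ ξ n, h ξ n ∈ s n) ∧ (∀ ξ ζ, ξ < ζ → ∀ᶠ n in atTop, h ξ n < h ζ n) ∧
    ∀ g : ℕ → L, (∀ n, g n ∈ s n) → ∃ ξ, ∀ᶠ n in atTop, g n < h ξ n

def Big {K L : Type} [LinearOrder L] (s : K → Set L) (F : Filter K) : Prop :=
  (∀ α, Bd (s α) 𝔠) ∧ ∀ α₀, {α | Bd (s α) (max #(ℕ → K) #(s α₀))} ∈ F

def gens {K L Y : Type} (ι : K → Y) (cq : (K → L) → Y) (l : List ((K → L) × K × L)) : List Y :=
  l.map (fun e => cq e.1) ++ l.map (fun e => ι e.2.1)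

def Good {K L Y : Type} [LinearOrder L] (s : K → Set L) (F : Filter K) (ι : K → Y) (ζ : L → Y)
    (cq : (K → L) → Y) (cd : Set K → Y) (H : List Y → Set Y) (b : ℕ → K)
    (l : List ((K → L) × K × L)) : Prop :=
  (∀ e ∈ l, e.2.2 ∈ s e.2.1 ∧ ∀ z ∈ s e.2.1, ζ z ∈ H (gens ι cq l) → z < e.2.2) ∧
    ∀ C ∈ F, cd C ∈ H (gens ι cq l) → ∀ᶠ n in atTop, b n ∈ C

def Comb2 {K L : Type} [LinearOrder L] (Ω : Type) (s : K → Set L) (F : Filter K) (B : Set K) :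
    Prop :=
  ∃ col : (ℕ → K) → (ℕ → L) → Ω, ∀ (Y : Type) (ι : K → Y) (ζ : L → Y) (cq : (K → L) → Y)
    (cd : Set K → Y), Function.Injective ζ → Function.Injective cd → ∀ F₀ : List Y → Y,
    ∃ b : ℕ → K, (∀ n, b n ∈ B) ∧ ∀ c : Ω, ∃ X : Set Y, X.Countable ∧ Closed F₀ X ∧
      (∀ n, ι (b n) ∈ X) ∧ ∀ x : ℕ → L, (∀ n, x n ∈ s (b n) ∧ ζ (x n) ∈ X) →
        (∀ g : K → L, (∀ α, g α ∈ s α) → cq g ∈ X →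
          ∃ C ∈ F, cd C ∈ X ∧ ∀ n, b n ∈ C → g (b n) ≤ x n) → col b x = c

def Dom {P K L : Type} [Preorder P] [LinearOrder L] (D : P → K → L → Prop) (p : P)
    (F : Filter K) (s : K → Set L) : Prop :=
  ∀ g : K → L, (∀ α, g α ∈ s α) → ∀ r ≤ p, ∃ r' ≤ r, ∃ C ∈ F,
    ∀ α ∈ C, ∀ r'' ≤ r', ∀ z, D r'' α z → g α ≤ z

/-- Every new function is old on densely many positive sets. -/
def PO (P : Type) [Preorder P] {K : Type} (F : Filter K) : Prop :=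
  ∀ (L : Type) [LinearOrder L] [WellFoundedLT L] (D : P → K → L → Prop) (p : P), FN D p →
    ∀ S : Set K, Sᶜ ∉ F → ∃ q ≤ p, ∃ S' ⊆ S, S'ᶜ ∉ F ∧
      ∃ f : K → L, ∀ α ∈ S', ∀ r ≤ q, ∃ s ≤ r, D s α (f α)

def PBc (P : Type) [Preorder P] {K : Type} (F : Filter K) : Prop :=
  ∀ (W : P → ℕ → Set K → Prop) (p : P) (S : Set K), Sᶜ ∉ F →
  (∀ q r n X, r ≤ q → W q n X → W r n X) →
  (∀ q ≤ p, ∀ n X, W q n X → X ⊆ S) →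
  (∀ q ≤ p, ∀ n X Y, W q n X → W q n Y → X ≠ Y → (X ∩ Y)ᶜ ∈ F) →
  (∀ q ≤ p, ∀ n, ∀ Y ⊆ S, Yᶜ ∉ F → ∃ r ≤ q, ∃ X, W r n X ∧ (X ∩ Y)ᶜ ∉ F) →
  (∀ q ≤ p, ∀ n X, W q (n + 1) X → ∃ r ≤ q, ∃ Y, W r n Y ∧ X ⊆ Y) →
  ∃ q ≤ p, ∃ (X : ℕ → Set K) (α : K), ∀ n, α ∈ X n ∧ X (n + 1) ⊆ X n ∧
    ∀ r ≤ q, ∃ s ≤ r, W s n (X n)

def PCF0_st : Prop := ∀ (L : Type) [LinearOrder L] (s : ℕ → Set L), (∀ n, Bd (s n) 𝔠) →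
  ∃ l : Cardinal.{0}, l.IsRegular ∧ 𝔠 < l ∧ ∃ h : l.ord.ToType → ℕ → L,
    (∀ ξ n, h ξ n ∈ s n) ∧ (∀ ξ ζ, ξ < ζ → ∀ᶠ n in atTop, h ξ n < h ζ n) ∧
    ∀ g : ℕ → L, (∀ n, g n ∈ s n) → ∃ ξ, ¬ ∀ᶠ n in atTop, h ξ n < g n

def PCF1_st : Prop := ∀ (L : Type) [LinearOrder L] (s : ℕ → Set L), (∀ n, Bd (s n) 𝔠) →
  ∃ A : Set ℕ, A.Infinite ∧ ∃ l : Cardinal.{0}, l.IsRegular ∧ 𝔠 < l ∧
    ∃ h : l.ord.ToType → ℕ → L, (∀ ξ n, h ξ n ∈ s n) ∧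
    (∀ ξ ζ, ξ < ζ → ∀ᶠ n in atTop, h ξ n < h ζ n) ∧
    ∀ g : ℕ → L, (∀ n, g n ∈ s n) → ∃ ξ, ∀ᶠ n in atTop, n ∈ A → g n < h ξ n

def PCF_st : Prop := ∀ (L : Type) [LinearOrder L] (s : ℕ → Set L), (∀ n, Bd (s n) 𝔠) →
  ∃ r : ℕ → ℕ, (∀ j, r j ≤ j) ∧ Tendsto r atTop atTop ∧ HasScale fun j => s (r j)

def HOP_st : Prop := ∀ (Y : Type) (F₀ : List Y → Y), ∃ H : List Y → Set Y,
  (∀ l, (H l).Countable ∧ Closed F₀ (H l) ∧ ∀ x ∈ l, x ∈ H l) ∧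
    ∀ l l', (∀ x ∈ l, x ∈ H l') → H l ⊆ H l'

def DIAG_st : Prop := ∀ (K S : Type) (F : Filter K) [F.NeBot] (T : List S → Set (Set K)),
  (∀ l, (T l).Countable ∧ ∀ C ∈ T l, C ∈ F) → ∀ B ∈ F, ∀ nxt : List S → K → S,
  ∃ (a : ℕ → K) (l : ℕ → List S), l 0 = [] ∧ (∀ n, l (n + 1) = nxt (l n) (a n) :: l n) ∧
    (∀ n, a n ∈ B) ∧ ∀ m, ∀ C ∈ T (l m), ∀ᶠ n in atTop, a n ∈ C

def BEAT_st : Prop := ∀ (K L : Type) [Infinite K] [LinearOrder L] (s : K → Set L) (F : Filter K),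
  Big s F → ∀ (σ : (ℕ → K) × List ((K → L) × K × L) → ℕ → L) (l : List ((K → L) × K)),
  ∃ y : K → L, (∀ α, y α ∈ s α) ∧ {α | ∀ (b : ℕ → K) (l' : List ((K → L) × K × L)),
    l'.map Prod.fst = l.map Prod.fst → (∀ e ∈ l', e.2.1 ∈ l.map Prod.snd ∧ e.2.2 ∈ s e.2.1) →
    ∀ m, σ (b, l') m ∈ s α → σ (b, l') m ≤ y α} ∈ F

def WIN2_st : Prop := ∀ (K L : Type) [Infinite K] [LinearOrder L] (s : K → Set L) (F : Filter K)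
  [F.NeBot], Big s F → ∀ B ∈ F, ∀ (Y : Type) (ι : K → Y) (ζ : L → Y) (cq : (K → L) → Y)
  (cd : Set K → Y), Function.Injective ζ → Function.Injective cd → ∀ H : List Y → Set Y,
  (∀ l, (H l).Countable ∧ ∀ x ∈ l, x ∈ H l) → (∀ l l', (∀ x ∈ l, x ∈ H l') → H l ⊆ H l') →
  ∃ b : ℕ → K, (∀ n, b n ∈ B) ∧ HasScale (fun n => s (b n)) ∧
    ∃ W : List ((K → L) × K × L) → Prop, W [] ∧ ∀ l, W l → Good s F ι ζ cq cd H b l ∧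
      ∀ u : ℕ → L, (∀ n, u n ∈ s (b n)) → ∃ g z, (∀ α, g α ∈ s α) ∧
        (∀ᶠ n in atTop, u n ≤ g (b n)) ∧ W ((g, b l.length, z) :: l)

def SC_st : Prop := ∀ (L : Type) [LinearOrder L] (s : ℕ → Set L), HasScale s →
  ∀ (Ω : Type) [Nonempty Ω], #Ω ≤ Order.succ 𝔠 →
  ∃ cl : (ℕ → L) → Ω, ∀ Φ : List (ℕ → L) → ℕ → L, (∀ A n, Φ A n ∈ s n) → ∀ c : Ω,
  ∃ (u : ℕ → ℕ → L) (top : ℕ → L), (∀ k n, u k n ∈ s n) ∧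
    (∀ k, ∀ᶠ n in atTop, Φ ((List.range (k + 1)).map u) n < top n) ∧
    ∀ x : ℕ → L, (∀ᶠ n in atTop, x n < top n) →
      (∀ k, ∃ k' ≥ k, ∀ᶠ n in atTop, u k' n ≤ x n) → cl x = c

def SLOWK_st : Prop := ∀ R : ℕ → ℕ → Prop, (∀ k, ∀ᶠ n in atTop, R k n) →
  ∃ k : ℕ → ℕ, Monotone k ∧ Tendsto k atTop atTop ∧ ∀ᶠ n in atTop, R (k n) n

def CB2_st : Prop := ∀ (K L : Type) [Infinite K] [LinearOrder L] (s : K → Set L) (F : Filter K)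
  [F.NeBot] (Ω : Type) [Nonempty Ω], #Ω ≤ Order.succ 𝔠 → Big s F → ∀ B ∈ F, Comb2 Ω s F B

def FIN2_st : Prop := ∀ (P : Type) [Preorder P] (K : Type) [LinearOrder K], W1 K →
  ∀ (L : Type) [LinearOrder L] (s : K → Set L) (F : Filter K) (B : Set K), Proper P →
  Dist P K Bool → Dist P ℕ L → ∀ Ω : Type, #(ℕ → K) < #Ω → Dist P K Ω → Comb2 Ω s F B →
  ∀ (D : P → K → L → Prop) (p : P), FN D p →
  (∀ α ∈ B, ∀ r ≤ p, ∀ z, D r α z → z ∈ s α) → ¬ Dom D p F s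

def DN_st : Prop := ∀ (P : Type) [Preorder P] (K : Type) [Infinite K], Proper P →
  Dist P K Bool → Dist P K ℕ ∧ ∀ V : Type, Dist P ℕ V

def RED_st : Prop := ∀ (P : Type) [Preorder P] (K L : Type) [LinearOrder L] [WellFoundedLT L]
  (F : Filter K), Dist P K Bool → Precipitous F → ∀ (D : P → K → L → Prop) (p : P), FN D p →
  ∀ S : Set K, Sᶜ ∉ F → ∃ q ≤ p, ∃ B ⊆ S, Bᶜ ∉ F ∧ ∃ (s : K → Set L) (u : K → L → L),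
    (∀ α, ∀ ρ < #(s α), Bd (s α) ρ) ∧ (∀ α, ℵ₀ < #(s α) → (#(s α)).IsRegular) ∧
    (∀ α ∈ B, ∀ r ≤ q, ∀ z, D r α z → z ≤ u α z ∧ u α z ∈ s α) ∧
    ∀ g : K → L, (∀ α ∈ B, g α ∈ s α) → ∀ r ≤ q, ∃ r' ≤ r, ∃ C ∈ F,
      ∀ α ∈ C ∩ B, ∀ r'' ≤ r', ∀ z, D r'' α z → g α ≤ z

def CONST_st : Prop := ∀ (P : Type) [Preorder P] (K : Type) [LinearOrder K] [WellFoundedLT K],
  W1 K → ∀ (L : Type) [LinearOrder L] (s : K → Set L) (F : Filter K) [F.NeBot] (B : Set K)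
  (κ : Cardinal.{0}), B ∈ F → κ.IsRegular → #K < κ → (∀ α, #(s α) = κ ∧ ∀ ρ < κ, Bd (s α) ρ) →
  Proper P → Dist P K Bool → Dist P K ℕ → ∀ (D : P → K → L → Prop) (p : P), FN D p →
  (∀ α ∈ B, ∀ r ≤ p, ∀ z, D r α z → z ∈ s α) → ¬ Dom D p F s

def PO_st : Prop := ∀ (P : Type) [Preorder P] (K : Type) [LinearOrder K] [WellFoundedLT K],
  W1 K → ∀ F : Filter K, Proper P → Dist P K Bool → ∀ (Ω : Type) [Inhabited Ω],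
  #(ℕ → K) < #Ω → #Ω ≤ Order.succ 𝔠 → Dist P K Ω → Precipitous F → PO P F

def PB2_st : Prop := ∀ (P : Type) [Preorder P] (K : Type) (F : Filter K),
  (∀ V : Type, Dist P ℕ V) → PO P F → Precipitous F → PBc P F

end Pool.Agent.MP_249dba_lc
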