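import Pool.Agent.MP_249dba_lc.Defs2
import Pool.Agent.MP_249dba_lc.Pr.All2

namespace Pool.Agent.MP_249dba_lc

open Cardinal Set Filter Pool.Agent.MP_e34318_lc

def PrL (P : Type) [Preorder P] (μ : Cardinal.{0}) : Prop :=
  ∀ Z : Type, #Z ≤ μ → ∀ p : P, ProperAt P Z p

def POB (P : Type) [Preorder P] {K : Type} (F : Filter K) (L : Type) (q : P) : Prop :=
  ∀ (D : P → K → L → Prop), ∀ p ≤ q, FN D p → ∀ S : Set K, Sᶜ ∉ F →
    ∃ r ≤ p, ∃ S' ⊆ S, S'ᶜ ∉ F ∧ ∃ f : K → L, ∀ α ∈ S', ∀ r' ≤ r, ∃ s ≤ r', D s α (f α)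

def LIFT_st : Prop := ∀ (P : Type) [Preorder P] (Z Y : Type) (p : P), #Y ≤ #Z →
  ProperAt P Z p → ProperAt P Y p

def COLL_st : Prop := ∀ (P : Type) [Preorder P] (K A L : Type) [Nonempty L]
  (D : P → A → L → Prop) (p : P), Dist P K A → FN D p → Onto D p →
  ∃ D' : P → (K → A) → (K → L) → Prop, FN D' p ∧ Onto D' p

def RNG_st : Prop := ∀ (P : Type) [Preorder P] (A L : Type) [LinearOrder L] [WellFoundedLT L]
  (D : P → A → L → Prop) (p : P),
  (∀ r ≤ p, ∀ a v, D r a v → ∀ u < v, ∃ s ≤ r, ∃ a', D s a' u) →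
  (∃ b, ∀ r a v, D r a v → v < b) →
  ∃ q ≤ p, ∃ v₀, (∀ r ≤ q, ∀ a v, D r a v → v < v₀) ∧ ∀ u < v₀, ∀ r ≤ q, ∃ s ≤ r, ∃ a, D s a u

def PB3_st : Prop := ∀ (P : Type) [Preorder P] (K : Type) [Infinite K] (F : Filter K),
  Dist P K Bool → Precipitous F →
  (∀ (A L : Type) [LinearOrder L] [WellFoundedLT L] (D : P → A → L → Prop) (q : P),
    #A ≤ #(Set K) → FN D q → Onto D q → POB P F L q) → PBc P F

def PO3_st : Prop := ∀ (P : Type) [Preorder P] (K : Type) [LinearOrder K] [WellFoundedLT K],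
  W1 K → ∀ (F : Filter K) (L : Type) [LinearOrder L] [WellFoundedLT L], PrL P #(K → L) →
  Dist P K Bool → Precipitous F → 2 ^ #K < #L → ∀ q : P, POB P F L q

def TOP_st : Prop := ∀ (P : Type) [Preorder P] (K : Type) [LinearOrder K] [WellFoundedLT K],
  W1 K → ∀ F : Filter K, Dist P K Bool → Precipitous F →
  (∀ (Z : Type) (D : P → Set K → Z → Prop) (p : P), 2 ^ #K < #Z → FN D p → Onto D p →
    ProperAt P Z p) →
  ∀ (A L : Type) [LinearOrder L] [WellFoundedLT L] (D : P → A → L → Prop) (q : P),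
    #A ≤ #(Set K) → FN D q → Onto D q → POB P F L q

end Pool.Agent.MP_249dba_lc
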